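import Pool.Agent.W5h42.MG.Defs

/-!
# MP_714120_an, piece (A1): the flux bound
-/

set_option autoImplicit false

open MeasureTheory Set Filter Topology
open scoped ENNReal ContDiff

namespace Pool.Agent.W5h42.MG

namespace A1H

lemma norm_ci {ρ : ℝ} (hρ : 0 ≤ ρ) (θ : ℝ) : ‖ci ρ θ‖ = ρ := by
  unfold ci
  rw [norm_mul, Complex.norm_real, Complex.norm_exp_ofReal_mul_I, mul_one,
    Real.norm_of_nonneg hρ]

lemma continuous_ci (ρ : ℝ) : Continuous (ci ρ) := by
  unfold ci
  fun_prop

/-- a smooth cutoff from `r` to `R` -/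
lemma exists_cutoff {r R : ℝ} (h : r < R) : ∃ η : ℝ → ℝ, ContDiff ℝ 1 η ∧ Antitone η ∧
    (∀ x ≤ r, η x = 1) ∧ ∀ x, R ≤ x → η x = 0 := by
  have hpos : 0 < R - r := by linarith
  refine ⟨fun x => 1 - Real.smoothTransition ((x - r) / (R - r)), ?_, ?_, ?_, ?_⟩
  · exact contDiff_const.sub (Real.smoothTransition.contDiff.comp
      ((contDiff_id.sub contDiff_const).div_const _))
  · intro x y hxy
    have h1 : (x - r) / (R - r) ≤ (y - r) / (R - r) := by gcongr
    have := Real.smoothTransition.monotone h1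
    simp only
    linarith
  · intro x hx
    have h1 : (x - r) / (R - r) ≤ 0 := div_nonpos_of_nonpos_of_nonneg (by linarith) hpos.le
    simp only
    rw [Real.smoothTransition.zero_of_nonpos h1, sub_zero]
  · intro x hx
    have h1 : 1 ≤ (x - r) / (R - r) := by
      rw [one_le_div hpos]
      linarith
    simp only
    rw [Real.smoothTransition.one_of_one_le h1, sub_self]

lemma tt_le (D : Set ℂ) (v : ℂ → ℝ) (z : ℂ) : tt D v z ≤ 1 := by
  unfold tt
  refine div_le_one_of_le₀ (Real.le_sqrt_of_sq_le (by linarith)) (Real.sqrt_nonneg _)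

lemma tt_zero {D : Set ℂ} {z : ℂ} (hz : z ∉ D) (v : ℂ → ℝ) : tt D v z = 0 := by
  unfold tt G
  rw [if_neg hz, zero_div]

/-- the bound with a larger radius -/
lemma aux (h1 : S_EN) (h2 : S_PO) (h3 : S_AN) {D : Set ℂ} {v : ℂ → ℝ} (hE : Ext D v) {b r₀ : ℝ}
    (hb : 0 ≤ b) (hr₀ : 0 < r₀) (hT : Thin D b r₀) {r R H : ℝ} (hr : r₀ ≤ r) (hH : 0 < H)
    (hR : r < R) :
    ∫⁻ z in {z : ℂ | ‖z‖ < r}, ENNReal.ofReal ({z | v z < H}.indicator (q D v) z) ≤
      ENNReal.ofReal (H * b * R) := by
  have hrpos : 0 < r := hr₀.trans_le hr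
  obtain ⟨η, hη, hanti, hη1, hη0⟩ := exists_cutoff hR
  have hdiff : Differentiable ℝ η := hη.differentiable (by norm_num)
  have hdc : Continuous (deriv η) := hη.continuous_deriv (by norm_num)
  have hle1 : ∀ x, η x ≤ 1 := by
    intro x
    rcases le_total x r with h | h
    · exact (hη1 x h).le
    · exact (hanti h).trans (hη1 r le_rfl).le
  have hge0 : ∀ x, 0 ≤ η x := by
    intro x
    rcases le_total x R with h | h
    · exact (hη0 R le_rfl).ge.trans (hanti h)
    · exact (hη0 x h).ge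
  have hd0 : ∀ x, 0 ≤ -(deriv η x) := by
    intro x
    have := Antitone.deriv_nonpos hanti (x := x)
    linarith
  have hdr : ∀ x ≤ r, deriv η x = 0 := fun x hx =>
    IsLocalMax.deriv_eq_zero (Eventually.of_forall fun y => by rw [hη1 x hx]; exact hle1 y)
  have hdR : ∀ x, R ≤ x → deriv η x = 0 := fun x hx =>
    IsLocalMin.deriv_eq_zero (Eventually.of_forall fun y => by rw [hη0 x hx]; exact hge0 y)
  have hen := h1 D v hE η r R hrpos hR hη hanti hη1 hη0 H hH
  have hq0 : ∀ z, 0 ≤ {z | v z < H}.indicator (q D v) z := by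
    intro z
    refine indicator_nonneg (fun z _ => ?_) z
    unfold q
    positivity
  have hv0 : ∀ z, 0 ≤ v z := by
    intro z
    by_cases hz : z ∈ D
    · exact (hE.pos z hz).le
    · rw [hE.zero z hz]
  -- the left side
  have hL : ∫⁻ z in {z : ℂ | ‖z‖ < r}, ENNReal.ofReal ({z | v z < H}.indicator (q D v) z) ≤
      ∫⁻ z, ENNReal.ofReal (η ‖z‖ * {z | v z < H}.indicator (q D v) z) := by
    have hm : MeasurableSet {z : ℂ | ‖z‖ < r} := measurableSet_lt measurable_norm measurable_const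
    rw [← lintegral_indicator hm]
    refine lintegral_mono fun z => ?_
    by_cases hz : z ∈ {z : ℂ | ‖z‖ < r}
    · rw [indicator_of_mem hz, hη1 _ (le_of_lt hz), one_mul]
    · rw [indicator_of_notMem hz]
      exact zero_le
  -- the right side
  set f : ℂ → ℝ≥0∞ := fun z => ENNReal.ofReal (-(deriv η ‖z‖) * H) * D.indicator 1 z with hf
  have hfm : Measurable f := by
    refine Measurable.mul ?_ (measurable_one.indicator hE.opn.measurableSet)
    exact (((hdc.comp continuous_norm).neg.mul continuous_const).measurable).ennreal_ofReal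
  have hRle : ∫⁻ z, ENNReal.ofReal (-(deriv η ‖z‖) * min (v z) H * tt D v z) ≤
      ∫⁻ z in {z : ℂ | r < ‖z‖ ∧ ‖z‖ < R}, f z := by
    have hm : MeasurableSet {z : ℂ | r < ‖z‖ ∧ ‖z‖ < R} :=
      (measurableSet_lt measurable_const measurable_norm).inter
        (measurableSet_lt measurable_norm measurable_const)
    rw [← lintegral_indicator hm]
    refine lintegral_mono fun z => ?_
    by_cases hz : z ∈ {z : ℂ | r < ‖z‖ ∧ ‖z‖ < R}
    · rw [indicator_of_mem hz, hf]
      by_cases hzD : z ∈ D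
      · simp only [indicator_of_mem hzD, Pi.one_apply, mul_one]
        apply ENNReal.ofReal_le_ofReal
        have hm1 : min (v z) H ≤ H := min_le_right _ _
        have hm0 : 0 ≤ min (v z) H := le_min (hv0 z) hH.le
        have ht := tt_le D v z
        have hd := hd0 ‖z‖
        calc -(deriv η ‖z‖) * min (v z) H * tt D v z ≤ -(deriv η ‖z‖) * min (v z) H * 1 := by
              gcongr
          _ ≤ -(deriv η ‖z‖) * H := by rw [mul_one]; gcongr
      · rw [tt_zero hzD, mul_zero, ENNReal.ofReal_zero]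
        exact zero_le
    · rw [indicator_of_notMem hz]
      have h0 : deriv η ‖z‖ = 0 := by
        by_contra hne
        apply hz
        refine ⟨?_, ?_⟩
        · by_contra hcon
          exact hne (hdr _ (not_lt.1 hcon))
        · by_contra hcon
          exact hne (hdR _ (not_lt.1 hcon))
      rw [h0]
      simp
  have hpol := h2 f hfm r R hrpos.le
  have hin : ∀ ρ ∈ Ioo r R, ∫⁻ θ in Ioo (-Real.pi) Real.pi, ENNReal.ofReal ρ * f (ci ρ θ) ≤
      ENNReal.ofReal (H * b * R) * ENNReal.ofReal (-(deriv η ρ)) := by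
    intro ρ hρ
    have hρ0 : 0 < ρ := hrpos.trans hρ.1
    have e1 : ∀ θ, ENNReal.ofReal ρ * f (ci ρ θ) =
        (ENNReal.ofReal ρ * ENNReal.ofReal (-(deriv η ρ) * H)) *
          (ci ρ ⁻¹' D).indicator 1 θ := by
      intro θ
      rw [hf]
      simp only [norm_ci hρ0.le]
      rw [mul_assoc]
      rfl
    have hDm : MeasurableSet (ci ρ ⁻¹' D) := (hE.opn.preimage (continuous_ci ρ)).measurableSet
    have e2 : ∫⁻ θ in Ioo (-Real.pi) Real.pi, ENNReal.ofReal ρ * f (ci ρ θ) =
        (ENNReal.ofReal ρ * ENNReal.ofReal (-(deriv η ρ) * H)) * ang D ρ := by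
      simp only [e1]
      rw [lintegral_const_mul' _ _ (ENNReal.mul_ne_top ENNReal.ofReal_ne_top
        ENNReal.ofReal_ne_top), lintegral_indicator_one hDm, Measure.restrict_apply hDm,
        ← h3 D hE.opn ρ]
      congr 2
      ext θ
      exact and_comm
    rw [e2]
    have hang := (hT ρ (hr.trans hρ.1.le)).2
    have hd := hd0 ρ
    calc (ENNReal.ofReal ρ * ENNReal.ofReal (-(deriv η ρ) * H)) * ang D ρ
        ≤ (ENNReal.ofReal R * ENNReal.ofReal (-(deriv η ρ) * H)) * ENNReal.ofReal b := by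
          gcongr
          exact hρ.2.le
      _ = ENNReal.ofReal (H * b * R) * ENNReal.ofReal (-(deriv η ρ)) := by
          have hR0 : 0 < R := hrpos.trans hR
          rw [← ENNReal.ofReal_mul hR0.le, ← ENNReal.ofReal_mul (by positivity),
            ← ENNReal.ofReal_mul (by positivity)]
          congr 1
          ring
  have hint : ∫⁻ ρ in Ioo r R, ENNReal.ofReal (-(deriv η ρ)) = 1 := by
    have hIi : IntegrableOn (fun ρ => -(deriv η ρ)) (Ioo r R) :=
      (hdc.neg.continuousOn.integrableOn_compact isCompact_Icc).mono_set Ioo_subset_Icc_self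
    rw [← ofReal_integral_eq_lintegral_ofReal hIi (ae_of_all _ hd0),
      ← integral_Ioc_eq_integral_Ioo, ← intervalIntegral.integral_of_le hR.le,
      intervalIntegral.integral_neg, intervalIntegral.integral_deriv_eq_sub
        (fun x _ => hdiff x) (hdc.intervalIntegrable r R), hη1 r le_rfl, hη0 R le_rfl]
    norm_num
  calc ∫⁻ z in {z : ℂ | ‖z‖ < r}, ENNReal.ofReal ({z | v z < H}.indicator (q D v) z)
      ≤ ∫⁻ z in {z : ℂ | r < ‖z‖ ∧ ‖z‖ < R}, f z := (hL.trans hen).trans hRle
    _ = ∫⁻ ρ in Ioo r R, ∫⁻ θ in Ioo (-Real.pi) Real.pi, ENNReal.ofReal ρ * f (ci ρ θ) := hpol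
    _ ≤ ∫⁻ ρ in Ioo r R, ENNReal.ofReal (H * b * R) * ENNReal.ofReal (-(deriv η ρ)) :=
        setLIntegral_mono' measurableSet_Ioo hin
    _ = ENNReal.ofReal (H * b * R) * ∫⁻ ρ in Ioo r R, ENNReal.ofReal (-(deriv η ρ)) :=
        lintegral_const_mul' _ _ ENNReal.ofReal_ne_top
    _ = ENNReal.ofReal (H * b * R) := by rw [hint, mul_one]

end A1H

open A1H in
/-- (A1) -/
theorem a1 (h1 : S_EN) (h2 : S_PO) (h3 : S_AN) (_h4 : S_ME) : S_A1 := by
  intro D v hE b r₀ hb hr₀ hT r H hr hH
  have hc : Tendsto (fun R => ENNReal.ofReal (H * b * R)) (𝓝[>] r)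
      (𝓝 (ENNReal.ofReal (H * b * r))) :=
    ((ENNReal.continuous_ofReal.comp (continuous_const.mul continuous_id)).tendsto r).mono_left
      nhdsWithin_le_nhds
  refine ge_of_tendsto hc ?_
  filter_upwards [self_mem_nhdsWithin] with R hR
  exact aux h1 h2 h3 hE hb hr₀ hT hr hH hR

end Pool.Agent.W5h42.MG
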