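import Pool.Agent.W5h42.MG.Defs

/-!
# (A2) The Caccioppoli type bound

Written by helper68.
-/

set_option autoImplicit false

open MeasureTheory Set Filter Topology
open scoped ENNReal ContDiff

namespace Pool.Agent.W5h42.MG

namespace A2x

/-- the clamped parameter on `[3d, 4d]` -/
noncomputable def cl (d t : ℝ) : ℝ := max 0 (min 1 ((4 * d - t) / d))

/-- minus the derivative of the cutoff -/
noncomputable def hh (d t : ℝ) : ℝ := 6 * cl d t * (1 - cl d t) / d

/-- the cutoff -/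
noncomputable def eta (d x : ℝ) : ℝ := 1 - ∫ t in (3 * d)..x, hh d t

theorem cl_cont {d : ℝ} : Continuous (cl d) := by unfold cl; fun_prop

theorem hh_cont {d : ℝ} : Continuous (hh d) := by
  unfold hh
  have := cl_cont (d := d)
  fun_prop

theorem cl_mem (d t : ℝ) : 0 ≤ cl d t ∧ cl d t ≤ 1 := by
  unfold cl
  exact ⟨le_max_left _ _, max_le zero_le_one (min_le_left _ _)⟩

theorem hh_nonneg {d : ℝ} (hd : 0 < d) (t : ℝ) : 0 ≤ hh d t := by
  unfold hh
  have := cl_mem d t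
  have h1 : 0 ≤ 1 - cl d t := by linarith [this.2]
  have h2 := this.1
  positivity

theorem cl_low {d t : ℝ} (hd : 0 < d) (ht : t ≤ 3 * d) : cl d t = 1 := by
  unfold cl
  have h1 : 1 ≤ (4 * d - t) / d := by
    rw [le_div_iff₀ hd]
    linarith
  rw [min_eq_left h1]
  exact max_eq_right zero_le_one

theorem cl_high {d t : ℝ} (hd : 0 < d) (ht : 4 * d ≤ t) : cl d t = 0 := by
  unfold cl
  have h1 : (4 * d - t) / d ≤ 0 := div_nonpos_of_nonpos_of_nonneg (by linarith) hd.le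
  exact max_eq_left ((min_le_right _ _).trans h1)

theorem cl_mid {d t : ℝ} (hd : 0 < d) (h1 : 3 * d ≤ t) (h2 : t ≤ 4 * d) :
    cl d t = (4 * d - t) / d := by
  unfold cl
  have h3 : (4 * d - t) / d ≤ 1 := by
    rw [div_le_iff₀ hd]
    linarith
  have h4 : 0 ≤ (4 * d - t) / d := div_nonneg (by linarith) hd.le
  rw [min_eq_right h3, max_eq_right h4]

theorem hh_low {d t : ℝ} (hd : 0 < d) (ht : t ≤ 3 * d) : hh d t = 0 := by
  unfold hh
  rw [cl_low hd ht]
  ring

theorem hh_high {d t : ℝ} (hd : 0 < d) (ht : 4 * d ≤ t) : hh d t = 0 := by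
  unfold hh
  rw [cl_high hd ht]
  ring

theorem eta_deriv {d : ℝ} (x : ℝ) : HasDerivAt (eta d) (-hh d x) x := by
  have h1 := intervalIntegral.integral_hasDerivAt_right (hh_cont.intervalIntegrable (3 * d) x)
    ((hh_cont (d := d)).stronglyMeasurableAtFilter _ _) (hh_cont (d := d)).continuousAt
  exact h1.const_sub 1

theorem eta_C1 {d : ℝ} : ContDiff ℝ 1 (eta d) := by
  rw [contDiff_one_iff_deriv]
  refine ⟨fun x => (eta_deriv x).differentiableAt, ?_⟩
  have h1 : deriv (eta d) = fun x => -hh d x := funext fun x => (eta_deriv x).deriv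
  rw [h1]
  exact hh_cont.neg

theorem eta_anti {d : ℝ} (hd : 0 < d) : Antitone (eta d) :=
  antitone_of_hasDerivAt_nonpos (fun x => eta_deriv x) fun x => by
    have := hh_nonneg hd x
    simpa using this

theorem eta_one {d x : ℝ} (hd : 0 < d) (hx : x ≤ 3 * d) : eta d x = 1 := by
  unfold eta
  have h1 : ∫ t in (3 * d)..x, hh d t = ∫ t in (3 * d)..x, (0 : ℝ) := by
    refine intervalIntegral.integral_congr fun t ht => ?_
    rw [uIcc_of_ge hx] at ht
    exact hh_low hd ht.2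
  rw [h1]
  simp

theorem int_hh {d : ℝ} (hd : 0 < d) : ∫ t in (3 * d)..(4 * d), hh d t = 1 := by
  have h1 : ∀ t ∈ uIcc (3 * d) (4 * d), HasDerivAt
      (fun t : ℝ => -(3 * ((4 * d - t) / d) ^ 2 - 2 * ((4 * d - t) / d) ^ 3)) (hh d t) t := by
    intro t ht
    rw [uIcc_of_le (by linarith)] at ht
    have h2 : HasDerivAt (fun t : ℝ => (4 * d - t) / d) (-1 / d) t := by
      simpa using ((hasDerivAt_id t).const_sub (4 * d)).div_const d
    have h3 := (((h2.pow 2).const_mul 3).sub ((h2.pow 3).const_mul 2)).neg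
    refine h3.congr_deriv ?_
    unfold hh
    rw [cl_mid hd ht.1 ht.2]
    generalize (4 * d - t) / d = s
    push_cast
    field_simp
    ring
  rw [intervalIntegral.integral_eq_sub_of_hasDerivAt h1 (hh_cont.intervalIntegrable _ _)]
  have h2 : (4 * d - 4 * d) / d = 0 := by simp
  have h3 : (4 * d - 3 * d) / d = 1 := by field_simp; ring
  rw [h2, h3]
  norm_num

theorem eta_zero {d x : ℝ} (hd : 0 < d) (hx : 4 * d ≤ x) : eta d x = 0 := by
  unfold eta
  rw [← intervalIntegral.integral_add_adjacent_intervals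
    (hh_cont.intervalIntegrable (3 * d) (4 * d)) (hh_cont.intervalIntegrable (4 * d) x), int_hh hd]
  have h1 : ∫ t in (4 * d)..x, hh d t = ∫ t in (4 * d)..x, (0 : ℝ) := by
    refine intervalIntegral.integral_congr fun t ht => ?_
    rw [uIcc_of_le hx] at ht
    exact hh_high hd ht.1
  rw [h1]
  simp

theorem int_hh2 {d : ℝ} (hd : 0 < d) : ∫ t in (3 * d)..(4 * d), t * hh d t ^ 2 = 21 / 5 := by
  have h1 : ∀ t ∈ uIcc (3 * d) (4 * d), HasDerivAt
      (fun t : ℝ => -(36 * (4 * ((4 * d - t) / d) ^ 3 / 3 - 9 * ((4 * d - t) / d) ^ 4 / 4 +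
        6 * ((4 * d - t) / d) ^ 5 / 5 - ((4 * d - t) / d) ^ 6 / 6))) (t * hh d t ^ 2) t := by
    intro t ht
    rw [uIcc_of_le (by linarith)] at ht
    have h2 : HasDerivAt (fun t : ℝ => (4 * d - t) / d) (-1 / d) t := by
      simpa using ((hasDerivAt_id t).const_sub (4 * d)).div_const d
    have h3 := (((((((h2.pow 3).const_mul 4).div_const 3).sub
      (((h2.pow 4).const_mul 9).div_const 4)).add
      (((h2.pow 5).const_mul 6).div_const 5)).sub ((h2.pow 6).div_const 6)).const_mul 36).neg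
    refine h3.congr_deriv ?_
    unfold hh
    rw [cl_mid hd ht.1 ht.2]
    have h4 : t = 4 * d - d * ((4 * d - t) / d) := by field_simp; ring
    generalize (4 * d - t) / d = s at h4 ⊢
    rw [h4]
    push_cast
    field_simp
    ring
  have hc : Continuous fun t : ℝ => t * hh d t ^ 2 := by
    have := hh_cont (d := d)
    fun_prop
  rw [intervalIntegral.integral_eq_sub_of_hasDerivAt h1 (hc.intervalIntegrable _ _)]
  have h2 : (4 * d - 4 * d) / d = 0 := by simp
  have h3 : (4 * d - 3 * d) / d = 1 := by field_simp; ring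
  rw [h2, h3]
  norm_num

theorem v_nonneg {D : Set ℂ} {v : ℂ → ℝ} (hv : Ext D v) (z : ℂ) : 0 ≤ v z := by
  by_cases hz : z ∈ D
  · exact (hv.pos z hz).le
  · exact (hv.zero z hz).ge

theorem G_nonneg (D : Set ℂ) (v : ℂ → ℝ) (z : ℂ) : 0 ≤ G D v z := by
  unfold G
  split_ifs
  · exact Real.sqrt_nonneg _
  · exact le_rfl

theorem tt_nonneg (D : Set ℂ) (v : ℂ → ℝ) (z : ℂ) : 0 ≤ tt D v z := by
  unfold tt
  have := G_nonneg D v z
  positivity

theorem tt_off {D : Set ℂ} {v : ℂ → ℝ} {z : ℂ} (hz : z ∉ D) : tt D v z = 0 := by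
  unfold tt G
  rw [if_neg hz, zero_div]

theorem tt_sq (D : Set ℂ) (v : ℂ → ℝ) (z : ℂ) : tt D v z ^ 2 ≤ q D v z := by
  unfold tt q
  have h1 : 1 ≤ √(1 + G D v z ^ 2) := Real.one_le_sqrt.2 (by nlinarith [sq_nonneg (G D v z)])
  have h2 : 0 < √(1 + G D v z ^ 2) := by linarith
  rw [div_pow]
  apply div_le_div_of_nonneg_left (sq_nonneg _) h2
  nlinarith

theorem ci_norm {ρ : ℝ} (hρ : 0 ≤ ρ) (θ : ℝ) : ‖ci ρ θ‖ = ρ := by
  unfold ci
  rw [norm_mul, Complex.norm_exp_ofReal_mul_I, mul_one, Complex.norm_real,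
    Real.norm_of_nonneg hρ]

/-- the annulus -/
def An (d : ℝ) : Set ℂ := {z : ℂ | 3 * d < ‖z‖ ∧ ‖z‖ < 4 * d}

theorem An_meas (d : ℝ) : MeasurableSet (An d) :=
  ((isOpen_lt continuous_const continuous_norm).inter
    (isOpen_lt continuous_norm continuous_const)).measurableSet

/-- the first factor -/
noncomputable def ff (D : Set ℂ) (d : ℝ) (z : ℂ) : ℝ≥0∞ :=
  D.indicator (fun z => ENNReal.ofReal (hh d ‖z‖)) z

theorem ff_meas {D : Set ℂ} (hD : IsOpen D) (d : ℝ) : Measurable (ff D d) := by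
  unfold ff
  refine Measurable.indicator ?_ hD.measurableSet
  have := hh_cont (d := d)
  exact (ENNReal.continuous_ofReal.comp (this.comp continuous_norm)).measurable

theorem int_ff (h2 : S_PO) (h3 : S_AN) {D : Set ℂ} (hD : IsOpen D) {b r₀ d : ℝ}
    (hT : Thin D b r₀) (hd : 0 < d) (hr : r₀ ≤ 3 * d) :
    ∫⁻ z in An d, ff D d z ^ (2 : ℝ) ≤ ENNReal.ofReal b * ENNReal.ofReal (21 / 5) := by
  have hm : Measurable fun z => ff D d z ^ (2 : ℝ) := (ff_meas hD d).pow_const _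
  have e1 := h2 (fun z => ff D d z ^ (2 : ℝ)) hm (3 * d) (4 * d) (by positivity)
  have e0 : ∫⁻ z in An d, ff D d z ^ (2 : ℝ) =
      ∫⁻ z in {z : ℂ | 3 * d < ‖z‖ ∧ ‖z‖ < 4 * d}, ff D d z ^ (2 : ℝ) := rfl
  rw [e0, e1]
  have e2 : ∀ ρ ∈ Ioo (3 * d) (4 * d), ∫⁻ θ in Ioo (-Real.pi) Real.pi,
      ENNReal.ofReal ρ * ff D d (ci ρ θ) ^ (2 : ℝ) ≤
      ENNReal.ofReal b * ENNReal.ofReal (ρ * hh d ρ ^ 2) := by
    intro ρ hρ
    have hρ0 : 0 < ρ := lt_trans (by positivity) hρ.1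
    have hopen : IsOpen {θ : ℝ | ci ρ θ ∈ D} := by
      refine hD.preimage ?_
      unfold ci
      fun_prop
    have e3 : (fun θ : ℝ => ENNReal.ofReal ρ * ff D d (ci ρ θ) ^ (2 : ℝ)) =
        {θ : ℝ | ci ρ θ ∈ D}.indicator fun _ => ENNReal.ofReal (ρ * hh d ρ ^ 2) := by
      funext θ
      unfold ff
      by_cases hθ : ci ρ θ ∈ D
      · rw [indicator_of_mem hθ, indicator_of_mem (show θ ∈ {θ : ℝ | ci ρ θ ∈ D} from hθ),
          ci_norm hρ0.le, ENNReal.ofReal_rpow_of_nonneg (hh_nonneg hd ρ) (by norm_num),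
          ← ENNReal.ofReal_mul hρ0.le, Real.rpow_two]
      · rw [indicator_of_notMem hθ, indicator_of_notMem
          (show θ ∉ {θ : ℝ | ci ρ θ ∈ D} from hθ), ENNReal.zero_rpow_of_pos (by norm_num),
          mul_zero]
    rw [e3, lintegral_indicator_const hopen.measurableSet, mul_comm,
      Measure.restrict_apply hopen.measurableSet]
    refine mul_le_mul_left ?_ _
    have e4 : {θ : ℝ | ci ρ θ ∈ D} ∩ Ioo (-Real.pi) Real.pi =
        {θ ∈ Ioo (-Real.pi) Real.pi | ci ρ θ ∈ D} := by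
      ext θ
      simp [and_comm]
    rw [e4, h3 D hD ρ]
    exact (hT ρ (hr.trans hρ.1.le)).2
  refine (setLIntegral_mono' measurableSet_Ioo e2).trans ?_
  have hc : Continuous fun ρ : ℝ => ρ * hh d ρ ^ 2 := by
    have := hh_cont (d := d)
    fun_prop
  have hcm : Measurable fun ρ : ℝ => ENNReal.ofReal (ρ * hh d ρ ^ 2) :=
    (ENNReal.continuous_ofReal.comp hc).measurable
  rw [lintegral_const_mul _ hcm]
  refine mul_le_mul_right ?_ _
  rw [← ofReal_integral_eq_lintegral_ofReal]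
  · rw [← int_hh2 hd, intervalIntegral.integral_of_le (by linarith), integral_Ioc_eq_integral_Ioo]
  · exact (hc.integrableOn_Icc (a := 3 * d) (b := 4 * d)).mono_set Ioo_subset_Icc_self
  · rw [EventuallyLE, ae_restrict_iff' measurableSet_Ioo]
    refine ae_of_all _ fun ρ hρ => ?_
    have hρ0 : 0 < ρ := lt_trans (by positivity) hρ.1
    exact mul_nonneg hρ0.le (sq_nonneg _)

end A2x

open A2x in
/-- (A2) -/
theorem a2 (h1 : S_EN) (h2 : S_PO) (h3 : S_AN) (h4 : S_ME) : S_A2 := by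
  intro D v hv b r₀ hb hr₀ hT r M hr hM hvM
  have hr0 : 0 < r := by linarith
  obtain ⟨d, hd⟩ : ∃ d : ℝ, d = r / 3 := ⟨_, rfl⟩
  have h3d : 3 * d = r := by rw [hd]; ring
  have h4d : 4 * d = 4 / 3 * r := by rw [hd]; ring
  have hd0 : 0 < d := by rw [hd]; positivity
  clear hd
  obtain ⟨hGm, hqm, htm⟩ := h4 D v hv
  have hEN := h1 D v hv (eta d) (3 * d) (4 * d) (by positivity) (by linarith) eta_C1
    (eta_anti hd0) (fun x hx => eta_one hd0 hx) (fun x hx => eta_zero hd0 hx) (M + 1) (by linarith)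
  have hL : ∫⁻ z in {z : ℂ | ‖z‖ < r}, ENNReal.ofReal (q D v z) ≤
      ∫⁻ z, ENNReal.ofReal (eta d ‖z‖ * {z | v z < M + 1}.indicator (q D v) z) := by
    refine le_trans ?_ (setLIntegral_le_lintegral {z : ℂ | ‖z‖ < r} _)
    refine setLIntegral_mono' (isOpen_lt continuous_norm continuous_const).measurableSet ?_
    intro z hz
    have hz' : ‖z‖ < r := hz
    have e1 : v z ≤ M := hvM z (by linarith)
    rw [eta_one hd0 (by linarith), one_mul,
      indicator_of_mem (show z ∈ {z | v z < M + 1} by show v z < M + 1; linarith)]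
  have hR : ∫⁻ z, ENNReal.ofReal (-(deriv (eta d) ‖z‖) * min (v z) (M + 1) * tt D v z) ≤
      ENNReal.ofReal M * ∫⁻ z in An d, ff D d z * ENNReal.ofReal (tt D v z) := by
    have hfm : Measurable fun z => ff D d z * ENNReal.ofReal (tt D v z) :=
      (ff_meas hv.opn d).mul htm.ennreal_ofReal
    rw [← lintegral_const_mul _ hfm, ← lintegral_indicator (An_meas d)]
    refine lintegral_mono fun z => ?_
    simp only
    rw [(eta_deriv (d := d) ‖z‖).deriv, neg_neg]
    by_cases hz : z ∈ An d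
    · rw [indicator_of_mem hz]
      by_cases hzD : z ∈ D
      · unfold ff
        rw [indicator_of_mem hzD, ← ENNReal.ofReal_mul (hh_nonneg hd0 _),
          ← ENNReal.ofReal_mul hM.le]
        apply ENNReal.ofReal_le_ofReal
        have e1 : v z ≤ M := hvM z (by have := hz.2; linarith)
        have e2 : min (v z) (M + 1) ≤ M := (min_le_left _ _).trans e1
        have e3 := hh_nonneg hd0 ‖z‖
        have e4 := tt_nonneg D v z
        calc hh d ‖z‖ * min (v z) (M + 1) * tt D v z ≤ hh d ‖z‖ * M * tt D v z :=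
              mul_le_mul_of_nonneg_right (mul_le_mul_of_nonneg_left e2 e3) e4
          _ = M * (hh d ‖z‖ * tt D v z) := by ring
      · rw [tt_off hzD, mul_zero, ENNReal.ofReal_zero]
        exact zero_le
    · rw [indicator_of_notMem hz]
      have e1 : hh d ‖z‖ = 0 := by
        rcases le_or_gt ‖z‖ (3 * d) with h | h
        · exact hh_low hd0 h
        · refine hh_high hd0 ?_
          by_contra h5
          exact hz ⟨h, not_le.1 h5⟩
      rw [e1, zero_mul, zero_mul, ENNReal.ofReal_zero]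
  have hH := ENNReal.lintegral_mul_le_Lp_mul_Lq (volume.restrict (An d)) Real.HolderConjugate.two_two
    (ff_meas hv.opn d).aemeasurable htm.ennreal_ofReal.aemeasurable
  have hX := int_ff h2 h3 hv.opn hT hd0 (by linarith)
  have hY : ∫⁻ z in An d, ENNReal.ofReal (tt D v z) ^ (2 : ℝ) ≤
      ∫⁻ z in {z : ℂ | ‖z‖ < 4 / 3 * r}, ENNReal.ofReal (q D v z) := by
    refine (lintegral_mono_set (t := {z : ℂ | ‖z‖ < 4 / 3 * r}) ?_).trans
      (lintegral_mono fun z => ?_)
    · intro z hz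
      have := hz.2
      show ‖z‖ < 4 / 3 * r
      linarith
    · rw [ENNReal.ofReal_rpow_of_nonneg (tt_nonneg D v z) (by norm_num), Real.rpow_two]
      exact ENNReal.ofReal_le_ofReal (tt_sq D v z)
  set EE := ∫⁻ z in {z : ℂ | ‖z‖ < r}, ENNReal.ofReal (q D v z)
  set E2 := ∫⁻ z in {z : ℂ | ‖z‖ < 4 / 3 * r}, ENNReal.ofReal (q D v z)
  set X := ∫⁻ z in An d, ff D d z ^ (2 : ℝ)
  set Y := ∫⁻ z in An d, ENNReal.ofReal (tt D v z) ^ (2 : ℝ)
  have hfin : EE ≤ ENNReal.ofReal M * (X ^ (1 / (2 : ℝ)) * Y ^ (1 / (2 : ℝ))) :=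
    (hL.trans (hEN.trans hR)).trans (mul_le_mul_right hH _)
  have hsq : ∀ a : ℝ≥0∞, (a ^ (1 / (2 : ℝ))) ^ 2 = a := by
    intro a
    rw [← ENNReal.rpow_natCast, ← ENNReal.rpow_mul]
    norm_num
  calc EE ^ 2 ≤ (ENNReal.ofReal M * (X ^ (1 / (2 : ℝ)) * Y ^ (1 / (2 : ℝ)))) ^ 2 := by gcongr
    _ = ENNReal.ofReal M ^ 2 * (X * Y) := by rw [mul_pow, mul_pow, hsq, hsq]
    _ ≤ ENNReal.ofReal M ^ 2 * (ENNReal.ofReal b * ENNReal.ofReal (21 / 5) * E2) := by gcongr
    _ = ENNReal.ofReal (21 / 5 * b * M ^ 2) * E2 := by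
        rw [← ENNReal.ofReal_pow hM.le, ← ENNReal.ofReal_mul hb, ← mul_assoc,
          ← ENNReal.ofReal_mul (by positivity)]
        congr 2
        ring

end Pool.Agent.W5h42.MG
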