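import Pool.Agent.W5h42.MG.Defs

/-! (AN), (ME): the angular measure on `(-π, π)`; measurability. -/

set_option autoImplicit false

open MeasureTheory Set Filter Topology
open scoped ENNReal

namespace Pool.Agent.W5h42.MG

lemma an_per (P : Set ℝ) (hP : MeasurableSet P) {T : ℝ} (hT : 0 ≤ T)
    (hper : ∀ x, x + T ∈ P ↔ x ∈ P) (t s : ℝ) :
    volume (P ∩ Ioc t (t + T)) = volume (P ∩ Ioc s (s + T)) := by
  have hf : Function.Periodic (P.indicator (1 : ℝ → ℝ)) T := by
    intro x
    by_cases h : x ∈ P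
    · rw [indicator_of_mem h, indicator_of_mem ((hper x).2 h)]
      rfl
    · rw [indicator_of_notMem h, indicator_of_notMem fun h2 => h ((hper x).1 h2)]
  have key : ∀ u : ℝ, ∫ x in u..u + T, P.indicator (1 : ℝ → ℝ) x =
      (volume (P ∩ Ioc u (u + T))).toReal := by
    intro u
    rw [intervalIntegral.integral_of_le (by linarith), integral_indicator_one hP,
      measureReal_restrict_apply hP, measureReal_def]
  have h := hf.intervalIntegral_add_eq t s
  rw [key, key] at h
  refine (ENNReal.toReal_eq_toReal_iff' ?_ ?_).1 h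
  · exact ((measure_mono inter_subset_right).trans_lt measure_Ioc_lt_top).ne
  · exact ((measure_mono inter_subset_right).trans_lt measure_Ioc_lt_top).ne

/-- (AN) -/
theorem an : S_AN := by
  intro D hD r
  have hc : Continuous fun θ : ℝ => ci r θ := by
    unfold ci
    fun_prop
  have hP : MeasurableSet {θ : ℝ | ci r θ ∈ D} := (hD.preimage hc).measurableSet
  have hper : ∀ x : ℝ, x + 2 * Real.pi ∈ {θ : ℝ | ci r θ ∈ D} ↔ x ∈ {θ : ℝ | ci r θ ∈ D} := by
    intro x
    have : ci r (x + 2 * Real.pi) = ci r x := by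
      unfold ci
      congr 1
      push_cast
      rw [add_mul, Complex.exp_add, Complex.exp_two_pi_mul_I, mul_one]
    show ci r (x + 2 * Real.pi) ∈ D ↔ ci r x ∈ D
    rw [this]
  have h := an_per _ hP (by positivity) hper (-Real.pi) 0
  have e1 : -Real.pi + 2 * Real.pi = Real.pi := by ring
  rw [e1, zero_add] at h
  have e2 : {θ ∈ Ioo (-Real.pi) Real.pi | ci r θ ∈ D} =
      Ioo (-Real.pi) Real.pi ∩ {θ : ℝ | ci r θ ∈ D} := rfl
  have e3 : {θ ∈ Ico 0 (2 * Real.pi) | ci r θ ∈ D} =
      Ico 0 (2 * Real.pi) ∩ {θ : ℝ | ci r θ ∈ D} := rfl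
  unfold ang
  rw [e2, e3]
  calc volume (Ioo (-Real.pi) Real.pi ∩ {θ : ℝ | ci r θ ∈ D})
      = volume (Ioc (-Real.pi) Real.pi ∩ {θ : ℝ | ci r θ ∈ D}) :=
        measure_congr ((Ioo_ae_eq_Ioc).inter (ae_eq_refl _))
    _ = volume (Ioc 0 (2 * Real.pi) ∩ {θ : ℝ | ci r θ ∈ D}) := by
        rw [inter_comm, h, inter_comm]
    _ = volume (Ico 0 (2 * Real.pi) ∩ {θ : ℝ | ci r θ ∈ D}) :=
        measure_congr ((Ico_ae_eq_Ioc).symm.inter (ae_eq_refl _))

/-- (ME) -/
theorem me : S_ME := by
  classical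
  intro D v hv
  have hx : Measurable (px v) := measurable_fderiv_apply_const ℝ v 1
  have hy : Measurable (py v) := measurable_fderiv_apply_const ℝ v Complex.I
  have hG : Measurable (G D v) := by
    have h : Measurable fun z => √(px v z ^ 2 + py v z ^ 2) :=
      ((hx.pow_const 2).add (hy.pow_const 2)).sqrt
    have h2 := h.indicator hv.opn.measurableSet
    convert h2 using 1
    funext z
    unfold G
    by_cases hz : z ∈ D
    · rw [if_pos hz, indicator_of_mem hz]
    · rw [if_neg hz, indicator_of_notMem hz]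
  have hW : Measurable fun z => √(1 + G D v z ^ 2) := (measurable_const.add (hG.pow_const 2)).sqrt
  exact ⟨hG, (hG.pow_const 2).div hW, hG.div hW⟩

end Pool.Agent.W5h42.MG
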