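import Pool.Agent.W5h42.MG.Defs

/-!
# (AR) The area of an annulus in `D`
-/

set_option autoImplicit false

open MeasureTheory Set Filter Topology
open scoped ENNReal ContDiff

namespace Pool.Agent.W5h42.MG

namespace ARx

theorem ci_cont (ρ : ℝ) : Continuous (ci ρ) := by
  unfold ci
  fun_prop

theorem lint_id {r R : ℝ} (hr : 0 ≤ r) (hrR : r ≤ R) :
    ∫⁻ ρ in Ioo r R, ENNReal.ofReal ρ = ENNReal.ofReal ((R ^ 2 - r ^ 2) / 2) := by
  rw [← ofReal_integral_eq_lintegral_ofReal]
  · rw [← integral_Ioc_eq_integral_Ioo, ← intervalIntegral.integral_of_le hrR, integral_id]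
  · exact (continuous_id.integrableOn_Icc (a := r) (b := R)).mono_set Ioo_subset_Icc_self
  · refine (ae_restrict_iff' measurableSet_Ioo).2 (Eventually.of_forall fun ρ hρ => ?_)
    exact hr.trans hρ.1.le

end ARx

/-- **(AR)** The area of an annulus in a thin domain. -/
theorem ar (h2 : S_PO) (h3 : S_AN) : S_AR := by
  intro D hD b r₀ hb hr₀ hT r R hr hrR
  have hr0 : 0 ≤ r := hr₀.le.trans hr
  have hDm : MeasurableSet D := hD.measurableSet
  have h1 : volume {z ∈ D | r < ‖z‖ ∧ ‖z‖ < R} =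
      ∫⁻ z in {z : ℂ | r < ‖z‖ ∧ ‖z‖ < R}, D.indicator (fun _ => (1 : ℝ≥0∞)) z := by
    rw [show (D.indicator (fun _ => (1 : ℝ≥0∞)) : ℂ → ℝ≥0∞) = D.indicator 1 from rfl,
      lintegral_indicator_one hDm, Measure.restrict_apply hDm]
    rfl
  rw [h1, h2 _ (measurable_const.indicator hDm) r R hr0]
  calc ∫⁻ ρ in Ioo r R, ∫⁻ θ in Ioo (-Real.pi) Real.pi,
        ENNReal.ofReal ρ * D.indicator (fun _ => (1 : ℝ≥0∞)) (ci ρ θ)
      ≤ ∫⁻ ρ in Ioo r R, ENNReal.ofReal ρ * ENNReal.ofReal b := by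
        refine setLIntegral_mono' measurableSet_Ioo fun ρ hρ => ?_
        rw [lintegral_const_mul' _ _ ENNReal.ofReal_ne_top]
        gcongr
        have h4 : ∫⁻ θ in Ioo (-Real.pi) Real.pi, D.indicator (fun _ => (1 : ℝ≥0∞)) (ci ρ θ) =
            volume {θ ∈ Ioo (-Real.pi) Real.pi | ci ρ θ ∈ D} := by
          have hm : MeasurableSet (ci ρ ⁻¹' D) := (ARx.ci_cont ρ).measurable hDm
          have h5 : (fun θ => D.indicator (fun _ => (1 : ℝ≥0∞)) (ci ρ θ)) =
              (ci ρ ⁻¹' D).indicator 1 := by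
            funext θ
            by_cases h : ci ρ θ ∈ D
            · rw [indicator_of_mem h, indicator_of_mem (show θ ∈ ci ρ ⁻¹' D from h)]
              rfl
            · rw [indicator_of_notMem h, indicator_of_notMem (show θ ∉ ci ρ ⁻¹' D from h)]
          rw [h5, lintegral_indicator_one hm, Measure.restrict_apply hm, inter_comm]
          rfl
        rw [h4, h3 D hD ρ]
        exact (hT ρ (hr.trans hρ.1.le)).2
    _ = ENNReal.ofReal (b * (R ^ 2 - r ^ 2) / 2) := by
        rw [lintegral_mul_const' _ _ ENNReal.ofReal_ne_top, ARx.lint_id hr0 hrR,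
          ← ENNReal.ofReal_mul (by nlinarith)]
        congr 1
        ring

end Pool.Agent.W5h42.MG
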