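import Pool.Agent.W5h42.MG.Defs3

/-!
# (CH) Chebyshev's inequality on the circle
-/

set_option autoImplicit false

open MeasureTheory Set Filter Topology
open scoped ENNReal ContDiff

namespace Pool.Agent.W5h42.MG

namespace ChP

theorem mono {a b : ℝ} (ha : 0 ≤ a) (hab : a ≤ b) : a / √(1 + a ^ 2) ≤ b / √(1 + b ^ 2) := by
  have hb : 0 ≤ b := ha.trans hab
  have h1 : 0 < √(1 + a ^ 2) := Real.sqrt_pos.2 (by positivity)
  have h2 : 0 < √(1 + b ^ 2) := Real.sqrt_pos.2 (by positivity)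
  rw [div_le_div_iff₀ h1 h2]
  have e1 : a * √(1 + b ^ 2) = √(a ^ 2 * (1 + b ^ 2)) := by
    rw [Real.sqrt_mul (sq_nonneg a), Real.sqrt_sq ha]
  have e2 : b * √(1 + a ^ 2) = √(b ^ 2 * (1 + a ^ 2)) := by
    rw [Real.sqrt_mul (sq_nonneg b), Real.sqrt_sq hb]
  rw [e1, e2]
  apply Real.sqrt_le_sqrt
  nlinarith [mul_nonneg ha (sub_nonneg.2 hab), mul_nonneg hb (sub_nonneg.2 hab)]

theorem G_nonneg (D : Set ℂ) (v : ℂ → ℝ) (z : ℂ) : 0 ≤ G D v z := by
  unfold G
  split_ifs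
  · exact Real.sqrt_nonneg _
  · exact le_rfl

theorem tt_nonneg (D : Set ℂ) (v : ℂ → ℝ) (z : ℂ) : 0 ≤ tt D v z :=
  div_nonneg (G_nonneg D v z) (Real.sqrt_nonneg _)

theorem q_nonneg (D : Set ℂ) (v : ℂ → ℝ) (z : ℂ) : 0 ≤ q D v z :=
  div_nonneg (sq_nonneg _) (Real.sqrt_nonneg _)

theorem q_eq (D : Set ℂ) (v : ℂ → ℝ) (z : ℂ) : q D v z = G D v z * tt D v z := by
  unfold q tt
  ring

theorem cheb (D : Set ℂ) (v : ℂ → ℝ) (z w : ℂ) :
    G D v z * tt D v w + G D v w * tt D v z ≤ q D v z + q D v w := by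
  rw [q_eq, q_eq]
  have key : 0 ≤ (G D v z - G D v w) * (tt D v z - tt D v w) := by
    rcases le_total (G D v z) (G D v w) with h | h
    · have h1 : tt D v z ≤ tt D v w := mono (G_nonneg D v z) h
      exact mul_nonneg_of_nonpos_of_nonpos (by linarith) (by linarith)
    · have h1 : tt D v w ≤ tt D v z := mono (G_nonneg D v w) h
      exact mul_nonneg (by linarith) (by linarith)
  nlinarith

theorem off (D : Set ℂ) (v : ℂ → ℝ) (z : ℂ) (hz : z ∉ D) : G D v z = 0 ∧ tt D v z = 0 := by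
  have h1 : G D v z = 0 := by unfold G; rw [if_neg hz]
  refine ⟨h1, ?_⟩
  unfold tt
  rw [h1, zero_div]

/-- the abstract integrated form -/
theorem integ {X : Type*} [MeasurableSpace X] (m : Measure X) (g h k i : X → ℝ≥0∞)
    (hg : Measurable g) (hh : Measurable h) (hk : Measurable k) (hi : Measurable i)
    (key : ∀ x y, g x * h y + g y * h x ≤ i y * k x + i x * k y) :
    (∫⁻ x, g x ∂m) * (∫⁻ x, h x ∂m) ≤ (∫⁻ x, i x ∂m) * ∫⁻ x, k x ∂m := by
  have h1 : ∀ y, (∫⁻ x, g x ∂m) * h y + g y * (∫⁻ x, h x ∂m) ≤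
      i y * (∫⁻ x, k x ∂m) + (∫⁻ x, i x ∂m) * k y := by
    intro y
    calc (∫⁻ x, g x ∂m) * h y + g y * (∫⁻ x, h x ∂m)
        = ∫⁻ x, (g x * h y + g y * h x) ∂m := by
          rw [lintegral_add_left (hg.mul_const _), lintegral_mul_const _ hg,
            lintegral_const_mul _ hh]
      _ ≤ ∫⁻ x, (i y * k x + i x * k y) ∂m := lintegral_mono fun x => key x y
      _ = _ := by
          rw [lintegral_add_left (hk.const_mul _), lintegral_mul_const _ hi,
            lintegral_const_mul _ hk]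
  have h2 : (∫⁻ x, g x ∂m) * (∫⁻ x, h x ∂m) + (∫⁻ x, g x ∂m) * (∫⁻ x, h x ∂m) ≤
      (∫⁻ x, i x ∂m) * (∫⁻ x, k x ∂m) + (∫⁻ x, i x ∂m) * (∫⁻ x, k x ∂m) := by
    calc _ = ∫⁻ y, ((∫⁻ x, g x ∂m) * h y + g y * (∫⁻ x, h x ∂m)) ∂m := by
          rw [lintegral_add_left (hh.const_mul _), lintegral_const_mul _ hh,
            lintegral_mul_const _ hg]
      _ ≤ ∫⁻ y, (i y * (∫⁻ x, k x ∂m) + (∫⁻ x, i x ∂m) * k y) ∂m := lintegral_mono h1
      _ = _ := by
          rw [lintegral_add_left (hi.mul_const _), lintegral_mul_const _ hi,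
            lintegral_const_mul _ hk]
  rw [← two_mul, ← two_mul] at h2
  exact (ENNReal.mul_le_mul_iff_right (by norm_num) (by norm_num)).1 h2

end ChP

theorem ch (h3 : S_AN) (h4 : S_ME) : S_CH := by
  intro D v hv ρ
  obtain ⟨mG, mq, mt⟩ := h4 D v hv
  have hci : Measurable (ci ρ) := by
    unfold ci
    fun_prop
  have hA : MeasurableSet {θ | ci ρ θ ∈ D} := hci hv.opn.measurableSet
  have hmA : ∫⁻ θ in Ioo (-Real.pi) Real.pi, {θ | ci ρ θ ∈ D}.indicator (fun _ => (1 : ℝ≥0∞)) θ =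
      ang D ρ := by
    rw [lintegral_indicator_const hA, one_mul, Measure.restrict_apply hA, ← h3 D hv.opn ρ]
    congr 1
    ext θ
    exact and_comm
  rw [← hmA]
  apply ChP.integ _ _ _ _ _ (mG.comp hci).ennreal_ofReal (mt.comp hci).ennreal_ofReal
    (mq.comp hci).ennreal_ofReal (measurable_const.indicator hA)
  intro x y
  simp only [Function.comp_apply]
  by_cases hx : ci ρ x ∈ D
  · by_cases hy : ci ρ y ∈ D
    · rw [indicator_of_mem (show x ∈ {θ | ci ρ θ ∈ D} from hx),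
        indicator_of_mem (show y ∈ {θ | ci ρ θ ∈ D} from hy), one_mul, one_mul,
        ← ENNReal.ofReal_mul (ChP.G_nonneg D v _), ← ENNReal.ofReal_mul (ChP.G_nonneg D v _),
        ← ENNReal.ofReal_add
          (mul_nonneg (ChP.G_nonneg D v _) (ChP.tt_nonneg D v _))
          (mul_nonneg (ChP.G_nonneg D v _) (ChP.tt_nonneg D v _)),
        ← ENNReal.ofReal_add (ChP.q_nonneg D v _) (ChP.q_nonneg D v _)]
      exact ENNReal.ofReal_le_ofReal (ChP.cheb D v _ _)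
    · obtain ⟨e1, e2⟩ := ChP.off D v _ hy
      simp [e1, e2]
  · obtain ⟨e1, e2⟩ := ChP.off D v _ hx
    simp [e1, e2]

end Pool.Agent.W5h42.MG
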