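import Pool.Agent.W5h42.MG.Defs3

/-!
# (CO) cutoff with small slope
-/

set_option autoImplicit false

open MeasureTheory Set Filter Topology
open scoped ENNReal ContDiff

namespace Pool.Agent.W5h42.MG

namespace CoA

/-- the trapezoid -/
noncomputable def h0 (r R a x : ℝ) : ℝ := max 0 (min 1 (min ((x - r) / a) ((R - x) / a)))

theorem h0_cont (r R a : ℝ) : Continuous (h0 r R a) := by
  unfold h0
  exact continuous_const.max (continuous_const.min
    (((continuous_id.sub continuous_const).div_const a).min ((continuous_const.sub continuous_id).div_const a)))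

theorem h0_nonneg (r R a x : ℝ) : 0 ≤ h0 r R a x := le_max_left _ _

theorem h0_le (r R a x : ℝ) : h0 r R a x ≤ 1 := max_le zero_le_one (min_le_left _ _)

theorem h0_left {r R a x : ℝ} (ha : 0 < a) (hx : x ≤ r) : h0 r R a x = 0 := by
  unfold h0
  refine max_eq_left ?_
  refine (min_le_right _ _).trans ((min_le_left _ _).trans ?_)
  exact div_nonpos_of_nonpos_of_nonneg (by linarith) ha.le

theorem h0_right {r R a x : ℝ} (ha : 0 < a) (hx : R ≤ x) : h0 r R a x = 0 := by
  unfold h0
  refine max_eq_left ?_
  refine (min_le_right _ _).trans ((min_le_right _ _).trans ?_)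
  exact div_nonpos_of_nonpos_of_nonneg (by linarith) ha.le

theorem h0_mid {r R a x : ℝ} (ha : 0 < a) (h1 : r + a ≤ x) (h2 : x ≤ R - a) : h0 r R a x = 1 := by
  unfold h0
  have h3 : 1 ≤ (x - r) / a := by rw [le_div_iff₀ ha]; linarith
  have h4 : 1 ≤ (R - x) / a := by rw [le_div_iff₀ ha]; linarith
  rw [min_eq_left (le_min h3 h4), max_eq_right zero_le_one]

theorem int_ge {r R a : ℝ} (ha : 0 < a) (h : 2 * a ≤ R - r) :
    R - r - 2 * a ≤ ∫ t in r..R, h0 r R a t := by
  have h1 : (∫ t in (r + a)..(R - a), h0 r R a t) = R - r - 2 * a := by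
    have h2 : (∫ t in (r + a)..(R - a), h0 r R a t) = ∫ t in (r + a)..(R - a), (1 : ℝ) := by
      refine intervalIntegral.integral_congr fun t ht => ?_
      rw [uIcc_of_le (by linarith)] at ht
      exact h0_mid ha ht.1 ht.2
    rw [h2, intervalIntegral.integral_const, smul_eq_mul, mul_one]
    ring
  rw [← h1]
  exact intervalIntegral.integral_mono_interval (by linarith) (by linarith) (by linarith)
    (Eventually.of_forall fun t => h0_nonneg r R a t) ((h0_cont r R a).intervalIntegrable _ _)

end CoA

open CoA

/-- (CO) -/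
theorem co : S_CO := by
  intro r R c hrR hc
  have hd : 0 < R - r := by linarith
  have hc0 : 0 < c := by linarith
  set a : ℝ := (R - r) * (1 - 1 / c) / 2 with ha_def
  have hc1 : 1 / c < 1 := by rw [div_lt_one hc0]; exact hc
  have ha : 0 < a := by
    rw [ha_def]
    have : 0 < 1 - 1 / c := by linarith
    positivity
  have h2a : R - r - 2 * a = (R - r) / c := by
    rw [ha_def]
    field_simp
    ring
  have hdc : 0 < (R - r) / c := div_pos hd hc0
  set I : ℝ := ∫ t in r..R, h0 r R a t with hI
  have hIge : (R - r) / c ≤ I := by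
    rw [← h2a]
    exact int_ge ha (by linarith)
  have hIpos : 0 < I := hdc.trans_le hIge
  set η : ℝ → ℝ := fun x => 1 - (∫ t in r..x, h0 r R a t) / I with hη
  have hder : ∀ x, HasDerivAt η (-(h0 r R a x / I)) x := by
    intro x
    have h1 : HasDerivAt (fun u => ∫ t in r..u, h0 r R a t) (h0 r R a x) x :=
      ((h0_cont r R a).integral_hasStrictDerivAt r x).hasDerivAt
    have h2 := (h1.div_const I).const_sub 1
    exact h2
  have hderiv : deriv η = fun x => -(h0 r R a x / I) := funext fun x => (hder x).deriv
  refine ⟨η, ?_, ?_, ?_, ?_, ?_⟩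
  · rw [contDiff_one_iff_deriv]
    refine ⟨fun x => (hder x).differentiableAt, ?_⟩
    rw [hderiv]
    exact ((h0_cont r R a).div_const I).neg
  · refine antitone_of_deriv_nonpos (fun x => (hder x).differentiableAt) fun x => ?_
    rw [hderiv]
    have := div_nonneg (h0_nonneg r R a x) hIpos.le
    simpa using this
  · intro x hx
    have h1 : ∫ t in r..x, h0 r R a t = 0 := by
      have h2 : ∫ t in r..x, h0 r R a t = ∫ t in r..x, (0 : ℝ) := by
        refine intervalIntegral.integral_congr fun t ht => ?_
        rw [uIcc_of_ge hx] at ht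
        exact h0_left ha ht.2
      rw [h2, intervalIntegral.integral_zero]
    simp only [hη, h1, zero_div, sub_zero]
  · intro x hx
    have h1 : ∫ t in R..x, h0 r R a t = 0 := by
      have h2 : ∫ t in R..x, h0 r R a t = ∫ t in R..x, (0 : ℝ) := by
        refine intervalIntegral.integral_congr fun t ht => ?_
        rw [uIcc_of_le hx] at ht
        exact h0_right ha ht.1
      rw [h2, intervalIntegral.integral_zero]
    have h3 : ∫ t in r..x, h0 r R a t = I := by
      rw [← intervalIntegral.integral_add_adjacent_intervals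
        ((h0_cont r R a).intervalIntegrable r R) ((h0_cont r R a).intervalIntegrable R x), h1, add_zero]
    simp only [hη, h3, div_self hIpos.ne', sub_self]
  · intro x
    rw [hderiv]
    simp only [neg_neg]
    calc h0 r R a x / I ≤ 1 / I := div_le_div_of_nonneg_right (h0_le r R a x) hIpos.le
      _ ≤ 1 / ((R - r) / c) := one_div_le_one_div_of_le hdc hIge
      _ = c / (R - r) := one_div_div _ _

end Pool.Agent.W5h42.MG
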