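import Pool.Agent.W5h42.MG.Defs

/-! (CUT) truncation of an extended solution (for MP_714120_an). -/

set_option autoImplicit false

open MeasureTheory Set Filter Topology
open scoped ENNReal ContDiff

namespace Pool.Agent.W5h42.MG

theorem cut : S_CUT := by
  intro D v hv g δ hδ hg hg0
  have hoff : ∀ z, z ∉ D → (fun z => g (v z)) =ᶠ[𝓝 z] fun _ => (0 : ℝ) := by
    intro z hz
    have h1 : v z < δ := by rw [hv.zero z hz]; exact hδ
    filter_upwards [hv.cont.continuousAt.eventually_lt_const h1] with w hw
    exact hg0 _ hw.le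
  have hin : ∀ z ∈ D, ContDiffAt ℝ 2 v z := fun z hz =>
    hv.smooth.contDiffAt (hv.opn.mem_nhds hz)
  refine ⟨?_, ?_, ?_, ?_⟩
  · rw [contDiff_iff_contDiffAt]
    intro z
    by_cases hz : z ∈ D
    · have h1 : ContDiffAt ℝ 2 (fun z => g (v z)) z := hg.contDiffAt.comp z (hin z hz)
      exact h1.of_le (by norm_num)
    · exact contDiffAt_const.congr_of_eventuallyEq (hoff z hz)
  · intro z hz
    have h1 : DifferentiableAt ℝ v z := (hin z hz).differentiableAt (by norm_num)
    have h2 : DifferentiableAt ℝ g (v z) := hg.differentiable (by norm_num) _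
    exact (h2.hasDerivAt.comp_hasFDerivAt z h1.hasFDerivAt).fderiv
  · intro z hz
    rw [(hoff z hz).fderiv_eq]
    simp
  · refine closure_minimal ?_ (isClosed_le continuous_const hv.cont)
    intro z hz
    by_contra h
    have h' : v z < δ := not_le.1 h
    exact hz (hg0 _ h'.le)

end Pool.Agent.W5h42.MG
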