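import Pool.Agent.W5h42.MG.Defs

/-!
# Minimal graphs: variation on a circle (CV) (MP_714120_an)
-/

set_option autoImplicit false

open MeasureTheory Set Filter Topology
open scoped ENNReal ContDiff

namespace Pool.Agent.W5h42.MG

namespace CV

/-- The cutoff. -/
theorem exists_g (H δ : ℝ) (hδ : 0 < δ) (hH : 3 * δ < H) : ∃ g : ℝ → ℝ, ContDiff ℝ 2 g ∧
    (∀ x ≤ δ, g x = 0) ∧ (∀ x, 0 ≤ deriv g x ∧ deriv g x ≤ 1) ∧
    (∀ x, H ≤ x → deriv g x = 0) ∧ (∀ x, H ≤ x → H - 3 * δ ≤ g x) := by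
  set χ : ℝ → ℝ := fun t => Real.smoothTransition ((t - δ) / δ) *
    Real.smoothTransition ((H - t) / δ) with hχ
  have hχs : ContDiff ℝ 1 χ := by
    apply ContDiff.mul
    · exact Real.smoothTransition.contDiff.comp ((contDiff_id.sub contDiff_const).div_const _)
    · exact Real.smoothTransition.contDiff.comp ((contDiff_const.sub contDiff_id).div_const _)
  have hχc : Continuous χ := hχs.continuous
  have hχ0 : ∀ t, 0 ≤ χ t := fun t =>
    mul_nonneg (Real.smoothTransition.nonneg _) (Real.smoothTransition.nonneg _)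
  have hχ1 : ∀ t, χ t ≤ 1 := fun t =>
    mul_le_one₀ (Real.smoothTransition.le_one _) (Real.smoothTransition.nonneg _)
      (Real.smoothTransition.le_one _)
  have hχl : ∀ t ≤ δ, χ t = 0 := by
    intro t ht
    have h1 : (t - δ) / δ ≤ 0 := div_nonpos_of_nonpos_of_nonneg (by linarith) hδ.le
    simp only [hχ]
    rw [Real.smoothTransition.zero_of_nonpos h1, zero_mul]
  have hχr : ∀ t, H ≤ t → χ t = 0 := by
    intro t ht
    have h1 : (H - t) / δ ≤ 0 := div_nonpos_of_nonpos_of_nonneg (by linarith) hδ.le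
    simp only [hχ]
    rw [Real.smoothTransition.zero_of_nonpos h1, mul_zero]
  have hχm : ∀ t, 2 * δ ≤ t → t ≤ H - δ → χ t = 1 := by
    intro t ht1 ht2
    have h1 : 1 ≤ (t - δ) / δ := by rw [le_div_iff₀ hδ]; linarith
    have h2 : 1 ≤ (H - t) / δ := by rw [le_div_iff₀ hδ]; linarith
    simp only [hχ]
    rw [Real.smoothTransition.one_of_one_le h1, Real.smoothTransition.one_of_one_le h2, mul_one]
  set g : ℝ → ℝ := fun x => ∫ t in (0:ℝ)..x, χ t with hg
  have hd : ∀ x, HasDerivAt g (χ x) x := fun x =>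
    (hχc.integral_hasStrictDerivAt 0 x).hasDerivAt
  have hder : deriv g = χ := funext fun x => (hd x).deriv
  refine ⟨g, ?_, ?_, ?_, ?_, ?_⟩
  · have h2 : ContDiff ℝ (1 + 1) g := by
      rw [contDiff_succ_iff_deriv]
      refine ⟨fun x => (hd x).differentiableAt, by simp, ?_⟩
      rw [hder]; exact hχs
    exact h2.of_le (by norm_num)
  · intro x hx
    have h1 : ∫ t in (0:ℝ)..x, χ t = ∫ t in (0:ℝ)..x, (0:ℝ) := by
      apply intervalIntegral.integral_congr
      intro t ht
      apply hχl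
      rw [mem_uIcc] at ht
      rcases ht with h | h
      · linarith [h.2]
      · linarith [h.2]
    simp only [hg]
    rw [h1]; simp
  · intro x; rw [hder]; exact ⟨hχ0 x, hχ1 x⟩
  · intro x hx; rw [hder]; exact hχr x hx
  · intro x hx
    have h1 : ∫ t in (2 * δ)..(H - δ), χ t = ∫ t in (2 * δ)..(H - δ), (1:ℝ) := by
      apply intervalIntegral.integral_congr
      intro t ht
      rw [uIcc_of_le (by linarith)] at ht
      exact hχm t ht.1 ht.2
    have h2 : ∫ t in (2 * δ)..(H - δ), χ t ≤ ∫ t in (0:ℝ)..x, χ t := by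
      apply intervalIntegral.integral_mono_interval
      · linarith
      · linarith
      · linarith
      · exact Eventually.of_forall hχ0
      · exact hχc.intervalIntegrable _ _
    rw [h1] at h2
    simp only [intervalIntegral.integral_const, smul_eq_mul, mul_one] at h2
    simp only [hg]
    linarith

/-- Variation of a periodic function. -/
theorem var (w w' : ℝ → ℝ) (hw : ∀ θ, HasDerivAt w (w' θ) θ) (hc : Continuous w')
    (hp : Function.Periodic w (2 * Real.pi)) (hp' : Function.Periodic w' (2 * Real.pi))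
    (a b : ℝ) : 2 * (w b - w a) ≤ ∫ θ in (-Real.pi)..Real.pi, |w' θ| := by
  set b' := toIcoMod Real.two_pi_pos a b with hb'
  have h1 : w b' = w b := by
    rw [hb', toIcoMod]
    exact hp.sub_zsmul_eq _
  have h2 : b' ∈ Ico a (a + 2 * Real.pi) := toIcoMod_mem_Ico _ _ _
  have hpa : Function.Periodic (fun θ => |w' θ|) (2 * Real.pi) := fun θ => by
    simp only [hp' θ]
  have h3 := hpa.intervalIntegral_add_eq (-Real.pi) a
  have h4 : -Real.pi + 2 * Real.pi = Real.pi := by ring
  rw [h4] at h3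
  rw [h3]
  have hca : Continuous fun θ => |w' θ| := hc.abs
  rw [← intervalIntegral.integral_add_adjacent_intervals (hca.intervalIntegrable a b')
    (hca.intervalIntegrable b' (a + 2 * Real.pi))]
  have h5 : |w b' - w a| ≤ ∫ θ in a..b', |w' θ| := by
    rw [← intervalIntegral.integral_eq_sub_of_hasDerivAt (fun x _ => hw x)
      (hc.intervalIntegrable a b')]
    exact intervalIntegral.abs_integral_le_integral_abs h2.1
  have h6 : |w (a + 2 * Real.pi) - w b'| ≤ ∫ θ in b'..(a + 2 * Real.pi), |w' θ| := by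
    rw [← intervalIntegral.integral_eq_sub_of_hasDerivAt (fun x _ => hw x)
      (hc.intervalIntegrable b' _)]
    exact intervalIntegral.abs_integral_le_integral_abs h2.2.le
  rw [hp a] at h6
  have h7 := le_abs_self (w b' - w a)
  have h8 := neg_abs_le (w a - w b')
  rw [h1] at *
  linarith

theorem ci_periodic (ρ : ℝ) : Function.Periodic (ci ρ) (2 * Real.pi) := by
  intro θ
  simp only [ci]
  congr 1
  have h1 : ((θ + 2 * Real.pi : ℝ) : ℂ) * Complex.I = (θ : ℂ) * Complex.I +
      2 * Real.pi * Complex.I := by push_cast; ring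
  rw [h1, Complex.exp_periodic]

theorem ci_hasDerivAt (ρ θ : ℝ) : HasDerivAt (ci ρ) (Complex.I * ci ρ θ) θ := by
  have h1 : HasDerivAt (fun θ : ℝ => (θ : ℂ) * Complex.I) (1 * Complex.I) θ :=
    (Complex.ofRealCLM.hasDerivAt (x := θ)).mul_const Complex.I
  have h2 := (h1.cexp).const_mul (ρ : ℂ)
  refine h2.congr_deriv ?_
  simp only [ci]; ring

theorem norm_ci (ρ θ : ℝ) (hρ : 0 ≤ ρ) : ‖ci ρ θ‖ = ρ := by
  rw [ci, norm_mul, Complex.norm_exp_ofReal_mul_I, mul_one, Complex.norm_real, Real.norm_eq_abs,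
    abs_of_nonneg hρ]

theorem exists_ci (z : ℂ) : ∃ θ, z = ci ‖z‖ θ :=
  ⟨Complex.arg z, (Complex.norm_mul_exp_arg_mul_I z).symm⟩

/-- The tangential derivative is bounded by the gradient. -/
theorem tang (v : ℂ → ℝ) (z : ℂ) :
    |fderiv ℝ v z (Complex.I * z)| ≤ ‖z‖ * √(px v z ^ 2 + py v z ^ 2) := by
  have h1 : Complex.I * z = (-z.im) • (1 : ℂ) + z.re • Complex.I := by
    apply Complex.ext <;> simp
  have h2 : fderiv ℝ v z (Complex.I * z) = -z.im * px v z + z.re * py v z := by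
    rw [h1, map_add, map_smul, map_smul]; rfl
  have h3 : ‖z‖ = √(z.re ^ 2 + z.im ^ 2) := by
    have h4 : z.re ^ 2 + z.im ^ 2 = ‖z‖ ^ 2 := by
      rw [← Complex.normSq_eq_norm_sq, Complex.normSq_apply]; ring
    rw [h4]
    exact (Real.sqrt_sq (norm_nonneg z)).symm
  rw [h2, h3, ← Real.sqrt_mul (by positivity)]
  apply Real.abs_le_sqrt
  nlinarith [sq_nonneg (z.im * py v z + z.re * px v z)]

end CV

/-- (CV) -/
theorem cv (h1 : S_CUT) : S_CV := by
  intro D v hE ρ hρ hD z₀ hz₀ H hH hHv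
  obtain ⟨z₁, hz₁, hz₁D⟩ := hD
  have key : ∀ δ : ℝ, 0 < δ → 3 * δ < H → ENNReal.ofReal (2 * (H - 3 * δ)) ≤
      ∫⁻ θ in Ioo (-Real.pi) Real.pi,
        ENNReal.ofReal (ρ * {z | v z < H}.indicator (G D v) (ci ρ θ)) := by
    intro δ hδ hδH
    obtain ⟨g, hg2, hg0, hgd, hgr, hgH⟩ := CV.exists_g H δ hδ hδH
    obtain ⟨hF, hFD, hFn, -⟩ := h1 D v hE g δ hδ hg2 hg0
    obtain ⟨θ₀, hθ₀⟩ := CV.exists_ci z₀
    obtain ⟨θ₁, hθ₁⟩ := CV.exists_ci z₁
    rw [hz₀] at hθ₀
    rw [hz₁] at hθ₁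
    set F : ℂ → ℝ := fun z => g (v z) with hFdef
    set w : ℝ → ℝ := fun θ => F (ci ρ θ) with hw
    set w' : ℝ → ℝ := fun θ => fderiv ℝ F (ci ρ θ) (Complex.I * ci ρ θ) with hw'
    have hcc : Continuous (ci ρ) :=
      continuous_iff_continuousAt.2 fun θ => (CV.ci_hasDerivAt ρ θ).continuousAt
    have hwd : ∀ θ, HasDerivAt w (w' θ) θ := fun θ =>
      ((hF.differentiable one_ne_zero (ci ρ θ)).hasFDerivAt).comp_hasDerivAt θ
        (CV.ci_hasDerivAt ρ θ)
    have hwc : Continuous w' :=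
      ((hF.continuous_fderiv one_ne_zero).comp hcc).clm_apply (continuous_const.mul hcc)
    have hwp : Function.Periodic w (2 * Real.pi) := fun θ => by
      simp only [hw, CV.ci_periodic ρ θ]
    have hwp' : Function.Periodic w' (2 * Real.pi) := fun θ => by
      simp only [hw', CV.ci_periodic ρ θ]
    have h2 := CV.var w w' hwd hwc hwp hwp' θ₁ θ₀
    have h3 : w θ₁ = 0 := by
      simp only [hw, hFdef]
      rw [← hθ₁, hE.zero z₁ hz₁D]
      exact hg0 0 hδ.le
    have h4 : H - 3 * δ ≤ w θ₀ := by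
      simp only [hw, hFdef]
      rw [← hθ₀]
      exact hgH _ hHv
    have hb : ∀ θ, |w' θ| ≤ ρ * {z | v z < H}.indicator (G D v) (ci ρ θ) := by
      intro θ
      have hG0 : ∀ z, 0 ≤ G D v z := by
        intro z
        rw [G]
        split_ifs
        · exact Real.sqrt_nonneg _
        · exact le_rfl
      have hI0 : 0 ≤ ρ * {z | v z < H}.indicator (G D v) (ci ρ θ) :=
        mul_nonneg hρ.le (indicator_nonneg (fun z _ => hG0 z) _)
      by_cases hz : ci ρ θ ∈ D
      · have h5 : w' θ = deriv g (v (ci ρ θ)) * fderiv ℝ v (ci ρ θ) (Complex.I * ci ρ θ) := by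
          simp only [hw']
          rw [hFD _ hz]; rfl
        rw [h5, abs_mul]
        by_cases hv : v (ci ρ θ) < H
        · rw [indicator_of_mem (show ci ρ θ ∈ {z | v z < H} from hv), G, if_pos hz]
          have h6 := CV.tang v (ci ρ θ)
          rw [CV.norm_ci ρ θ hρ.le] at h6
          have h7 := hgd (v (ci ρ θ))
          rw [abs_of_nonneg h7.1]
          calc deriv g (v (ci ρ θ)) * |fderiv ℝ v (ci ρ θ) (Complex.I * ci ρ θ)|
              ≤ 1 * |fderiv ℝ v (ci ρ θ) (Complex.I * ci ρ θ)| :=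
                mul_le_mul_of_nonneg_right h7.2 (abs_nonneg _)
            _ = |fderiv ℝ v (ci ρ θ) (Complex.I * ci ρ θ)| := one_mul _
            _ ≤ _ := h6
        · rw [hgr _ (not_lt.1 hv), abs_zero, zero_mul]
          exact hI0
      · have h5 : w' θ = 0 := by
          simp only [hw']
          rw [hFn _ hz]; rfl
        rw [h5, abs_zero]
        exact hI0
    have h5 : ∫ θ in (-Real.pi)..Real.pi, |w' θ| = ∫ θ in Ioo (-Real.pi) Real.pi, |w' θ| := by
      rw [intervalIntegral.integral_of_le (by linarith [Real.pi_pos]), integral_Ioc_eq_integral_Ioo]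
    have h6 : IntegrableOn (fun θ => |w' θ|) (Ioo (-Real.pi) Real.pi) :=
      (hwc.abs.integrableOn_Icc (a := -Real.pi) (b := Real.pi)).mono_set Ioo_subset_Icc_self
    calc ENNReal.ofReal (2 * (H - 3 * δ)) ≤ ENNReal.ofReal (∫ θ in Ioo (-Real.pi) Real.pi, |w' θ|) := by
          apply ENNReal.ofReal_le_ofReal
          rw [← h5]
          linarith
      _ = ∫⁻ θ in Ioo (-Real.pi) Real.pi, ENNReal.ofReal |w' θ| :=
          ofReal_integral_eq_lintegral_ofReal h6 (Eventually.of_forall fun θ => abs_nonneg _)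
      _ ≤ _ := lintegral_mono fun θ => ENNReal.ofReal_le_ofReal (hb θ)
  have ht : Tendsto (fun δ : ℝ => ENNReal.ofReal (2 * (H - 3 * δ))) (𝓝[>] 0)
      (𝓝 (ENNReal.ofReal (2 * H))) := by
    have h2 : Tendsto (fun δ : ℝ => 2 * (H - 3 * δ)) (𝓝 0) (𝓝 (2 * (H - 3 * 0))) :=
      (Continuous.tendsto (by fun_prop) 0)
    have h3 := (ENNReal.tendsto_ofReal h2).mono_left (nhdsWithin_le_nhds (s := Ioi 0))
    simpa using h3
  refine le_of_tendsto ht ?_
  have h4 : ∀ᶠ δ : ℝ in 𝓝[>] 0, δ < H / 3 :=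
    nhdsWithin_le_nhds (Iio_mem_nhds (by linarith))
  filter_upwards [h4, self_mem_nhdsWithin] with δ hδ hδ0
  exact key δ hδ0 (by linarith)

end Pool.Agent.W5h42.MG
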