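import Pool.Agent.W5h42.MG.Defs3

/-!
# MP_714120_an, piece (GR): growth of the energy
-/

set_option autoImplicit false

open MeasureTheory Set Filter Topology
open scoped ENNReal ContDiff

namespace Pool.Agent.W5h42.MG

namespace GRH

lemma norm_ci {ρ : ℝ} (hρ : 0 ≤ ρ) (θ : ℝ) : ‖ci ρ θ‖ = ρ := by
  unfold ci
  rw [norm_mul, Complex.norm_real, Complex.norm_exp_ofReal_mul_I, mul_one,
    Real.norm_of_nonneg hρ]

lemma continuous_ci (ρ : ℝ) : Continuous (ci ρ) := by
  unfold ci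
  fun_prop

lemma v_nonneg {D : Set ℂ} {v : ℂ → ℝ} (hE : Ext D v) (z : ℂ) : 0 ≤ v z := by
  by_cases hz : z ∈ D
  · exact (hE.pos z hz).le
  · rw [hE.zero z hz]

lemma G_nonneg (D : Set ℂ) (v : ℂ → ℝ) (z : ℂ) : 0 ≤ G D v z := by
  unfold G
  split_ifs
  · exact Real.sqrt_nonneg _
  · exact le_rfl

lemma tt_nonneg (D : Set ℂ) (v : ℂ → ℝ) (z : ℂ) : 0 ≤ tt D v z := by
  unfold tt
  have := G_nonneg D v z
  positivity

lemma aux (h1 : S_EN) (h2 : S_CV) (h3 : S_PO) (h5 : S_ME) (h6 : S_CH) (h7 : S_CO)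
    {D : Set ℂ} {v : ℂ → ℝ} (hE : Ext D v) {b r₀ : ℝ} (hb : 0 ≤ b) (hr₀ : 0 < r₀)
    (hT : Thin D b r₀) {r R c : ℝ} (hr : r₀ ≤ r) (hR : r < R) (hc : 1 < c) :
    ∫⁻ z in {z : ℂ | ‖z‖ < r}, ENNReal.ofReal (q D v z) ≤
      ENNReal.ofReal (c * (b * R / (2 * (R - r)))) *
        ∫⁻ z in {z : ℂ | r < ‖z‖ ∧ ‖z‖ < R}, ENNReal.ofReal (q D v z) := by
  have hrpos : 0 < r := hr₀.trans_le hr
  have hR0 : 0 < R := hrpos.trans hR
  have hRr : 0 < R - r := by linarith
  have hc0 : 0 < c := by linarith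
  obtain ⟨hGm, hqm, httm⟩ := h5 D v hE
  obtain ⟨M, hM⟩ := (isCompact_closedBall (0:ℂ) R).exists_bound_of_continuousOn
    hE.cont.continuousOn
  set H : ℝ := max M 0 + 1 with hH
  have hH0 : 0 < H := by
    have := le_max_right M 0
    linarith
  have hvH : ∀ z : ℂ, ‖z‖ ≤ R → v z < H := by
    intro z hz
    have h := hM z (by rw [mem_closedBall_zero_iff]; exact hz)
    have h' := (Real.le_norm_self (v z)).trans h
    have := le_max_left M 0
    linarith
  obtain ⟨η, hη, hanti, hη1, hη0, hηc⟩ := h7 r R c hR hc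
  have hdc : Continuous (deriv η) := hη.continuous_deriv (by norm_num)
  have hle1 : ∀ x, η x ≤ 1 := by
    intro x
    rcases le_total x r with h | h
    · exact (hη1 x h).le
    · exact (hanti h).trans (hη1 r le_rfl).le
  have hge0 : ∀ x, 0 ≤ η x := by
    intro x
    rcases le_total x R with h | h
    · exact (hη0 R le_rfl).ge.trans (hanti h)
    · exact (hη0 x h).ge
  have hd0 : ∀ x, 0 ≤ -(deriv η x) := by
    intro x
    have := Antitone.deriv_nonpos hanti (x := x)
    linarith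
  have hdr : ∀ x ≤ r, deriv η x = 0 := fun x hx =>
    IsLocalMax.deriv_eq_zero (Eventually.of_forall fun y => by rw [hη1 x hx]; exact hle1 y)
  have hdR : ∀ x, R ≤ x → deriv η x = 0 := fun x hx =>
    IsLocalMin.deriv_eq_zero (Eventually.of_forall fun y => by rw [hη0 x hx]; exact hge0 y)
  have hen := h1 D v hE η r R hrpos hR hη hanti hη1 hη0 H hH0
  have hL : ∫⁻ z in {z : ℂ | ‖z‖ < r}, ENNReal.ofReal (q D v z) ≤
      ∫⁻ z, ENNReal.ofReal (η ‖z‖ * {z | v z < H}.indicator (q D v) z) := by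
    have hm : MeasurableSet {z : ℂ | ‖z‖ < r} := measurableSet_lt measurable_norm measurable_const
    rw [← lintegral_indicator hm]
    refine lintegral_mono fun z => ?_
    by_cases hz : z ∈ {z : ℂ | ‖z‖ < r}
    · have hz' : ‖z‖ < r := hz
      have hzH : z ∈ {z | v z < H} := hvH z (hz'.le.trans hR.le)
      rw [indicator_of_mem hz, hη1 _ hz'.le, one_mul, indicator_of_mem hzH]
    · rw [indicator_of_notMem hz]
      exact zero_le
  set F : ℂ → ℝ≥0∞ := fun z => ENNReal.ofReal (-(deriv η ‖z‖)) *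
    (ENNReal.ofReal (v z) * ENNReal.ofReal (tt D v z)) with hF
  have hFm : Measurable F :=
    ((hdc.comp continuous_norm).neg.measurable.ennreal_ofReal).mul
      (hE.cont.measurable.ennreal_ofReal.mul httm.ennreal_ofReal)
  have hRle : ∫⁻ z, ENNReal.ofReal (-(deriv η ‖z‖) * min (v z) H * tt D v z) ≤
      ∫⁻ z in {z : ℂ | r < ‖z‖ ∧ ‖z‖ < R}, F z := by
    have hm : MeasurableSet {z : ℂ | r < ‖z‖ ∧ ‖z‖ < R} :=
      (measurableSet_lt measurable_const measurable_norm).inter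
        (measurableSet_lt measurable_norm measurable_const)
    rw [← lintegral_indicator hm]
    refine lintegral_mono fun z => ?_
    by_cases hz : z ∈ {z : ℂ | r < ‖z‖ ∧ ‖z‖ < R}
    · rw [indicator_of_mem hz, hF]
      simp only
      rw [← ENNReal.ofReal_mul (v_nonneg hE z), ← ENNReal.ofReal_mul (hd0 _)]
      apply ENNReal.ofReal_le_ofReal
      have hm1 : min (v z) H ≤ v z := min_le_left _ _
      have ht := tt_nonneg D v z
      have hd := hd0 ‖z‖
      calc -(deriv η ‖z‖) * min (v z) H * tt D v z ≤ -(deriv η ‖z‖) * v z * tt D v z := by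
            gcongr
        _ = -(deriv η ‖z‖) * (v z * tt D v z) := by ring
    · rw [indicator_of_notMem hz]
      have h0 : deriv η ‖z‖ = 0 := by
        by_contra hne
        apply hz
        refine ⟨?_, ?_⟩
        · by_contra hcon
          exact hne (hdr _ (not_lt.1 hcon))
        · by_contra hcon
          exact hne (hdR _ (not_lt.1 hcon))
      rw [h0]
      simp
  have hpol := h3 F hFm r R hrpos.le
  have hpolq := h3 (fun z => ENNReal.ofReal (q D v z)) hqm.ennreal_ofReal r R hrpos.le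
  have hin : ∀ ρ ∈ Ioo r R, ∫⁻ θ in Ioo (-Real.pi) Real.pi, ENNReal.ofReal ρ * F (ci ρ θ) ≤
      ENNReal.ofReal (c * (b * R / (2 * (R - r)))) *
        ∫⁻ θ in Ioo (-Real.pi) Real.pi, ENNReal.ofReal ρ * ENNReal.ofReal (q D v (ci ρ θ)) := by
    intro ρ hρ
    have hρ0 : 0 < ρ := hrpos.trans hρ.1
    have hTρ := hT ρ (hr.trans hρ.1.le)
    set IG := ∫⁻ θ in Ioo (-Real.pi) Real.pi, ENNReal.ofReal (G D v (ci ρ θ)) with hIG
    set IT := ∫⁻ θ in Ioo (-Real.pi) Real.pi, ENNReal.ofReal (tt D v (ci ρ θ)) with hIT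
    set IQ := ∫⁻ θ in Ioo (-Real.pi) Real.pi, ENNReal.ofReal (q D v (ci ρ θ)) with hIQ
    have hch : IG * IT ≤ ang D ρ * IQ := h6 D v hE ρ
    have hv : ∀ θ, ENNReal.ofReal (v (ci ρ θ)) ≤ ENNReal.ofReal (R / 2) * IG := by
      intro θ
      rcases (v_nonneg hE (ci ρ θ)).eq_or_lt with h0 | hpos
      · rw [← h0, ENNReal.ofReal_zero]
        exact zero_le
      · have hcv := h2 D v hE ρ hρ0 hTρ.1 (ci ρ θ) (norm_ci hρ0.le θ) (v (ci ρ θ)) hpos le_rfl
        have hle : ∫⁻ φ in Ioo (-Real.pi) Real.pi, ENNReal.ofReal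
            (ρ * {z | v z < v (ci ρ θ)}.indicator (G D v) (ci ρ φ)) ≤ ENNReal.ofReal R * IG := by
          rw [hIG, ← lintegral_const_mul' _ _ ENNReal.ofReal_ne_top]
          refine lintegral_mono fun φ => ?_
          simp only
          rw [← ENNReal.ofReal_mul hR0.le]
          apply ENNReal.ofReal_le_ofReal
          have h8 : {z | v z < v (ci ρ θ)}.indicator (G D v) (ci ρ φ) ≤ G D v (ci ρ φ) :=
            indicator_le_self' (fun _ _ => G_nonneg _ _ _) _
          have h9 := G_nonneg D v (ci ρ φ)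
          calc ρ * {z | v z < v (ci ρ θ)}.indicator (G D v) (ci ρ φ)
              ≤ ρ * G D v (ci ρ φ) := by gcongr
            _ ≤ R * G D v (ci ρ φ) := by
                have := hρ.2.le
                gcongr
        have e : ENNReal.ofReal (v (ci ρ θ)) =
            ENNReal.ofReal (1 / 2) * ENNReal.ofReal (2 * v (ci ρ θ)) := by
          rw [← ENNReal.ofReal_mul (by norm_num)]
          congr 1
          ring
        rw [e]
        calc ENNReal.ofReal (1 / 2) * ENNReal.ofReal (2 * v (ci ρ θ))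
            ≤ ENNReal.ofReal (1 / 2) * (ENNReal.ofReal R * IG) := by
              gcongr
              exact hcv.trans hle
          _ = ENNReal.ofReal (R / 2) * IG := by
              rw [← mul_assoc, ← ENNReal.ofReal_mul (by norm_num)]
              congr 2
              ring
    have hpt : ∀ θ, ENNReal.ofReal ρ * F (ci ρ θ) ≤
        (ENNReal.ofReal ρ * (ENNReal.ofReal (c / (R - r)) * (ENNReal.ofReal (R / 2) * IG))) *
          ENNReal.ofReal (tt D v (ci ρ θ)) := by
      intro θ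
      rw [hF]
      simp only [norm_ci hρ0.le]
      calc ENNReal.ofReal ρ * (ENNReal.ofReal (-(deriv η ρ)) *
            (ENNReal.ofReal (v (ci ρ θ)) * ENNReal.ofReal (tt D v (ci ρ θ))))
          ≤ ENNReal.ofReal ρ * (ENNReal.ofReal (c / (R - r)) *
            ((ENNReal.ofReal (R / 2) * IG) * ENNReal.ofReal (tt D v (ci ρ θ)))) := by
            gcongr
            · exact hηc ρ
            · exact hv θ
        _ = _ := by ring
    have hch2 : IG * IT ≤ ENNReal.ofReal b * IQ := hch.trans (mul_le_mul' hTρ.2 le_rfl)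
    have httc : Measurable fun θ => ENNReal.ofReal (tt D v (ci ρ θ)) :=
      (httm.comp (continuous_ci ρ).measurable).ennreal_ofReal
    calc ∫⁻ θ in Ioo (-Real.pi) Real.pi, ENNReal.ofReal ρ * F (ci ρ θ)
        ≤ ∫⁻ θ in Ioo (-Real.pi) Real.pi,
          (ENNReal.ofReal ρ * (ENNReal.ofReal (c / (R - r)) * (ENNReal.ofReal (R / 2) * IG))) *
            ENNReal.ofReal (tt D v (ci ρ θ)) := lintegral_mono hpt
      _ = (ENNReal.ofReal ρ * (ENNReal.ofReal (c / (R - r)) * (ENNReal.ofReal (R / 2) * IG))) *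
            IT := lintegral_const_mul _ httc
      _ = (ENNReal.ofReal ρ * (ENNReal.ofReal (c / (R - r)) * ENNReal.ofReal (R / 2))) *
            (IG * IT) := by ring
      _ ≤ (ENNReal.ofReal ρ * (ENNReal.ofReal (c / (R - r)) * ENNReal.ofReal (R / 2))) *
            (ENNReal.ofReal b * IQ) := mul_le_mul' le_rfl hch2
      _ = (ENNReal.ofReal (c / (R - r)) * ENNReal.ofReal (R / 2) * ENNReal.ofReal b) *
            (ENNReal.ofReal ρ * IQ) := by ring
      _ = ENNReal.ofReal (c * (b * R / (2 * (R - r)))) * (ENNReal.ofReal ρ * IQ) := by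
          rw [← ENNReal.ofReal_mul (by positivity), ← ENNReal.ofReal_mul (by positivity)]
          congr 2
          field_simp
      _ = ENNReal.ofReal (c * (b * R / (2 * (R - r)))) *
        ∫⁻ θ in Ioo (-Real.pi) Real.pi, ENNReal.ofReal ρ * ENNReal.ofReal (q D v (ci ρ θ)) := by
          rw [hIQ, lintegral_const_mul' _ _ ENNReal.ofReal_ne_top]
  calc ∫⁻ z in {z : ℂ | ‖z‖ < r}, ENNReal.ofReal (q D v z)
      ≤ ∫⁻ z in {z : ℂ | r < ‖z‖ ∧ ‖z‖ < R}, F z := (hL.trans hen).trans hRle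
    _ = ∫⁻ ρ in Ioo r R, ∫⁻ θ in Ioo (-Real.pi) Real.pi, ENNReal.ofReal ρ * F (ci ρ θ) := hpol
    _ ≤ ∫⁻ ρ in Ioo r R, ENNReal.ofReal (c * (b * R / (2 * (R - r)))) *
        ∫⁻ θ in Ioo (-Real.pi) Real.pi, ENNReal.ofReal ρ * ENNReal.ofReal (q D v (ci ρ θ)) :=
        setLIntegral_mono' measurableSet_Ioo hin
    _ = ENNReal.ofReal (c * (b * R / (2 * (R - r)))) * ∫⁻ ρ in Ioo r R,
        ∫⁻ θ in Ioo (-Real.pi) Real.pi, ENNReal.ofReal ρ * ENNReal.ofReal (q D v (ci ρ θ)) :=
        lintegral_const_mul' _ _ ENNReal.ofReal_ne_top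
    _ = _ := by rw [hpolq]

end GRH

open GRH in
/-- (GR) -/
theorem gr (h1 : S_EN) (h2 : S_CV) (h3 : S_PO) (_h4 : S_AN) (h5 : S_ME) (h6 : S_CH) (h7 : S_CO) :
    S_GR := by
  intro D v hE b r₀ hb hr₀ hT r R hr hR
  have hrpos : 0 < r := hr₀.trans_le hr
  have hR0 : 0 < R := hrpos.trans hR
  have hRr : 0 < R - r := by linarith
  have key := fun c (hc : 1 < c) => aux h1 h2 h3 h5 h6 h7 hE hb hr₀ hT hr hR hc
  rcases hb.eq_or_lt with h0 | hpos
  · have := key 2 (by norm_num)
    rw [← h0] at this ⊢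
    simpa using this
  · have hK : ENNReal.ofReal (b * R / (2 * (R - r))) ≠ 0 := by
      rw [Ne, ENNReal.ofReal_eq_zero, not_le]
      positivity
    have ht1 : Tendsto (fun c : ℝ => ENNReal.ofReal (c * (b * R / (2 * (R - r))))) (𝓝[>] 1)
        (𝓝 (ENNReal.ofReal (b * R / (2 * (R - r))))) := by
      have h8 : Tendsto (fun c : ℝ => ENNReal.ofReal (c * (b * R / (2 * (R - r))))) (𝓝[>] 1)
          (𝓝 (ENNReal.ofReal (1 * (b * R / (2 * (R - r)))))) :=
        ((ENNReal.continuous_ofReal.comp (continuous_id.mul continuous_const)).tendsto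
          1).mono_left nhdsWithin_le_nhds
      rwa [one_mul] at h8
    have ht2 := ENNReal.Tendsto.mul_const (b := ∫⁻ z in {z : ℂ | r < ‖z‖ ∧ ‖z‖ < R},
      ENNReal.ofReal (q D v z)) ht1 (Or.inl hK)
    refine ge_of_tendsto ht2 ?_
    filter_upwards [self_mem_nhdsWithin] with c hc
    exact key c hc

end Pool.Agent.W5h42.MG
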