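import Pool.Agent.W5h42.MG.Defs

/-!
# (ID) the weak form of the minimal surface equation
-/

set_option autoImplicit false

open MeasureTheory Set Filter Topology
open scoped ENNReal ContDiff

namespace Pool.Agent.W5h42.MG

namespace IdP

theorem cont_mul {D : Set ℂ} (hD : IsOpen D) {a b : ℂ → ℝ} (ha : Continuous a)
    (hs : tsupport a ⊆ D) (hb : ContinuousOn b D) : Continuous (fun z => a z * b z) := by
  rw [continuous_iff_continuousAt]
  intro x
  by_cases hx : x ∈ D
  · exact ha.continuousAt.mul (hb.continuousAt (hD.mem_nhds hx))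
  · have hx' : x ∉ tsupport a := fun h => hx (hs h)
    have h0 : (fun _ : ℂ => (0 : ℝ)) =ᶠ[𝓝 x] (fun z => a z * b z) := by
      filter_upwards [(isClosed_tsupport a).isOpen_compl.mem_nhds hx'] with z hz
      rw [image_eq_zero_of_notMem_tsupport hz, zero_mul]
    exact continuousAt_const.congr h0

theorem int_mul {D : Set ℂ} (hD : IsOpen D) {a b : ℂ → ℝ} (ha : Continuous a)
    (hc : HasCompactSupport a) (hs : tsupport a ⊆ D) (hb : ContinuousOn b D) :
    Integrable (fun z => a z * b z) := by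
  apply (cont_mul hD ha hs hb).integrable_of_hasCompactSupport
  exact hc.mul_right

theorem smooth_px {D : Set ℂ} {v : ℂ → ℝ} (hD : IsOpen D) (h : ContDiffOn ℝ 2 v D) (e : ℂ) :
    ContDiffOn ℝ 1 (fun z => fderiv ℝ v z e) D :=
  (h.fderiv_of_isOpen hD (by norm_num)).clm_apply contDiffOn_const

theorem Wd_pos (v : ℂ → ℝ) (z : ℂ) : 0 < Wd v z := by
  unfold Wd
  apply Real.sqrt_pos.2
  positivity

theorem smooth_Wd {D : Set ℂ} {v : ℂ → ℝ} (hD : IsOpen D) (h : ContDiffOn ℝ 2 v D) :
    ContDiffOn ℝ 1 (Wd v) D := by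
  have h1 := smooth_px hD h 1
  have h2 := smooth_px hD h Complex.I
  have h3 : ContDiffOn ℝ 1 (fun z => 1 + (px v z ^ 2 + py v z ^ 2)) D :=
    contDiffOn_const.add ((h1.pow 2).add (h2.pow 2))
  exact h3.sqrt (fun x _ => by positivity)

/-- integration by parts in the direction `e` -/
theorem parts {D : Set ℂ} (hD : IsOpen D) {φ P : ℂ → ℝ} (hφ : ContDiff ℝ 1 φ)
    (hc : HasCompactSupport φ) (hs : tsupport φ ⊆ D) (hP : ContDiffOn ℝ 1 P D) (e : ℂ) :
    Integrable (fun z => fderiv ℝ φ z e * P z) ∧ Integrable (fun z => φ z * fderiv ℝ P z e) ∧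
      ∫ z, φ z * fderiv ℝ P z e = - ∫ z, fderiv ℝ φ z e * P z := by
  have h1 : Integrable (fun z => fderiv ℝ φ z e * P z) := by
    apply int_mul hD _ _ _ hP.continuousOn
    · exact (hφ.continuous_fderiv (by norm_num)).clm_apply continuous_const
    · exact hc.fderiv_apply ℝ e
    · exact (tsupport_fderiv_apply_subset ℝ e).trans hs
  have h2 : Integrable (fun z => φ z * fderiv ℝ P z e) := by
    apply int_mul hD hφ.continuous hc hs
    exact (hP.continuousOn_fderiv_of_isOpen hD (by norm_num)).clm_apply continuousOn_const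
  refine ⟨h1, h2, ?_⟩
  apply integral_mul_fderiv_eq_neg_fderiv_mul_of_integrable h1 h2
  · exact int_mul hD hφ.continuous hc hs hP.continuousOn
  · exact fun x _ => (hφ.differentiable (by norm_num)) x
  · exact fun x hx => (hP.differentiableOn (by norm_num)).differentiableAt (hD.mem_nhds (hs hx))

end IdP

theorem idd : S_ID := by
  intro D v h φ hφ hc hs
  have hP : ContDiffOn ℝ 1 (fun w => px v w / Wd v w) D :=
    (IdP.smooth_px h.opn h.smooth 1).div (IdP.smooth_Wd h.opn h.smooth)
      (fun x _ => (IdP.Wd_pos v x).ne')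
  have hQ : ContDiffOn ℝ 1 (fun w => py v w / Wd v w) D :=
    (IdP.smooth_px h.opn h.smooth Complex.I).div (IdP.smooth_Wd h.opn h.smooth)
      (fun x _ => (IdP.Wd_pos v x).ne')
  obtain ⟨a1, a2, a3⟩ := IdP.parts h.opn hφ hc hs hP 1
  obtain ⟨b1, b2, b3⟩ := IdP.parts h.opn hφ hc hs hQ Complex.I
  have e : (fun z => (px v z * px φ z + py v z * py φ z) / Wd v z) =
      fun z => fderiv ℝ φ z 1 * (px v z / Wd v z) + fderiv ℝ φ z Complex.I * (py v z / Wd v z) := by
    funext z
    unfold px py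
    ring
  rw [e]
  refine ⟨a1.add b1, ?_⟩
  rw [integral_add a1 b1]
  have h0 : ∫ z, (φ z * fderiv ℝ (fun w => px v w / Wd v w) z 1 +
      φ z * fderiv ℝ (fun w => py v w / Wd v w) z Complex.I) = 0 := by
    have : (fun z => φ z * fderiv ℝ (fun w => px v w / Wd v w) z 1 +
      φ z * fderiv ℝ (fun w => py v w / Wd v w) z Complex.I) = fun _ => 0 := by
      funext z
      by_cases hz : z ∈ D
      · rw [← mul_add, h.mse z hz, mul_zero]
      · rw [image_eq_zero_of_notMem_tsupport (fun h' => hz (hs h')), zero_mul, zero_mul, add_zero]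
    rw [this, integral_zero]
  rw [integral_add a2 b2, a3, b3] at h0
  linarith

end Pool.Agent.W5h42.MG
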