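import Pool.Agent.W5h42.MG.Defs

/-! (MP) of MP_714120_an: the maximum principle. -/

set_option autoImplicit false

open MeasureTheory Set Filter Topology
open scoped ENNReal ContDiff

namespace Pool.Agent.W5h42.MG

namespace Mp

/-- the truncation function -/
noncomputable def gm (m x : ℝ) : ℝ := (x - m) * expNegInvGlue (x - m)

theorem gm_contDiff (m : ℝ) : ContDiff ℝ 2 (gm m) := by
  have h1 : ContDiff ℝ 2 (fun x : ℝ => x - m) := contDiff_id.sub contDiff_const
  have h2 : ContDiff ℝ 2 (fun x : ℝ => expNegInvGlue (x - m)) :=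
    (expNegInvGlue.contDiff (n := 2)).comp h1
  exact h1.mul h2

theorem gm_zero (m x : ℝ) (h : x ≤ m) : gm m x = 0 := by
  unfold gm
  rw [expNegInvGlue.zero_of_nonpos (by linarith), mul_zero]

theorem gm_pos (m x : ℝ) (h : m < x) : 0 < gm m x :=
  mul_pos (by linarith) (expNegInvGlue.pos_of_pos (by linarith))

theorem gm_nonneg (m x : ℝ) : 0 ≤ gm m x := by
  rcases le_or_gt x m with h | h
  · exact (gm_zero m x h).ge
  · exact (gm_pos m x h).le

theorem gm_mono (m : ℝ) : Monotone (gm m) := by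
  intro x y hxy
  rcases le_or_gt x m with h | h
  · rw [gm_zero m x h]
    exact gm_nonneg m y
  · unfold gm
    exact mul_le_mul (by linarith) (expNegInvGlue.monotone (by linarith))
      (expNegInvGlue.nonneg _) (by linarith)

theorem gm_deriv_pos (m x : ℝ) (h : m < x) : 0 < deriv (gm m) x := by
  have hd : DifferentiableAt ℝ expNegInvGlue (x - m) :=
    (expNegInvGlue.contDiff (n := 1)).differentiable (by norm_num) _
  have h1 : HasDerivAt (gm m)
      (1 * expNegInvGlue (x - m) + (x - m) * deriv expNegInvGlue (x - m)) x := by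
    have ha : HasDerivAt (fun x : ℝ => x - m) 1 x := (hasDerivAt_id x).sub_const m
    have hb : HasDerivAt (fun x : ℝ => expNegInvGlue (x - m)) (deriv expNegInvGlue (x - m)) x :=
      hd.hasDerivAt.comp_sub_const x m
    exact ha.mul hb
  rw [h1.deriv]
  have h2 : 0 ≤ deriv expNegInvGlue (x - m) := expNegInvGlue.monotone.deriv_nonneg
  have h3 := expNegInvGlue.pos_of_pos (show 0 < x - m by linarith)
  nlinarith [mul_nonneg (show 0 ≤ x - m by linarith) h2]

theorem lin_zero (f : ℂ →L[ℝ] ℝ) (h1 : f 1 = 0) (h2 : f Complex.I = 0) : f = 0 := by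
  ext z
  have : z = z.re • (1 : ℂ) + z.im • Complex.I := by
    simp [Complex.re_add_im]
  rw [this, map_add, map_smul, map_smul, h1, h2]
  simp

end Mp

theorem mp (h1 : S_CUT) (h2 : S_ID) : S_MP := by
  intro D v hv z₁ ρ hz₁ hρ
  by_contra hcon
  push Not at hcon
  have hρ0 : 0 < ρ := lt_of_lt_of_le (norm_pos_iff.2 hz₁) hρ
  have hvnn : ∀ z, 0 ≤ v z := fun z => by
    by_cases h : z ∈ D
    · exact (hv.pos z h).le
    · rw [hv.zero z h]
  have hK : IsCompact (Metric.sphere (0 : ℂ) ρ) := isCompact_sphere 0 ρ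
  have hKne : (Metric.sphere (0 : ℂ) ρ).Nonempty := NormedSpace.sphere_nonempty.2 hρ0.le
  obtain ⟨z₂, hz₂, hmax⟩ := hK.exists_isMaxOn hKne hv.cont.continuousOn
  have hz₂n : ‖z₂‖ = ρ := by simpa using hz₂
  have hlt : v z₂ < v z₁ := hcon z₂ hz₂n
  obtain ⟨m, hm1, hm2⟩ := exists_between hlt
  have hm0 : 0 < m := (hvnn z₂).trans_lt hm1
  have hcirc : ∀ z, ‖z‖ = ρ → v z < m := fun z hz => by
    have h : v z ≤ v z₂ := hmax (show z ∈ Metric.sphere (0 : ℂ) ρ by simpa using hz)
    exact h.trans_lt hm1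
  have hz₁ρ : ‖z₁‖ < ρ := lt_of_le_of_ne hρ (fun h => absurd (hcirc z₁ h) (by linarith))
  obtain ⟨c1, c2, c3, c4⟩ := h1 D v hv (Mp.gm m) m hm0 (Mp.gm_contDiff m) (Mp.gm_zero m)
  classical
  obtain ⟨φ, hφ⟩ : ∃ φ : ℂ → ℝ, φ = fun z => if ‖z‖ < ρ then Mp.gm m (v z) else 0 := ⟨_, rfl⟩
  have hin : ∀ z, ‖z‖ < ρ → φ =ᶠ[𝓝 z] fun z => Mp.gm m (v z) := fun z hz => by
    filter_upwards [continuous_norm.continuousAt.eventually (gt_mem_nhds hz)] with y hy
    simp [hφ, hy]
  have hout : ∀ z, ρ ≤ ‖z‖ → φ =ᶠ[𝓝 z] fun _ => 0 := fun z hz => by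
    rcases hz.eq_or_lt with h | h
    · have hvz := hcirc z h.symm
      filter_upwards [hv.cont.continuousAt.eventually (gt_mem_nhds hvz)] with y hy
      by_cases hy2 : ‖y‖ < ρ
      · simp [hφ, hy2, Mp.gm_zero m _ (le_of_lt hy)]
      · simp [hφ, hy2]
    · filter_upwards [continuous_norm.continuousAt.eventually (lt_mem_nhds h)] with y hy
      simp [hφ, not_lt.2 hy.le]
  have hφ1 : ContDiff ℝ 1 φ := by
    rw [contDiff_iff_contDiffAt]
    intro z
    rcases lt_or_ge ‖z‖ ρ with h | h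
    · exact (c1.contDiffAt).congr_of_eventuallyEq (hin z h)
    · exact contDiffAt_const.congr_of_eventuallyEq (hout z h)
  have hsup : Function.support φ ⊆ Metric.closedBall 0 ρ := fun z hz => by
    by_contra hz2
    apply hz
    have hz3 : ¬ ‖z‖ < ρ := fun h => hz2 (by simpa using h.le)
    simp [hφ, hz3]
  have hcs : HasCompactSupport φ :=
    HasCompactSupport.of_support_subset_isCompact (isCompact_closedBall 0 ρ) hsup
  have hts : tsupport φ ⊆ D := by
    have h : tsupport φ ⊆ tsupport (fun z => Mp.gm m (v z)) := closure_mono (fun z hz => by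
      intro hz2
      apply hz
      have hz3 : Mp.gm m (v z) = 0 := hz2
      simp [hφ, hz3])
    refine h.trans (c4.trans (fun z hz => ?_))
    by_contra hzD
    have h0 := hv.zero z hzD
    have h3 : m ≤ v z := hz
    linarith
  obtain ⟨hint, hzero⟩ := h2 D v hv φ hφ1 hcs hts
  have hfdD : ∀ z, ‖z‖ < ρ → z ∈ D →
      fderiv ℝ φ z = deriv (Mp.gm m) (v z) • fderiv ℝ v z := fun z hz hzD => by
    rw [(hin z hz).fderiv_eq]
    exact c2 z hzD
  have hfd0 : ∀ z, ¬ (‖z‖ < ρ ∧ z ∈ D) → fderiv ℝ φ z = 0 := fun z hz => by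
    rcases lt_or_ge ‖z‖ ρ with h | h
    · rw [(hin z h).fderiv_eq]
      exact c3 z (fun h' => hz ⟨h, h'⟩)
    · rw [(hout z h).fderiv_eq]
      simp
  have hW : ∀ z, 0 < Wd v z := fun z => Real.sqrt_pos.2 (by positivity)
  have hform : ∀ z, ‖z‖ < ρ → z ∈ D → (px v z * px φ z + py v z * py φ z) / Wd v z =
      deriv (Mp.gm m) (v z) * (px v z ^ 2 + py v z ^ 2) / Wd v z := fun z hz hzD => by
    have e1 : px φ z = deriv (Mp.gm m) (v z) * px v z := by
      unfold px
      rw [hfdD z hz hzD]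
      rfl
    have e2 : py φ z = deriv (Mp.gm m) (v z) * py v z := by
      unfold py
      rw [hfdD z hz hzD]
      rfl
    rw [e1, e2]
    ring
  have hform0 : ∀ z, ¬ (‖z‖ < ρ ∧ z ∈ D) → (px v z * px φ z + py v z * py φ z) / Wd v z = 0 :=
    fun z hz => by
      have e1 : px φ z = 0 := by
        unfold px
        rw [hfd0 z hz]
        rfl
      have e2 : py φ z = 0 := by
        unfold py
        rw [hfd0 z hz]
        rfl
      rw [e1, e2]
      simp
  have hnn : 0 ≤ fun z => (px v z * px φ z + py v z * py φ z) / Wd v z := fun z => by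
    show 0 ≤ (px v z * px φ z + py v z * py φ z) / Wd v z
    by_cases h : ‖z‖ < ρ ∧ z ∈ D
    · rw [hform z h.1 h.2]
      have hd : 0 ≤ deriv (Mp.gm m) (v z) := (Mp.gm_mono m).deriv_nonneg
      exact div_nonneg (mul_nonneg hd (by positivity)) (hW z).le
    · rw [hform0 z h]
  have hae := (integral_eq_zero_iff_of_nonneg hnn hint).1 hzero
  have hae2 : fderiv ℝ φ =ᵐ[volume] fun _ => 0 := by
    filter_upwards [hae] with z hz
    by_cases h : ‖z‖ < ρ ∧ z ∈ D
    · rw [hfdD z h.1 h.2]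
      have hz' : deriv (Mp.gm m) (v z) * (px v z ^ 2 + py v z ^ 2) / Wd v z = 0 := by
        rw [← hform z h.1 h.2]
        exact hz
      rcases div_eq_zero_iff.1 hz' with h3 | h3
      · rcases mul_eq_zero.1 h3 with h4 | h4
        · rw [h4, zero_smul]
        · have h5 : px v z = 0 := by nlinarith [sq_nonneg (px v z), sq_nonneg (py v z)]
          have h6 : py v z = 0 := by nlinarith [sq_nonneg (px v z), sq_nonneg (py v z)]
          rw [Mp.lin_zero (fderiv ℝ v z) h5 h6, smul_zero]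
      · exact absurd h3 (hW z).ne'
    · exact hfd0 z h
  have hcont : Continuous (fderiv ℝ φ) := hφ1.continuous_fderiv (by norm_num)
  have hall : fderiv ℝ φ = fun _ => 0 :=
    (Continuous.ae_eq_iff_eq volume hcont continuous_const).1 hae2
  have hconst := is_const_of_fderiv_eq_zero (hφ1.differentiable (by norm_num))
    (fun z => by rw [hall]) z₁ z₂
  have e1 : φ z₁ = Mp.gm m (v z₁) := by simp [hφ, hz₁ρ]
  have e2 : φ z₂ = 0 := by simp [hφ, hz₂n]
  have e3 := Mp.gm_pos m (v z₁) hm2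
  rw [e1, e2] at hconst
  linarith

end Pool.Agent.W5h42.MG
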