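import Pool.Agent.W5h42.MG.Defs

/-!
# (PO): polar coordinates on an annulus
-/

set_option autoImplicit false

open MeasureTheory Set Filter Topology
open scoped ENNReal ContDiff

namespace Pool.Agent.W5h42.MG

theorem ci_eq (ρ θ : ℝ) : Complex.polarCoord.symm (ρ, θ) = ci ρ θ := by
  rw [Complex.polarCoord_symm_apply, ci, Complex.exp_mul_I]
  simp

theorem ci_norm (ρ θ : ℝ) : ‖ci ρ θ‖ = |ρ| := by
  rw [ci, norm_mul, Complex.norm_exp_ofReal_mul_I, mul_one, Complex.norm_real, Real.norm_eq_abs]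

theorem ci_measurable : Measurable fun p : ℝ × ℝ => ci p.1 p.2 := by
  unfold ci
  fun_prop

theorem po : S_PO := by
  intro f hf r R hr
  have hS : MeasurableSet {z : ℂ | r < ‖z‖ ∧ ‖z‖ < R} :=
    (measurableSet_lt measurable_const measurable_norm).inter
      (measurableSet_lt measurable_norm measurable_const)
  rw [← lintegral_indicator hS, ← Complex.lintegral_comp_polarCoord_symm]
  have h1 : ∀ p ∈ polarCoord.target, ENNReal.ofReal p.1 •
      ({z : ℂ | r < ‖z‖ ∧ ‖z‖ < R}.indicator f (Complex.polarCoord.symm p)) =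
      (Ioo r R ×ˢ (univ : Set ℝ)).indicator
        (fun p : ℝ × ℝ => ENNReal.ofReal p.1 * f (ci p.1 p.2)) p := by
    rintro ⟨ρ, θ⟩ hp
    have hρ : 0 < ρ := hp.1
    rw [ci_eq, smul_eq_mul]
    by_cases h : r < ρ ∧ ρ < R
    · rw [indicator_of_mem, indicator_of_mem]
      · exact ⟨h, mem_univ _⟩
      · change r < ‖ci ρ θ‖ ∧ ‖ci ρ θ‖ < R
        rw [ci_norm, abs_of_pos hρ]
        exact h
    · rw [indicator_of_notMem, indicator_of_notMem, mul_zero]
      · exact fun h' => h h'.1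
      · change ¬(r < ‖ci ρ θ‖ ∧ ‖ci ρ θ‖ < R)
        rw [ci_norm, abs_of_pos hρ]
        exact h
  rw [setLIntegral_congr_fun polarCoord.open_target.measurableSet h1,
    setLIntegral_indicator (measurableSet_Ioo.prod MeasurableSet.univ)]
  have h2 : Ioo r R ×ˢ (univ : Set ℝ) ∩ polarCoord.target = Ioo r R ×ˢ Ioo (-Real.pi) Real.pi := by
    ext ⟨ρ, θ⟩
    change (ρ ∈ Ioo r R ∧ θ ∈ univ) ∧ (ρ ∈ Ioi (0 : ℝ) ∧ θ ∈ Ioo (-Real.pi) Real.pi) ↔
      ρ ∈ Ioo r R ∧ θ ∈ Ioo (-Real.pi) Real.pi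
    constructor
    · rintro ⟨⟨h, -⟩, -, h'⟩
      exact ⟨h, h'⟩
    · rintro ⟨h, h'⟩
      exact ⟨⟨h, mem_univ _⟩, lt_of_le_of_lt hr h.1, h'⟩
  rw [h2, Measure.volume_eq_prod, setLIntegral_prod]
  exact ((measurable_fst.ennreal_ofReal).mul (hf.comp ci_measurable)).aemeasurable

end Pool.Agent.W5h42.MG
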