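import Pool.Agent.W5h42.MG.Defs

/-!
# Minimal graphs over unbounded domains: the objects of MP_714120_an
-/

set_option autoImplicit false

open MeasureTheory Set Filter Topology
open scoped ENNReal ContDiff

namespace Pool.Agent.W5h42.MG

/-- an unbounded domain with non-empty boundary -/
structure UDomain (D : Set ℂ) : Prop where
  opn : IsOpen D
  conn : IsConnected D
  unb : ¬ Bornology.IsBounded D
  bd : (frontier D).Nonempty

/-- a solution of the boundary value problem: `u ∈ C²(D) ∩ C(closure D)`,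
`div (∇u / √(1 + |∇u|²)) = 0` and `u > 0` in `D`, `u = 0` on the boundary -/
structure Solution (D : Set ℂ) (u : ℂ → ℝ) : Prop where
  smooth : ContDiffOn ℝ 2 u D
  cont : ContinuousOn u (closure D)
  mse : ∀ z ∈ D, fderiv ℝ (fun w => px u w / Wd u w) z 1 +
    fderiv ℝ (fun w => py u w / Wd u w) z Complex.I = 0
  pos : ∀ z ∈ D, 0 < u z
  bdry : ∀ z ∈ frontier D, u z = 0

open Classical in
/-- `Θ*(r)`: infinity if the circle of radius `r` is contained in `D`, otherwise the angular measure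
of its part in `D` -/
noncomputable def star (D : Set ℂ) (r : ℝ) : ℝ≥0∞ :=
  if ∀ z : ℂ, ‖z‖ = r → z ∈ D then ⊤ else ang D r

/-- the asymptotic angle -/
noncomputable def asymptoticAngle (D : Set ℂ) : ℝ≥0∞ := limsup (star D) atTop

lemma Solution.ext {D : Set ℂ} {u : ℂ → ℝ} (hD : UDomain D) (h : Solution D u) :
    ∃ v : ℂ → ℝ, Ext D v ∧ ∀ z ∈ D, v z = u z := by
  classical
  refine ⟨D.piecewise u (fun _ => 0), ?_, fun z hz => piecewise_eq_of_mem _ _ _ hz⟩
  have hev : ∀ z ∈ D, D.piecewise u (fun _ => 0) =ᶠ[𝓝 z] u := fun z hz => by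
    filter_upwards [hD.opn.mem_nhds hz] with w hw using piecewise_eq_of_mem _ _ _ hw
  have hpx : ∀ z ∈ D, px (D.piecewise u (fun _ => 0)) z = px u z := fun z hz => by
    unfold px; rw [(hev z hz).fderiv_eq]
  have hpy : ∀ z ∈ D, py (D.piecewise u (fun _ => 0)) z = py u z := fun z hz => by
    unfold py; rw [(hev z hz).fderiv_eq]
  have hW : ∀ z ∈ D, Wd (D.piecewise u (fun _ => 0)) z = Wd u z := fun z hz => by
    unfold Wd; rw [hpx z hz, hpy z hz]
  refine ⟨hD.opn, ?_, fun z hz => piecewise_eq_of_notMem _ _ _ hz, fun z hz => ?_, ?_, ?_⟩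
  · exact continuous_piecewise (fun a ha => h.bdry a ha) h.cont continuousOn_const
  · rw [piecewise_eq_of_mem _ _ _ hz]; exact h.pos z hz
  · exact h.smooth.congr fun z hz => piecewise_eq_of_mem _ _ _ hz
  · intro z hz
    have e1 : (fun w => px (D.piecewise u (fun _ => 0)) w / Wd (D.piecewise u (fun _ => 0)) w)
        =ᶠ[𝓝 z] fun w => px u w / Wd u w := by
      filter_upwards [hD.opn.mem_nhds hz] with w hw
      rw [hpx w hw, hW w hw]
    have e2 : (fun w => py (D.piecewise u (fun _ => 0)) w / Wd (D.piecewise u (fun _ => 0)) w)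
        =ᶠ[𝓝 z] fun w => py u w / Wd u w := by
      filter_upwards [hD.opn.mem_nhds hz] with w hw
      rw [hpy w hw, hW w hw]
    rw [e1.fderiv_eq, e2.fderiv_eq]
    exact h.mse z hz

lemma thin_of_angle {D : Set ℂ} {b : ℝ} (h : asymptoticAngle D < ENNReal.ofReal b) :
    ∃ r₀ : ℝ, 0 < r₀ ∧ Thin D b r₀ := by
  have h1 : ∀ᶠ r in atTop, star D r < ENNReal.ofReal b := eventually_lt_of_limsup_lt h
  obtain ⟨a, ha⟩ := eventually_atTop.1 h1
  refine ⟨max a 1, by positivity, fun ρ hρ => ?_⟩
  have h2 := ha ρ (le_trans (le_max_left _ _) hρ)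
  unfold star at h2
  split_ifs at h2 with h3
  · exact absurd h2 (by simp)
  · push Not at h3
    exact ⟨h3, h2.le⟩

end Pool.Agent.W5h42.MG
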