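import Pool.Agent.W5h42.MG.Defs

/-!
# MP_714120_an : piece (VA), the variation over an annulus
-/

set_option autoImplicit false

open MeasureTheory Set Filter Topology
open scoped ENNReal ContDiff

namespace Pool.Agent.W5h42.MG

theorem va (h1 : S_MP) (h2 : S_CV) (h3 : S_PO) (h4 : S_ME) : S_VA := by
  intro D v hE b r₀ hb hr₀ hthin z₁ R hz hR H hH hHv
  have hz0 : 0 < ‖z₁‖ := lt_of_lt_of_le hr₀ hz
  have hz1 : z₁ ≠ 0 := norm_pos_iff.1 hz0
  obtain ⟨hG, -, -⟩ := h4 D v hE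
  have hms : MeasurableSet {z | v z < H} := (isOpen_lt hE.cont continuous_const).measurableSet
  have hmf : Measurable fun z => ENNReal.ofReal ({z | v z < H}.indicator (G D v) z) :=
    (hG.indicator hms).ennreal_ofReal
  rw [h3 _ hmf ‖z₁‖ R hz0.le]
  have key : ∀ ρ ∈ Ioo ‖z₁‖ R, ENNReal.ofReal (2 * H) ≤
      ∫⁻ θ in Ioo (-Real.pi) Real.pi, ENNReal.ofReal ρ *
        ENNReal.ofReal ({z | v z < H}.indicator (G D v) (ci ρ θ)) := by
    intro ρ hρ
    have hρ0 : 0 < ρ := hz0.trans hρ.1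
    obtain ⟨hcirc, -⟩ := hthin ρ (hz.trans hρ.1.le)
    obtain ⟨z₂, hz2, hz2'⟩ := h1 D v hE z₁ ρ hz1 hρ.1.le
    refine (h2 D v hE ρ hρ0 hcirc z₂ hz2 H hH (hHv.trans hz2')).trans (le_of_eq ?_)
    refine lintegral_congr fun θ => ?_
    rw [ENNReal.ofReal_mul hρ0.le]
  calc ENNReal.ofReal (2 * H * (R - ‖z₁‖))
      = ∫⁻ _ in Ioo ‖z₁‖ R, ENNReal.ofReal (2 * H) := by
        rw [setLIntegral_const, Real.volume_Ioo, ← ENNReal.ofReal_mul (by positivity)]
    _ ≤ _ := setLIntegral_mono' measurableSet_Ioo key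

end Pool.Agent.W5h42.MG
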