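import Pool.Agent.W5h42.MG.G3
import Pool.Agent.W5h42.MG.Cut
import Pool.Agent.W5h42.MG.Id
import Pool.Agent.W5h42.MG.En
import Pool.Agent.W5h42.MG.Mp
import Pool.Agent.W5h42.MG.Cv
import Pool.Agent.W5h42.MG.Po
import Pool.Agent.W5h42.MG.An
import Pool.Agent.W5h42.MG.A1
import Pool.Agent.W5h42.MG.Ar
import Pool.Agent.W5h42.MG.Va
import Pool.Agent.W5h42.MG.Ch
import Pool.Agent.W5h42.MG.Co
import Pool.Agent.W5h42.MG.Gr
import Pool.Agent.W5h42.MG.Sol

/-!
# Assembly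
-/

set_option autoImplicit false

open MeasureTheory Set Filter Topology
open scoped ENNReal ContDiff

namespace Pool.Agent.W5h42.MG

theorem sEN : S_EN := en cut idd me
theorem sMP : S_MP := mp cut idd
theorem sCV : S_CV := cv cut
theorem sA1 : S_A1 := a1 sEN po an me
theorem sAR : S_AR := ar po an
theorem sVA : S_VA := va sMP sCV po me
theorem sG1 : S_G1 := g1 sA1 sAR sVA me
theorem sGR : S_GR := gr sEN sCV po an me (ch an me) co
theorem sG3 : S_G3 := g3 sMP sA1 sVA me sG1 sGR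

theorem growth {D : Set ℂ} {u : ℂ → ℝ} (hD : UDomain D) (h : Solution D u) {b : ℝ} (hb : 0 < b)
    (hb2 : b < 2) (ha : asymptoticAngle D < ENNReal.ofReal b) :
    ∃ r₀ : ℝ, 0 < r₀ ∧ ∀ z ∈ D, r₀ ≤ ‖z‖ → u z ≤ 3 / 2 * b / (2 - b) ^ 2 * ‖z‖ := by
  obtain ⟨v, hv, hvu⟩ := h.ext hD
  obtain ⟨r₀, hr₀, hT⟩ := thin_of_angle ha
  refine ⟨r₀, hr₀, fun z hz hzr => ?_⟩
  rw [← hvu z hz]
  exact sG1 D v hv b r₀ hb hb2 hr₀ hT z hzr

theorem none {D : Set ℂ} {u : ℂ → ℝ} (hD : UDomain D) (h : Solution D u)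
    (ha : asymptoticAngle D < 1) : False := by
  obtain ⟨v, hv, -⟩ := h.ext hD
  have hfin : asymptoticAngle D ≠ ⊤ := (ha.trans ENNReal.one_lt_top).ne
  set a := (asymptoticAngle D).toReal with hadef
  have ha0 : 0 ≤ a := ENNReal.toReal_nonneg
  have hae : asymptoticAngle D = ENNReal.ofReal a := (ENNReal.ofReal_toReal hfin).symm
  have ha1 : a < 1 := by
    rw [hae, ← ENNReal.ofReal_one, ENNReal.ofReal_lt_ofReal_iff one_pos] at ha
    exact ha
  have hb : asymptoticAngle D < ENNReal.ofReal ((a + 1) / 2) := by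
    rw [hae, ENNReal.ofReal_lt_ofReal_iff (by linarith)]
    linarith
  obtain ⟨r₀, hr₀, hT⟩ := thin_of_angle hb
  apply hD.unb
  refine (Metric.isBounded_ball (x := (0 : ℂ)) (r := r₀)).subset fun z hz => ?_
  rw [mem_ball_zero_iff]
  by_contra hcon
  push Not at hcon
  have h1 := sG3 D v hv ((a + 1) / 2) r₀ (by linarith) (by linarith) hr₀ hT z hcon
  exact (hv.pos z hz).ne' h1

end Pool.Agent.W5h42.MG
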