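import Pool.Agent.W5h42.MG.Defs4

/-!
# (CHT) the inequality on a circle
-/

set_option autoImplicit false

open MeasureTheory Set Filter Topology
open scoped ENNReal ContDiff

namespace Pool.Agent.W5h42.MG

namespace ChtP

theorem xr_nonneg (D : Set ℂ) (v : ℂ → ℝ) (z : ℂ) : 0 ≤ xr D v z := by
  unfold xr
  split_ifs
  · positivity
  · exact le_rfl

theorem yt_nonneg (D : Set ℂ) (v : ℂ → ℝ) (z : ℂ) : 0 ≤ yt D v z := by
  unfold yt
  split_ifs
  · positivity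
  · exact le_rfl

theorem q_nonneg (D : Set ℂ) (v : ℂ → ℝ) (z : ℂ) : 0 ≤ q D v z :=
  div_nonneg (sq_nonneg _) (Real.sqrt_nonneg _)

theorem xr_off {D : Set ℂ} (v : ℂ → ℝ) {z : ℂ} (h : z ∉ D) : xr D v z = 0 := by
  unfold xr; rw [if_neg h]

theorem yt_off {D : Set ℂ} (v : ℂ → ℝ) {z : ℂ} (h : z ∉ D) : yt D v z = 0 := by
  unfold yt; rw [if_neg h]

theorem ci_norm {ρ : ℝ} (hρ : 0 < ρ) (θ : ℝ) : ci ρ θ ≠ 0 := by
  unfold ci
  exact mul_ne_zero (by exact_mod_cast hρ.ne') (Complex.exp_ne_zero _)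

end ChtP

open ChtP in
theorem cht (h1 : S_PW) (h2 : S_XY) (h3 : S_AN) (h4 : S_ME) : S_CHT := by
  intro D v hv b ρ M hb hρ hM hMb hang hvar
  obtain ⟨mG, mq, mt⟩ := h4 D v hv
  obtain ⟨hsq, mx, my⟩ := h2 D v hv
  have hci : Measurable (ci ρ) := by
    unfold ci
    fun_prop
  have hA : MeasurableSet {θ | ci ρ θ ∈ D} := hci hv.opn.measurableSet
  set ν : Measure ℝ := volume.restrict (Ioo (-Real.pi) Real.pi) with hν
  have hmA : ν {θ | ci ρ θ ∈ D} ≤ ENNReal.ofReal b := by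
    rw [hν, Measure.restrict_apply hA]
    refine le_trans (le_of_eq ?_) hang
    rw [← h3 D hv.opn ρ]
    congr 1
    ext θ
    exact and_comm
  set μ : ℝ := M / (b * ρ) with hμ
  have hbρ : 0 < b * ρ := mul_pos hb hρ
  have hμ0 : 0 ≤ μ := by positivity
  have hμ1 : μ ≤ 27 / 8 := by
    rw [hμ, div_le_iff₀ hbρ]
    linarith
  obtain ⟨t, ht0, ht⟩ := h1 μ hμ0 hμ1
  -- the pointwise inequality
  set X : ℝ → ℝ≥0∞ := fun θ => ENNReal.ofReal (xr D v (ci ρ θ) / √(1 + G D v (ci ρ θ) ^ 2)) with hX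
  set Y : ℝ → ℝ≥0∞ := fun θ => ENNReal.ofReal (yt D v (ci ρ θ)) with hY
  set Q : ℝ → ℝ≥0∞ := fun θ => ENNReal.ofReal (q D v (ci ρ θ)) with hQ
  have hpt : ∀ θ, ENNReal.ofReal μ * X θ + ENNReal.ofReal t * Y θ ≤
      ENNReal.ofReal (3 / 8) * Q θ +
        ENNReal.ofReal (2 * t * μ) * {θ | ci ρ θ ∈ D}.indicator (fun _ => (1 : ℝ≥0∞)) θ := by
    intro θ
    by_cases hD : ci ρ θ ∈ D
    · rw [indicator_of_mem (show θ ∈ {θ | ci ρ θ ∈ D} from hD), mul_one, hX, hY, hQ]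
      dsimp only
      have e := ht (xr D v (ci ρ θ)) (yt D v (ci ρ θ)) (xr_nonneg _ _ _) (yt_nonneg _ _ _)
      have e2 := hsq (ci ρ θ) (ci_norm hρ θ)
      rw [← e2] at e
      rw [← ENNReal.ofReal_mul hμ0, ← ENNReal.ofReal_mul ht0,
        ← ENNReal.ofReal_mul (by norm_num : (0 : ℝ) ≤ 3 / 8),
        ← ENNReal.ofReal_add (mul_nonneg hμ0 (div_nonneg (xr_nonneg _ _ _) (Real.sqrt_nonneg _)))
          (mul_nonneg ht0 (yt_nonneg _ _ _)),
        ← ENNReal.ofReal_add (mul_nonneg (by norm_num) (q_nonneg _ _ _)) (by positivity)]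
      exact ENNReal.ofReal_le_ofReal e
    · rw [hX, hY]
      dsimp only
      rw [xr_off v hD, yt_off v hD]
      simp
  have hXm : Measurable X :=
    ((mx.div (measurable_const.add (mG.pow_const 2)).sqrt).comp hci).ennreal_ofReal
  have hYm : Measurable Y := (my.comp hci).ennreal_ofReal
  have hQm : Measurable Q := (mq.comp hci).ennreal_ofReal
  have hint : ENNReal.ofReal μ * (∫⁻ θ, X θ ∂ν) + ENNReal.ofReal t * (∫⁻ θ, Y θ ∂ν) ≤
      ENNReal.ofReal (3 / 8) * (∫⁻ θ, Q θ ∂ν) +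
        ENNReal.ofReal (2 * t * μ) * ν {θ | ci ρ θ ∈ D} := by
    calc ENNReal.ofReal μ * (∫⁻ θ, X θ ∂ν) + ENNReal.ofReal t * (∫⁻ θ, Y θ ∂ν)
        = ∫⁻ θ, (ENNReal.ofReal μ * X θ + ENNReal.ofReal t * Y θ) ∂ν := by
          rw [lintegral_add_left (hXm.const_mul _), lintegral_const_mul _ hXm,
            lintegral_const_mul _ hYm]
      _ ≤ ∫⁻ θ, (ENNReal.ofReal (3 / 8) * Q θ +
        ENNReal.ofReal (2 * t * μ) * {θ | ci ρ θ ∈ D}.indicator (fun _ => (1 : ℝ≥0∞)) θ) ∂ν :=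
          lintegral_mono hpt
      _ = _ := by
          rw [lintegral_add_left (hQm.const_mul _), lintegral_const_mul _ hQm,
            lintegral_const_mul _ (measurable_const.indicator hA),
            lintegral_indicator_const hA, one_mul]
  -- the variation
  have hvar2 : ENNReal.ofReal (2 * M) ≤ ENNReal.ofReal ρ * ∫⁻ θ, Y θ ∂ν := by
    rw [← lintegral_const_mul _ hYm]
    refine hvar.trans (le_of_eq ?_)
    apply lintegral_congr
    intro θ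
    rw [hY, ENNReal.ofReal_mul hρ.le]
  have hcancel : ENNReal.ofReal (2 * t * μ) * ν {θ | ci ρ θ ∈ D} ≤
      ENNReal.ofReal t * (∫⁻ θ, Y θ ∂ν) := by
    calc ENNReal.ofReal (2 * t * μ) * ν {θ | ci ρ θ ∈ D}
        ≤ ENNReal.ofReal (2 * t * μ) * ENNReal.ofReal b := by gcongr
      _ = ENNReal.ofReal t * (ENNReal.ofReal (1 / ρ) * ENNReal.ofReal (2 * M)) := by
          rw [← ENNReal.ofReal_mul (by positivity), ← ENNReal.ofReal_mul (by positivity),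
            ← ENNReal.ofReal_mul ht0]
          congr 1
          rw [hμ]
          field_simp
      _ ≤ ENNReal.ofReal t * (ENNReal.ofReal (1 / ρ) * (ENNReal.ofReal ρ * ∫⁻ θ, Y θ ∂ν)) := by
          gcongr
      _ = ENNReal.ofReal t * (∫⁻ θ, Y θ ∂ν) := by
          rw [← mul_assoc (ENNReal.ofReal (1 / ρ)), ← ENNReal.ofReal_mul (by positivity),
            one_div, inv_mul_cancel₀ hρ.ne', ENNReal.ofReal_one, one_mul]
  -- cancel
  have hfin : ENNReal.ofReal (2 * t * μ) * ν {θ | ci ρ θ ∈ D} ≠ ⊤ :=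
    ENNReal.mul_ne_top ENNReal.ofReal_ne_top (ne_top_of_le_ne_top ENNReal.ofReal_ne_top hmA)
  have hmain : ENNReal.ofReal μ * (∫⁻ θ, X θ ∂ν) ≤ ENNReal.ofReal (3 / 8) * (∫⁻ θ, Q θ ∂ν) := by
    have h5 : ENNReal.ofReal μ * (∫⁻ θ, X θ ∂ν) +
        ENNReal.ofReal (2 * t * μ) * ν {θ | ci ρ θ ∈ D} ≤
        ENNReal.ofReal (3 / 8) * (∫⁻ θ, Q θ ∂ν) +
        ENNReal.ofReal (2 * t * μ) * ν {θ | ci ρ θ ∈ D} :=
      (by gcongr : _ ≤ ENNReal.ofReal μ * (∫⁻ θ, X θ ∂ν) + ENNReal.ofReal t * (∫⁻ θ, Y θ ∂ν)).trans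
        hint
    exact (ENNReal.add_le_add_iff_right hfin).1 h5
  calc ENNReal.ofReal M * ∫⁻ θ, X θ ∂ν
      = ENNReal.ofReal (b * ρ) * (ENNReal.ofReal μ * ∫⁻ θ, X θ ∂ν) := by
        rw [← mul_assoc, ← ENNReal.ofReal_mul hbρ.le]
        congr 2
        rw [hμ]
        field_simp
    _ ≤ ENNReal.ofReal (b * ρ) * (ENNReal.ofReal (3 / 8) * ∫⁻ θ, Q θ ∂ν) := by gcongr
    _ = ENNReal.ofReal (3 / 8 * b * ρ) * ∫⁻ θ, Q θ ∂ν := by
        rw [← mul_assoc, ← ENNReal.ofReal_mul hbρ.le]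
        congr 2
        ring

end Pool.Agent.W5h42.MG
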