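import Pool.Agent.W5h42.MG.Defs4
import Pool.Agent.W5h42.MG.Cv

/-!
# Minimal graphs: variation on a circle, tangential derivative (CVT) (MP_714120_an)
-/

set_option autoImplicit false

open MeasureTheory Set Filter Topology
open scoped ENNReal ContDiff

namespace Pool.Agent.W5h42.MG

namespace CV

/-- The derivative along the circle. -/
theorem tang_eq (v : ℂ → ℝ) (z : ℂ) (hz : 0 < ‖z‖) :
    |fderiv ℝ v z (Complex.I * z)| =
      ‖z‖ * (|-(px v z * z.im) + py v z * z.re| / ‖z‖) := by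
  have h1 : Complex.I * z = (-z.im) • (1 : ℂ) + z.re • Complex.I := by
    apply Complex.ext <;> simp
  have h2 : fderiv ℝ v z (Complex.I * z) = -(px v z * z.im) + py v z * z.re := by
    rw [h1, map_add, map_smul, map_smul]
    simp only [smul_eq_mul, px, py]
    ring
  rw [h2]
  field_simp

end CV

/-- (CVT) -/
theorem cvt (h1 : S_CUT) : S_CVT := by
  intro D v hE ρ hρ hD z₀ hz₀ hH
  obtain ⟨z₁, hz₁, hz₁D⟩ := hD
  obtain ⟨H, hHe⟩ : ∃ H, H = v z₀ := ⟨_, rfl⟩
  have hHv : H ≤ v z₀ := hHe.le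
  rw [← hHe] at hH ⊢
  have key : ∀ δ : ℝ, 0 < δ → 3 * δ < H → ENNReal.ofReal (2 * (H - 3 * δ)) ≤
      ∫⁻ θ in Ioo (-Real.pi) Real.pi, ENNReal.ofReal (ρ * yt D v (ci ρ θ)) := by
    intro δ hδ hδH
    obtain ⟨g, hg2, hg0, hgd, hgr, hgH⟩ := CV.exists_g H δ hδ hδH
    obtain ⟨hF, hFD, hFn, -⟩ := h1 D v hE g δ hδ hg2 hg0
    obtain ⟨θ₀, hθ₀⟩ := CV.exists_ci z₀
    obtain ⟨θ₁, hθ₁⟩ := CV.exists_ci z₁
    rw [hz₀] at hθ₀
    rw [hz₁] at hθ₁
    set F : ℂ → ℝ := fun z => g (v z) with hFdef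
    set w : ℝ → ℝ := fun θ => F (ci ρ θ) with hw
    set w' : ℝ → ℝ := fun θ => fderiv ℝ F (ci ρ θ) (Complex.I * ci ρ θ) with hw'
    have hcc : Continuous (ci ρ) :=
      continuous_iff_continuousAt.2 fun θ => (CV.ci_hasDerivAt ρ θ).continuousAt
    have hwd : ∀ θ, HasDerivAt w (w' θ) θ := fun θ =>
      ((hF.differentiable one_ne_zero (ci ρ θ)).hasFDerivAt).comp_hasDerivAt θ
        (CV.ci_hasDerivAt ρ θ)
    have hwc : Continuous w' :=
      ((hF.continuous_fderiv one_ne_zero).comp hcc).clm_apply (continuous_const.mul hcc)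
    have hwp : Function.Periodic w (2 * Real.pi) := fun θ => by
      simp only [hw, CV.ci_periodic ρ θ]
    have hwp' : Function.Periodic w' (2 * Real.pi) := fun θ => by
      simp only [hw', CV.ci_periodic ρ θ]
    have h2 := CV.var w w' hwd hwc hwp hwp' θ₁ θ₀
    have h3 : w θ₁ = 0 := by
      simp only [hw, hFdef]
      rw [← hθ₁, hE.zero z₁ hz₁D]
      exact hg0 0 hδ.le
    have h4 : H - 3 * δ ≤ w θ₀ := by
      simp only [hw, hFdef]
      rw [← hθ₀]
      exact hgH _ hHv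
    have hb : ∀ θ, |w' θ| ≤ ρ * yt D v (ci ρ θ) := by
      intro θ
      have hn : ‖ci ρ θ‖ = ρ := CV.norm_ci ρ θ hρ.le
      by_cases hz : ci ρ θ ∈ D
      · have h5 : w' θ = deriv g (v (ci ρ θ)) * fderiv ℝ v (ci ρ θ) (Complex.I * ci ρ θ) := by
          simp only [hw']
          rw [hFD _ hz]; rfl
        have h6 := CV.tang_eq v (ci ρ θ) (by rw [hn]; exact hρ)
        have h7 := hgd (v (ci ρ θ))
        rw [h5, abs_mul, abs_of_nonneg h7.1, yt, if_pos hz]
        calc deriv g (v (ci ρ θ)) * |fderiv ℝ v (ci ρ θ) (Complex.I * ci ρ θ)|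
            ≤ 1 * |fderiv ℝ v (ci ρ θ) (Complex.I * ci ρ θ)| :=
              mul_le_mul_of_nonneg_right h7.2 (abs_nonneg _)
          _ = |fderiv ℝ v (ci ρ θ) (Complex.I * ci ρ θ)| := one_mul _
          _ = _ := h6
          _ = _ := by rw [hn]
      · have h5 : w' θ = 0 := by
          simp only [hw']
          rw [hFn _ hz]; rfl
        rw [h5, abs_zero, yt, if_neg hz, mul_zero]
    have h5 : ∫ θ in (-Real.pi)..Real.pi, |w' θ| = ∫ θ in Ioo (-Real.pi) Real.pi, |w' θ| := by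
      rw [intervalIntegral.integral_of_le (by linarith [Real.pi_pos]), integral_Ioc_eq_integral_Ioo]
    have h6 : IntegrableOn (fun θ => |w' θ|) (Ioo (-Real.pi) Real.pi) :=
      (hwc.abs.integrableOn_Icc (a := -Real.pi) (b := Real.pi)).mono_set Ioo_subset_Icc_self
    calc ENNReal.ofReal (2 * (H - 3 * δ)) ≤ ENNReal.ofReal (∫ θ in Ioo (-Real.pi) Real.pi, |w' θ|) := by
          apply ENNReal.ofReal_le_ofReal
          rw [← h5]
          linarith
      _ = ∫⁻ θ in Ioo (-Real.pi) Real.pi, ENNReal.ofReal |w' θ| :=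
          ofReal_integral_eq_lintegral_ofReal h6 (Eventually.of_forall fun θ => abs_nonneg _)
      _ ≤ _ := lintegral_mono fun θ => ENNReal.ofReal_le_ofReal (hb θ)
  have ht : Tendsto (fun δ : ℝ => ENNReal.ofReal (2 * (H - 3 * δ))) (𝓝[>] 0)
      (𝓝 (ENNReal.ofReal (2 * H))) := by
    have h2 : Tendsto (fun δ : ℝ => 2 * (H - 3 * δ)) (𝓝 0) (𝓝 (2 * (H - 3 * 0))) :=
      (Continuous.tendsto (by fun_prop) 0)
    have h3 := (ENNReal.tendsto_ofReal h2).mono_left (nhdsWithin_le_nhds (s := Ioi 0))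
    simpa using h3
  refine le_of_tendsto ht ?_
  have h4 : ∀ᶠ δ : ℝ in 𝓝[>] 0, δ < H / 3 :=
    nhdsWithin_le_nhds (Iio_mem_nhds (by linarith))
  filter_upwards [h4, self_mem_nhdsWithin] with δ hδ hδ0
  exact key δ hδ0 (by linarith)

end Pool.Agent.W5h42.MG
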