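import Pool.Agent.W5h42.MG.Defs4
import Pool.Agent.W5h42.MG.En

/-!
# (ENR) the energy inequality with the radial derivative
-/

set_option autoImplicit false

open MeasureTheory Set Filter Topology
open scoped ENNReal ContDiff

namespace Pool.Agent.W5h42.MG

namespace EnrP

/-- the factor on the right -/
noncomputable def tr (D : Set ℂ) (v : ℂ → ℝ) (z : ℂ) : ℝ := xr D v z / √(1 + G D v z ^ 2)

theorem fderiv_norm_apply {z : ℂ} (hz : z ≠ 0) (w : ℂ) :
    fderiv ℝ (fun w : ℂ => ‖w‖) z w = (z.re * w.re + z.im * w.im) / ‖z‖ := by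
  have hn : ‖z‖ ≠ 0 := norm_ne_zero_iff.2 hz
  have e3 : HasFDerivAt (fun w : ℂ => ‖w‖) (fderiv ℝ (fun w : ℂ => ‖w‖) z) z :=
    ((contDiffAt_norm ℝ hz (n := 1)).differentiableAt one_ne_zero).hasFDerivAt
  have e4 : fderiv ℝ (fun w : ℂ => ‖w‖ ^ 2) z = 2 • innerSL ℝ z := fderiv_norm_sq_apply z
  have e5 := (e3.pow 2).fderiv
  rw [e4] at e5
  have e6 := congrArg (fun L : ℂ →L[ℝ] ℝ => L w) e5
  simp only [_root_.smul_apply, innerSL_apply_apply, smul_eq_mul, nsmul_eq_mul,
    Complex.inner] at e6
  rw [eq_div_iff hn]
  simp at e6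
  linarith

theorem xr_nonneg (D : Set ℂ) (v : ℂ → ℝ) (z : ℂ) : 0 ≤ xr D v z := by
  unfold xr
  split_ifs
  · positivity
  · exact le_rfl

theorem xr_le (D : Set ℂ) (v : ℂ → ℝ) (z : ℂ) : xr D v z ≤ G D v z := by
  unfold xr G
  split_ifs with h
  · by_cases hz : z = 0
    · subst hz
      simp
    · have hn : 0 < ‖z‖ := norm_pos_iff.2 hz
      rw [div_le_iff₀ hn]
      apply abs_le_of_sq_le_sq _ (by positivity)
      rw [mul_pow, Real.sq_sqrt (by positivity), Complex.sq_norm, Complex.normSq_apply]
      nlinarith [sq_nonneg (px v z * z.im - py v z * z.re)]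
  · exact le_rfl

theorem xr_meas {D : Set ℂ} {v : ℂ → ℝ} (hv : Ext D v) : Measurable (xr D v) := by
  classical
  have hx : Measurable (px v) := measurable_fderiv_apply_const ℝ v 1
  have hy : Measurable (py v) := measurable_fderiv_apply_const ℝ v Complex.I
  have h : Measurable fun z : ℂ => |px v z * z.re + py v z * z.im| / ‖z‖ :=
    (((hx.mul Complex.measurable_re).add (hy.mul Complex.measurable_im)).abs).div measurable_norm
  have h2 := h.indicator hv.opn.measurableSet
  convert h2 using 1
  funext z
  unfold xr
  by_cases hz : z ∈ D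
  · rw [if_pos hz, indicator_of_mem hz]
  · rw [if_neg hz, indicator_of_notMem hz]

end EnrP

open EN EnrP

theorem enr (h1 : S_CUT) (h2 : S_ID) (h3 : S_ME) : S_ENR := by
  intro D v hv η r R hr hrR hη hanti hη1 hη0 H hH
  obtain ⟨hGm, hqm, htm0⟩ := h3 D v hv
  have htm : Measurable (tr D v) :=
    (xr_meas hv).div (measurable_const.add (hGm.pow_const 2)).sqrt
  have hv0 : ∀ z, 0 ≤ v z := by
    intro z
    by_cases hz : z ∈ D
    · exact (hv.pos z hz).le
    · exact (hv.zero z hz).ge
  have hηn : ∀ x, 0 ≤ η x := by
    intro x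
    have := hanti (le_max_left x R)
    rwa [hη0 _ (le_max_right x R)] at this
  have hη' : ∀ x, deriv η x ≤ 0 := fun x => hanti.deriv_nonpos
  have hηc : Continuous (deriv η) := hη.continuous_deriv le_rfl
  have hvc := hv.cont
  -- the function `ψ = η(|z|)`
  set ψ : ℂ → ℝ := fun z => η ‖z‖ with hψ
  have hψ0 : ∀ z : ℂ, ‖z‖ < r → ψ =ᶠ[𝓝 z] fun _ => 1 := by
    intro z hz
    filter_upwards [(isOpen_lt continuous_norm continuous_const).mem_nhds hz] with w hw
    exact hη1 _ (le_of_lt hw)
  have hψs : ContDiff ℝ 1 ψ := by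
    rw [contDiff_iff_contDiffAt]
    intro z
    by_cases hz : z = 0
    · subst hz
      exact contDiffAt_const.congr_of_eventuallyEq (hψ0 0 (by simpa using hr))
    · exact hη.contDiffAt.comp z (contDiffAt_norm ℝ hz)
  have hψn : ∀ z, ∀ w : ℂ, fderiv ℝ ψ z w =
      deriv η ‖z‖ * ((z.re * w.re + z.im * w.im) / ‖z‖) := by
    intro z w
    by_cases hz : z = 0
    · subst hz
      rw [(hψ0 0 (by simpa using hr)).fderiv_eq]
      simp
    · have e1 : fderiv ℝ ψ z = (deriv η ‖z‖) • fderiv ℝ (fun w : ℂ => ‖w‖) z := by
        have e2 : HasDerivAt η (deriv η ‖z‖) ‖z‖ :=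
          (hη.differentiable one_ne_zero).differentiableAt.hasDerivAt
        have e3 : HasFDerivAt (fun w : ℂ => ‖w‖) (fderiv ℝ (fun w : ℂ => ‖w‖) z) z :=
          ((contDiffAt_norm ℝ hz (n := 1)).differentiableAt one_ne_zero).hasFDerivAt
        exact (e2.comp_hasFDerivAt z e3).fderiv
      rw [e1, _root_.smul_apply, fderiv_norm_apply hz, smul_eq_mul]
  -- the bound
  set C : ℂ → ℝ := fun z => -(deriv η ‖z‖) * min (v z) H * tr D v z with hC
  have htt : ∀ z, 0 ≤ tr D v z ∧ tr D v z ≤ 1 := by
    intro z
    unfold tr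
    have hx0 := xr_nonneg D v z
    have hx1 := xr_le D v z
    have hG0 : 0 ≤ G D v z := by
      unfold G
      split_ifs
      · exact Real.sqrt_nonneg _
      · exact le_rfl
    have hs : G D v z ≤ √(1 + G D v z ^ 2) := by
      apply Real.le_sqrt_of_sq_le
      linarith
    have hs1 : 0 < √(1 + G D v z ^ 2) := Real.sqrt_pos.2 (by positivity)
    exact ⟨by positivity, (div_le_one hs1).2 (hx1.trans hs)⟩
  have hC0 : ∀ z, 0 ≤ C z := fun z =>
    mul_nonneg (mul_nonneg (neg_nonneg.2 (hη' _)) (le_min (hv0 z) hH.le)) (htt z).1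
  have hCm : Measurable C := by
    have e1 : Continuous fun z : ℂ => -(deriv η ‖z‖) * min (v z) H := by fun_prop
    exact e1.measurable.mul htm
  have hCi : Integrable C := by
    have e1 : Continuous fun z : ℂ => -(deriv η ‖z‖) * H := by fun_prop
    have e2 : HasCompactSupport fun z : ℂ => -(deriv η ‖z‖) * H := by
      apply HasCompactSupport.intro (isCompact_closedBall (0 : ℂ) R)
      intro z hz
      rw [mem_closedBall_zero_iff, not_le] at hz
      have e3 : η =ᶠ[𝓝 ‖z‖] fun _ => 0 := by
        filter_upwards [(isOpen_lt continuous_const continuous_id).mem_nhds hz] with x hx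
        exact hη0 x (le_of_lt hx)
      have e4 : deriv η ‖z‖ = 0 := by
        rw [e3.deriv_eq]
        simp
      rw [e4]
      simp
    refine (e1.integrable_of_hasCompactSupport e2).mono' hCm.aestronglyMeasurable ?_
    refine Eventually.of_forall fun z => ?_
    rw [Real.norm_eq_abs, abs_of_nonneg (hC0 z)]
    have e3 := hη' ‖z‖
    obtain ⟨e4, e5⟩ := htt z
    have e6 : 0 ≤ min (v z) H := le_min (hv0 z) hH.le
    have e7 : min (v z) H * tr D v z ≤ H * 1 :=
      mul_le_mul (min_le_right _ _) e5 e4 hH.le
    have e8 : C z = -(deriv η ‖z‖) * (min (v z) H * tr D v z) := by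
      simp only [hC]
      ring
    rw [e8]
    have := mul_le_mul_of_nonneg_left e7 (neg_nonneg.2 e3)
    linarith
  -- the inequality for each `n`
  have key : ∀ n, ∫⁻ z, ENNReal.ofReal (η ‖z‖ * chi H n (v z) * q D v z) ≤
      ∫⁻ z, ENNReal.ofReal (C z) := by
    intro n
    have hδ : (0 : ℝ) < 1 / ((n : ℝ) + 1) := by positivity
    obtain ⟨c1, c2, c3, c4⟩ := h1 D v hv (gg H n) (1 / ((n : ℝ) + 1)) hδ (gg_smooth H n)
      fun x hx => gg_zero H n hx
    set φ : ℂ → ℝ := fun z => ψ z * gg H n (v z) with hφ
    have hφs : ContDiff ℝ 1 φ := hψs.mul c1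
    have hφD : tsupport φ ⊆ D := by
      intro z hz
      have e1 : z ∈ tsupport fun z => gg H n (v z) := tsupport_mul_subset_right hz
      have e2 : 1 / ((n : ℝ) + 1) ≤ v z := c4 e1
      by_contra h
      rw [hv.zero z h] at e2
      linarith
    have hφc : HasCompactSupport φ := by
      apply HasCompactSupport.intro (isCompact_closedBall (0 : ℂ) R)
      intro z hz
      rw [mem_closedBall_zero_iff, not_le] at hz
      show η ‖z‖ * _ = 0
      rw [hη0 _ hz.le, zero_mul]
    obtain ⟨i1, i2⟩ := h2 D v hv φ hφs hφc hφD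
    set A : ℂ → ℝ := fun z => η ‖z‖ * chi H n (v z) * q D v z with hA
    set I : ℂ → ℝ := fun z => (px v z * px φ z + py v z * py φ z) / Wd v z with hI
    have hA0 : ∀ z, 0 ≤ A z := by
      intro z
      apply mul_nonneg (mul_nonneg (hηn _) (chi_nonneg H n _))
      unfold q
      positivity
    have hAm : Measurable A := by
      have e1 : Continuous fun z : ℂ => η ‖z‖ * chi H n (v z) :=
        (hη.continuous.comp continuous_norm).mul ((chi_smooth H n).continuous.comp hvc)
      exact e1.measurable.mul hqm
    have hIA : ∀ z, |I z - A z| ≤ C z := by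
      intro z
      have f1 : fderiv ℝ φ z = ψ z • fderiv ℝ (fun z => gg H n (v z)) z +
          gg H n (v z) • fderiv ℝ ψ z :=
        fderiv_mul ((hψs.differentiable one_ne_zero) z) ((c1.differentiable one_ne_zero) z)
      by_cases hz : z ∈ D
      · have f2 := c2 z hz
        have f3 : deriv (gg H n) (v z) = chi H n (v z) := (gg_deriv H n (v z)).deriv
        rw [f2, f3] at f1
        have f4 : px φ z = ψ z * (chi H n (v z) * px v z) + gg H n (v z) * px ψ z := by
          unfold px
          rw [f1]
          simp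
        have f5 : py φ z = ψ z * (chi H n (v z) * py v z) + gg H n (v z) * py ψ z := by
          unfold py
          rw [f1]
          simp
        have hGz : G D v z = √(px v z ^ 2 + py v z ^ 2) := by
          unfold G
          rw [if_pos hz]
        have hG2 : G D v z ^ 2 = px v z ^ 2 + py v z ^ 2 := by
          rw [hGz, Real.sq_sqrt (by positivity)]
        have hW : √(1 + G D v z ^ 2) = Wd v z := by
          unfold Wd
          rw [hG2]
        have hWp : 0 < Wd v z := by
          unfold Wd
          exact Real.sqrt_pos.2 (by positivity)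
        have f6 : I z - A z = gg H n (v z) * (px v z * px ψ z + py v z * py ψ z) / Wd v z := by
          simp only [hI, hA]
          unfold q
          rw [hW, hG2, f4, f5]
          simp only [hψ]
          field_simp
          ring
        have f8 : |px v z * px ψ z + py v z * py ψ z| ≤ -(deriv η ‖z‖) * xr D v z := by
          have g1 : px ψ z = deriv η ‖z‖ * (z.re / ‖z‖) := by
            unfold px
            rw [hψn]
            simp
          have g2 : py ψ z = deriv η ‖z‖ * (z.im / ‖z‖) := by
            unfold py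
            rw [hψn]
            simp
          have g3 : px v z * px ψ z + py v z * py ψ z =
              deriv η ‖z‖ * ((px v z * z.re + py v z * z.im) / ‖z‖) := by
            rw [g1, g2]
            ring
          rw [g3, abs_mul, abs_of_nonpos (hη' _), abs_div, abs_norm]
          unfold xr
          rw [if_pos hz]
        rw [f6, abs_div, abs_mul, abs_of_pos hWp, abs_of_nonneg (gg_nonneg H n (hv0 z)),
          div_le_iff₀ hWp]
        have f9 : C z * Wd v z = min (v z) H * (-(deriv η ‖z‖) * xr D v z) := by
          simp only [hC]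
          unfold tr
          rw [hW]
          field_simp
        rw [f9]
        exact mul_le_mul (gg_le H hH n (hv0 z)) f8 (abs_nonneg _) (le_min (hv0 z) hH.le)
      · have f2 := c3 z hz
        have f3 : gg H n (v z) = 0 := by
          rw [hv.zero z hz]
          exact gg_zero H n hδ.le
        rw [f2, f3, smul_zero, zero_smul, add_zero] at f1
        have f4 : I z = 0 := by
          simp only [hI]
          unfold px py
          rw [f1]
          simp
        have f5 : A z = 0 := by
          simp only [hA]
          unfold q G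
          rw [if_neg hz]
          simp
        rw [f4, f5, sub_zero, abs_zero]
        exact hC0 z
    have hBi : Integrable fun z => I z - A z := by
      refine hCi.mono' (i1.aestronglyMeasurable.sub hAm.aestronglyMeasurable) ?_
      exact Eventually.of_forall fun z => by
        rw [Real.norm_eq_abs]
        exact hIA z
    have hAi : Integrable A := by
      have := i1.sub hBi
      refine this.congr (Eventually.of_forall fun z => ?_)
      show I z - (I z - A z) = A z
      ring
    have e1 : ∫ z, A z ≤ ∫ z, C z := by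
      have e2 : ∫ z, A z = -∫ z, (I z - A z) := by
        rw [integral_sub i1 hAi, i2]
        ring
      rw [e2, ← integral_neg]
      apply integral_mono hBi.neg hCi
      intro z
      have := (abs_le.1 (hIA z)).1
      show -(I z - A z) ≤ C z
      linarith
    rw [← ofReal_integral_eq_lintegral_ofReal hAi (Eventually.of_forall hA0),
      ← ofReal_integral_eq_lintegral_ofReal hCi (Eventually.of_forall hC0)]
    exact ENNReal.ofReal_le_ofReal e1
  have hle : ∀ z, ENNReal.ofReal (η ‖z‖ * {z | v z < H}.indicator (q D v) z) ≤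
      liminf (fun n => ENNReal.ofReal (η ‖z‖ * chi H n (v z) * q D v z)) atTop := by
    intro z
    by_cases hz : z ∈ D ∧ v z < H
    · obtain ⟨hzD, hzH⟩ := hz
      have e1 : (fun _ : ℕ => ENNReal.ofReal (η ‖z‖ * {z | v z < H}.indicator (q D v) z)) =ᶠ[atTop]
          fun n => ENNReal.ofReal (η ‖z‖ * chi H n (v z) * q D v z) := by
        filter_upwards [chi_one (hv.pos z hzD) hzH] with n hn
        rw [hn, indicator_of_mem (show z ∈ {z | v z < H} from hzH), mul_one]
      rw [(tendsto_const_nhds.congr' e1).liminf_eq]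
    · have e1 : {z | v z < H}.indicator (q D v) z = 0 := by
        by_cases hzD : z ∈ D
        · have e2 : z ∉ {z | v z < H} := fun h => hz ⟨hzD, h⟩
          exact indicator_of_notMem e2 (q D v)
        · have e2 : q D v z = 0 := by
            unfold q G
            rw [if_neg hzD]
            simp
          by_cases hzH : z ∈ {z | v z < H}
          · rw [indicator_of_mem hzH, e2]
          · exact indicator_of_notMem hzH (q D v)
      rw [e1, mul_zero, ENNReal.ofReal_zero]
      exact bot_le
  calc ∫⁻ z, ENNReal.ofReal (η ‖z‖ * {z | v z < H}.indicator (q D v) z) ≤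
      ∫⁻ z, liminf (fun n => ENNReal.ofReal (η ‖z‖ * chi H n (v z) * q D v z)) atTop :=
        lintegral_mono hle
    _ ≤ liminf (fun n => ∫⁻ z, ENNReal.ofReal (η ‖z‖ * chi H n (v z) * q D v z)) atTop := by
        apply lintegral_liminf_le
        intro n
        have e1 : Continuous fun z : ℂ => η ‖z‖ * chi H n (v z) :=
          (hη.continuous.comp continuous_norm).mul ((chi_smooth H n).continuous.comp hvc)
        exact (e1.measurable.mul hqm).ennreal_ofReal
    _ ≤ liminf (fun _ : ℕ => ∫⁻ z, ENNReal.ofReal (C z)) atTop :=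
        liminf_le_liminf (Eventually.of_forall key)
    _ = _ := by
        rw [liminf_const]
        rfl

end Pool.Agent.W5h42.MG
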