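import Pool.Agent.W5h42.MG.Defs

/-!
# Minimal graphs: tangential and radial derivatives (threshold 4/3)
-/

set_option autoImplicit false

open MeasureTheory Set Filter Topology
open scoped ENNReal ContDiff

namespace Pool.Agent.W5h42.MG

open Classical in
/-- `|∂_ν v|`, the radial derivative, on `D`, zero off `D`: the derivative in the direction
`z/|z|` -/
noncomputable def xr (D : Set ℂ) (v : ℂ → ℝ) (z : ℂ) : ℝ :=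
  if z ∈ D then |px v z * z.re + py v z * z.im| / ‖z‖ else 0

open Classical in
/-- `|∂_τ v|`, the tangential derivative, on `D`, zero off `D`: the derivative in the direction
`i z/|z|` -/
noncomputable def yt (D : Set ℂ) (v : ℂ → ℝ) (z : ℂ) : ℝ :=
  if z ∈ D then |-(px v z * z.im) + py v z * z.re| / ‖z‖ else 0

/-- (PW) the pointwise inequality. With `G² = x² + y²`, `W² = 1 + G²`: by Cauchy-Schwarz
`μ x/W + θ y ≤ G √(μ²/W² + θ²)`; squared, times `W²`, it is enough that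
`P = (W²-1)(μ² + θ² W²) ≤ ((3/8)(W²-1) + 2θμW)²`. For `μ ≤ 3/8` take `θ = μ` (`s = μ²`,
`P` is a quadratic polynomial in `s` with negative discriminant for `W² + 1 < 3W`, otherwise
decreasing on `[0, 9/64]`), for `μ ≥ 3/8` take `θ = 3/8`: with `g = W² - 1`, 64 times the difference
is `μ²(36 - 28g) + 36 μ W g - 9 g` (concave or increasing in `μ`; check `μ = 3/8`, `μ = 27/8`). -/
def S_PW : Prop := ∀ μ : ℝ, 0 ≤ μ → μ ≤ 27 / 8 → ∃ θ : ℝ, 0 ≤ θ ∧ ∀ x y : ℝ, 0 ≤ x → 0 ≤ y →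
  μ * (x / √(1 + (x ^ 2 + y ^ 2))) + θ * y ≤
    3 / 8 * ((x ^ 2 + y ^ 2) / √(1 + (x ^ 2 + y ^ 2))) + 2 * θ * μ

/-- (XY) `G² = xr² + yt²` (`z ≠ 0`), measurability -/
def S_XY : Prop := ∀ (D : Set ℂ) (v : ℂ → ℝ), Ext D v →
  (∀ z, z ≠ 0 → G D v z ^ 2 = xr D v z ^ 2 + yt D v z ^ 2) ∧
  Measurable (xr D v) ∧ Measurable (yt D v)

/-- (ENR) as (EN), with the radial derivative on the right (`∇(η(|z|)) = η'(|z|) z/|z|`) -/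
def S_ENR : Prop := ∀ (D : Set ℂ) (v : ℂ → ℝ), Ext D v → ∀ (η : ℝ → ℝ) (r R : ℝ), 0 < r → r < R →
  ContDiff ℝ 1 η → Antitone η → (∀ x ≤ r, η x = 1) → (∀ x, R ≤ x → η x = 0) →
  ∀ H : ℝ, 0 < H →
  ∫⁻ z, ENNReal.ofReal (η ‖z‖ * {z | v z < H}.indicator (q D v) z) ≤
    ∫⁻ z, ENNReal.ofReal (-(deriv η ‖z‖) * min (v z) H *
      (xr D v z / √(1 + G D v z ^ 2)))

/-- (CVT) as (CV), with the tangential derivative -/
def S_CVT : Prop := ∀ (D : Set ℂ) (v : ℂ → ℝ), Ext D v → ∀ ρ : ℝ, 0 < ρ →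
  (∃ z, ‖z‖ = ρ ∧ z ∉ D) → ∀ z₀ : ℂ, ‖z₀‖ = ρ → 0 < v z₀ →
  ENNReal.ofReal (2 * v z₀) ≤ ∫⁻ θ in Ioo (-Real.pi) Real.pi,
    ENNReal.ofReal (ρ * yt D v (ci ρ θ))

/-- (CHT) the inequality on a circle: with `μ = M/(b ρ)` integrate (PW) over
`{θ | ci ρ θ ∈ D}` and cancel `2θμb`. -/
def S_CHT : Prop := ∀ (D : Set ℂ) (v : ℂ → ℝ), Ext D v → ∀ b ρ M : ℝ, 0 < b → 0 < ρ → 0 ≤ M →
  M ≤ 27 / 8 * b * ρ → ang D ρ ≤ ENNReal.ofReal b →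
  ENNReal.ofReal (2 * M) ≤ ∫⁻ θ in Ioo (-Real.pi) Real.pi, ENNReal.ofReal (ρ * yt D v (ci ρ θ)) →
  ENNReal.ofReal M * ∫⁻ θ in Ioo (-Real.pi) Real.pi,
      ENNReal.ofReal (xr D v (ci ρ θ) / √(1 + G D v (ci ρ θ) ^ 2)) ≤
    ENNReal.ofReal (3 / 8 * b * ρ) * ∫⁻ θ in Ioo (-Real.pi) Real.pi,
      ENNReal.ofReal (q D v (ci ρ θ))

/-- (GRT) growth of the energy: as (GR), the constant is `(3/8) b R/(R - r)`; `M(ρ)` is the maximum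
of `v` on the circle. -/
def S_GRT : Prop := ∀ (D : Set ℂ) (v : ℂ → ℝ), Ext D v → ∀ b r₀ : ℝ, 0 < b → 0 < r₀ → Thin D b r₀ →
  (∀ z : ℂ, r₀ ≤ ‖z‖ → v z ≤ 27 / 8 * b * ‖z‖) → ∀ r R : ℝ, r₀ ≤ r → r < R →
  ∫⁻ z in {z : ℂ | ‖z‖ < r}, ENNReal.ofReal (q D v z) ≤
    ENNReal.ofReal (3 / 8 * b * R / (R - r)) *
      ∫⁻ z in {z : ℂ | r < ‖z‖ ∧ ‖z‖ < R}, ENNReal.ofReal (q D v z)

end Pool.Agent.W5h42.MG
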