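import Pool.Agent.W5h42.MG.Gr
import Pool.Agent.W5h42.MG.Defs4

/-!
# MP_714120_an, piece (GRT): growth of the energy, radial and tangential derivatives
-/

set_option autoImplicit false

open MeasureTheory Set Filter Topology
open scoped ENNReal ContDiff

namespace Pool.Agent.W5h42.MG

namespace GRTH

open GRH

lemma xr_nonneg (D : Set ℂ) (v : ℂ → ℝ) (z : ℂ) : 0 ≤ xr D v z := by
  unfold xr
  split_ifs
  · positivity
  · exact le_rfl

lemma aux (h1 : S_ENR) (h2 : S_CVT) (h3 : S_PO) (h5 : S_ME) (h6 : S_XY) (h7 : S_CHT) (h8 : S_CO)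
    {D : Set ℂ} {v : ℂ → ℝ} (hE : Ext D v) {b r₀ : ℝ} (hb : 0 < b) (hr₀ : 0 < r₀)
    (hT : Thin D b r₀) (hvb : ∀ z : ℂ, r₀ ≤ ‖z‖ → v z ≤ 27 / 8 * b * ‖z‖)
    {r R c : ℝ} (hr : r₀ ≤ r) (hR : r < R) (hc : 1 < c) :
    ∫⁻ z in {z : ℂ | ‖z‖ < r}, ENNReal.ofReal (q D v z) ≤
      ENNReal.ofReal (c * (3 / 8 * b * R / (R - r))) *
        ∫⁻ z in {z : ℂ | r < ‖z‖ ∧ ‖z‖ < R}, ENNReal.ofReal (q D v z) := by
  have hrpos : 0 < r := hr₀.trans_le hr
  have hR0 : 0 < R := hrpos.trans hR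
  have hRr : 0 < R - r := by linarith
  have hc0 : 0 < c := by linarith
  obtain ⟨hGm, hqm, httm⟩ := h5 D v hE
  obtain ⟨_, hxm, hym⟩ := h6 D v hE
  set xt : ℂ → ℝ := fun z => xr D v z / √(1 + G D v z ^ 2) with hxt
  have hxtm : Measurable xt := hxm.div ((measurable_const.add (hGm.pow_const 2)).sqrt)
  have hxt0 : ∀ z, 0 ≤ xt z := fun z => div_nonneg (xr_nonneg D v z) (Real.sqrt_nonneg _)
  obtain ⟨M, hM⟩ := (isCompact_closedBall (0:ℂ) R).exists_bound_of_continuousOn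
    hE.cont.continuousOn
  set H : ℝ := max M 0 + 1 with hH
  have hH0 : 0 < H := by
    have := le_max_right M 0
    linarith
  have hvH : ∀ z : ℂ, ‖z‖ ≤ R → v z < H := by
    intro z hz
    have h := hM z (by rw [mem_closedBall_zero_iff]; exact hz)
    have h' := (Real.le_norm_self (v z)).trans h
    have := le_max_left M 0
    linarith
  obtain ⟨η, hη, hanti, hη1, hη0, hηc⟩ := h8 r R c hR hc
  have hdc : Continuous (deriv η) := hη.continuous_deriv (by norm_num)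
  have hle1 : ∀ x, η x ≤ 1 := by
    intro x
    rcases le_total x r with h | h
    · exact (hη1 x h).le
    · exact (hanti h).trans (hη1 r le_rfl).le
  have hge0 : ∀ x, 0 ≤ η x := by
    intro x
    rcases le_total x R with h | h
    · exact (hη0 R le_rfl).ge.trans (hanti h)
    · exact (hη0 x h).ge
  have hd0 : ∀ x, 0 ≤ -(deriv η x) := by
    intro x
    have := Antitone.deriv_nonpos hanti (x := x)
    linarith
  have hdr : ∀ x ≤ r, deriv η x = 0 := fun x hx =>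
    IsLocalMax.deriv_eq_zero (Eventually.of_forall fun y => by rw [hη1 x hx]; exact hle1 y)
  have hdR : ∀ x, R ≤ x → deriv η x = 0 := fun x hx =>
    IsLocalMin.deriv_eq_zero (Eventually.of_forall fun y => by rw [hη0 x hx]; exact hge0 y)
  have hen := h1 D v hE η r R hrpos hR hη hanti hη1 hη0 H hH0
  have hL : ∫⁻ z in {z : ℂ | ‖z‖ < r}, ENNReal.ofReal (q D v z) ≤
      ∫⁻ z, ENNReal.ofReal (η ‖z‖ * {z | v z < H}.indicator (q D v) z) := by
    have hm : MeasurableSet {z : ℂ | ‖z‖ < r} := measurableSet_lt measurable_norm measurable_const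
    rw [← lintegral_indicator hm]
    refine lintegral_mono fun z => ?_
    by_cases hz : z ∈ {z : ℂ | ‖z‖ < r}
    · have hz' : ‖z‖ < r := hz
      have hzH : z ∈ {z | v z < H} := hvH z (hz'.le.trans hR.le)
      rw [indicator_of_mem hz, hη1 _ hz'.le, one_mul, indicator_of_mem hzH]
    · rw [indicator_of_notMem hz]
      exact zero_le
  set F : ℂ → ℝ≥0∞ := fun z => ENNReal.ofReal (-(deriv η ‖z‖)) *
    (ENNReal.ofReal (v z) * ENNReal.ofReal (xt z)) with hF
  have hFm : Measurable F :=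
    ((hdc.comp continuous_norm).neg.measurable.ennreal_ofReal).mul
      (hE.cont.measurable.ennreal_ofReal.mul hxtm.ennreal_ofReal)
  have hRle : ∫⁻ z, ENNReal.ofReal (-(deriv η ‖z‖) * min (v z) H *
      (xr D v z / √(1 + G D v z ^ 2))) ≤
      ∫⁻ z in {z : ℂ | r < ‖z‖ ∧ ‖z‖ < R}, F z := by
    have hm : MeasurableSet {z : ℂ | r < ‖z‖ ∧ ‖z‖ < R} :=
      (measurableSet_lt measurable_const measurable_norm).inter
        (measurableSet_lt measurable_norm measurable_const)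
    rw [← lintegral_indicator hm]
    refine lintegral_mono fun z => ?_
    show ENNReal.ofReal (-(deriv η ‖z‖) * min (v z) H * xt z) ≤ _
    by_cases hz : z ∈ {z : ℂ | r < ‖z‖ ∧ ‖z‖ < R}
    · rw [indicator_of_mem hz, hF]
      simp only
      rw [← ENNReal.ofReal_mul (v_nonneg hE z), ← ENNReal.ofReal_mul (hd0 _)]
      apply ENNReal.ofReal_le_ofReal
      have hm1 : min (v z) H ≤ v z := min_le_left _ _
      have ht := hxt0 z
      have hd := hd0 ‖z‖
      calc -(deriv η ‖z‖) * min (v z) H * xt z ≤ -(deriv η ‖z‖) * v z * xt z := by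
            gcongr
        _ = -(deriv η ‖z‖) * (v z * xt z) := by ring
    · rw [indicator_of_notMem hz]
      have h0 : deriv η ‖z‖ = 0 := by
        by_contra hne
        apply hz
        refine ⟨?_, ?_⟩
        · by_contra hcon
          exact hne (hdr _ (not_lt.1 hcon))
        · by_contra hcon
          exact hne (hdR _ (not_lt.1 hcon))
      rw [h0]
      simp
  have hpol := h3 F hFm r R hrpos.le
  have hpolq := h3 (fun z => ENNReal.ofReal (q D v z)) hqm.ennreal_ofReal r R hrpos.le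
  have hin : ∀ ρ ∈ Ioo r R, ∫⁻ θ in Ioo (-Real.pi) Real.pi, ENNReal.ofReal ρ * F (ci ρ θ) ≤
      ENNReal.ofReal (c * (3 / 8 * b * R / (R - r))) *
        ∫⁻ θ in Ioo (-Real.pi) Real.pi, ENNReal.ofReal ρ * ENNReal.ofReal (q D v (ci ρ θ)) := by
    intro ρ hρ
    have hρ0 : 0 < ρ := hrpos.trans hρ.1
    have hρr : r₀ ≤ ρ := hr.trans hρ.1.le
    have hTρ := hT ρ hρr
    set IX := ∫⁻ θ in Ioo (-Real.pi) Real.pi, ENNReal.ofReal (xt (ci ρ θ)) with hIX
    set IQ := ∫⁻ θ in Ioo (-Real.pi) Real.pi, ENNReal.ofReal (q D v (ci ρ θ)) with hIQ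
    -- the maximum on the circle
    have hne : (Metric.sphere (0 : ℂ) ρ).Nonempty :=
      ⟨ci ρ 0, by rw [mem_sphere_zero_iff_norm]; exact norm_ci hρ0.le 0⟩
    obtain ⟨z₀, hz₀, hmax⟩ := (isCompact_sphere (0 : ℂ) ρ).exists_isMaxOn hne
      hE.cont.continuousOn
    have hz₀n : ‖z₀‖ = ρ := by simpa [mem_sphere_zero_iff_norm] using hz₀
    have hvm : ∀ θ, v (ci ρ θ) ≤ v z₀ := fun θ => hmax (by
      show ci ρ θ ∈ Metric.sphere (0 : ℂ) ρ
      rw [mem_sphere_zero_iff_norm]; exact norm_ci hρ0.le θ)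
    have hm0 : 0 ≤ v z₀ := v_nonneg hE z₀
    have hmb : v z₀ ≤ 27 / 8 * b * ρ := by
      have := hvb z₀ (by rw [hz₀n]; exact hρr)
      rwa [hz₀n] at this
    have hch : ENNReal.ofReal (v z₀) * IX ≤ ENNReal.ofReal (3 / 8 * b * ρ) * IQ := by
      rcases hm0.eq_or_lt with h0 | hpos
      · rw [← h0, ENNReal.ofReal_zero, zero_mul]
        exact zero_le
      · exact h7 D v hE b ρ (v z₀) hb hρ0 hm0 hmb hTρ.2 (h2 D v hE ρ hρ0 hTρ.1 z₀ hz₀n hpos)
    have hpt : ∀ θ, ENNReal.ofReal ρ * F (ci ρ θ) ≤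
        (ENNReal.ofReal ρ * (ENNReal.ofReal (c / (R - r)) * ENNReal.ofReal (v z₀))) *
          ENNReal.ofReal (xt (ci ρ θ)) := by
      intro θ
      rw [hF]
      simp only [norm_ci hρ0.le]
      calc ENNReal.ofReal ρ * (ENNReal.ofReal (-(deriv η ρ)) *
            (ENNReal.ofReal (v (ci ρ θ)) * ENNReal.ofReal (xt (ci ρ θ))))
          ≤ ENNReal.ofReal ρ * (ENNReal.ofReal (c / (R - r)) *
            (ENNReal.ofReal (v z₀) * ENNReal.ofReal (xt (ci ρ θ)))) := by
            gcongr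
            · exact hηc ρ
            · exact hvm θ
        _ = _ := by ring
    have hxtc : Measurable fun θ => ENNReal.ofReal (xt (ci ρ θ)) :=
      (hxtm.comp (continuous_ci ρ).measurable).ennreal_ofReal
    have hρR : ρ ≤ R := hρ.2.le
    calc ∫⁻ θ in Ioo (-Real.pi) Real.pi, ENNReal.ofReal ρ * F (ci ρ θ)
        ≤ ∫⁻ θ in Ioo (-Real.pi) Real.pi,
          (ENNReal.ofReal ρ * (ENNReal.ofReal (c / (R - r)) * ENNReal.ofReal (v z₀))) *
            ENNReal.ofReal (xt (ci ρ θ)) := lintegral_mono hpt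
      _ = (ENNReal.ofReal ρ * (ENNReal.ofReal (c / (R - r)) * ENNReal.ofReal (v z₀))) *
            IX := lintegral_const_mul _ hxtc
      _ = (ENNReal.ofReal ρ * ENNReal.ofReal (c / (R - r))) *
            (ENNReal.ofReal (v z₀) * IX) := by ring
      _ ≤ (ENNReal.ofReal ρ * ENNReal.ofReal (c / (R - r))) *
            (ENNReal.ofReal (3 / 8 * b * ρ) * IQ) := mul_le_mul' le_rfl hch
      _ = (ENNReal.ofReal (c / (R - r)) * ENNReal.ofReal (3 / 8 * b * ρ)) *
            (ENNReal.ofReal ρ * IQ) := by ring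
      _ = ENNReal.ofReal (c / (R - r) * (3 / 8 * b * ρ)) * (ENNReal.ofReal ρ * IQ) := by
          rw [← ENNReal.ofReal_mul (by positivity)]
      _ ≤ ENNReal.ofReal (c * (3 / 8 * b * R / (R - r))) * (ENNReal.ofReal ρ * IQ) := by
          refine mul_le_mul' (ENNReal.ofReal_le_ofReal ?_) le_rfl
          have : c * (3 / 8 * b * R / (R - r)) = c / (R - r) * (3 / 8 * b * R) := by
            field_simp
          rw [this]
          gcongr
      _ = ENNReal.ofReal (c * (3 / 8 * b * R / (R - r))) *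
        ∫⁻ θ in Ioo (-Real.pi) Real.pi, ENNReal.ofReal ρ * ENNReal.ofReal (q D v (ci ρ θ)) := by
          rw [hIQ, lintegral_const_mul' _ _ ENNReal.ofReal_ne_top]
  calc ∫⁻ z in {z : ℂ | ‖z‖ < r}, ENNReal.ofReal (q D v z)
      ≤ ∫⁻ z in {z : ℂ | r < ‖z‖ ∧ ‖z‖ < R}, F z := (hL.trans hen).trans hRle
    _ = ∫⁻ ρ in Ioo r R, ∫⁻ θ in Ioo (-Real.pi) Real.pi, ENNReal.ofReal ρ * F (ci ρ θ) := hpol
    _ ≤ ∫⁻ ρ in Ioo r R, ENNReal.ofReal (c * (3 / 8 * b * R / (R - r))) *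
        ∫⁻ θ in Ioo (-Real.pi) Real.pi, ENNReal.ofReal ρ * ENNReal.ofReal (q D v (ci ρ θ)) :=
        setLIntegral_mono' measurableSet_Ioo hin
    _ = ENNReal.ofReal (c * (3 / 8 * b * R / (R - r))) * ∫⁻ ρ in Ioo r R,
        ∫⁻ θ in Ioo (-Real.pi) Real.pi, ENNReal.ofReal ρ * ENNReal.ofReal (q D v (ci ρ θ)) :=
        lintegral_const_mul' _ _ ENNReal.ofReal_ne_top
    _ = _ := by rw [hpolq]

end GRTH

open GRTH in
/-- (GRT) -/
theorem grt (h1 : S_ENR) (h2 : S_CVT) (h3 : S_PO) (h5 : S_ME) (h6 : S_XY) (h7 : S_CHT)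
    (h8 : S_CO) : S_GRT := by
  intro D v hE b r₀ hb hr₀ hT hvb r R hr hR
  have hrpos : 0 < r := hr₀.trans_le hr
  have hR0 : 0 < R := hrpos.trans hR
  have hRr : 0 < R - r := by linarith
  have key := fun c (hc : 1 < c) => aux h1 h2 h3 h5 h6 h7 h8 hE hb hr₀ hT hvb hr hR hc
  have hK : ENNReal.ofReal (3 / 8 * b * R / (R - r)) ≠ 0 := by
    rw [Ne, ENNReal.ofReal_eq_zero, not_le]
    positivity
  have ht1 : Tendsto (fun c : ℝ => ENNReal.ofReal (c * (3 / 8 * b * R / (R - r)))) (𝓝[>] 1)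
      (𝓝 (ENNReal.ofReal (3 / 8 * b * R / (R - r)))) := by
    have h8 : Tendsto (fun c : ℝ => ENNReal.ofReal (c * (3 / 8 * b * R / (R - r)))) (𝓝[>] 1)
        (𝓝 (ENNReal.ofReal (1 * (3 / 8 * b * R / (R - r))))) :=
      ((ENNReal.continuous_ofReal.comp (continuous_id.mul continuous_const)).tendsto
        1).mono_left nhdsWithin_le_nhds
    rwa [one_mul] at h8
  have ht2 := ENNReal.Tendsto.mul_const (b := ∫⁻ z in {z : ℂ | r < ‖z‖ ∧ ‖z‖ < R},
    ENNReal.ofReal (q D v z)) ht1 (Or.inl hK)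
  refine ge_of_tendsto ht2 ?_
  filter_upwards [self_mem_nhdsWithin] with c hc
  exact key c hc

end Pool.Agent.W5h42.MG
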