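import Pool.Agent.W5h42.MG.Defs4

/-!
# (PW) the pointwise inequality
-/

set_option autoImplicit false

namespace Pool.Agent.W5h42.MG

/-- from the squared inequality to the inequality -/
theorem pw_fin {μ θ x y W : ℝ} (hμ : 0 ≤ μ) (hθ : 0 ≤ θ)
    (hW : 1 ≤ W) (hWW : W ^ 2 = 1 + (x ^ 2 + y ^ 2))
    (h : (W ^ 2 - 1) * (μ ^ 2 + θ ^ 2 * W ^ 2) ≤ (3 / 8 * (W ^ 2 - 1) + 2 * θ * μ * W) ^ 2) :
    μ * (x / W) + θ * y ≤ 3 / 8 * ((x ^ 2 + y ^ 2) / W) + 2 * θ * μ := by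
  have hW0 : 0 < W := by linarith
  have hg : x ^ 2 + y ^ 2 = W ^ 2 - 1 := by linarith
  have hQ : 0 ≤ 3 / 8 * (W ^ 2 - 1) + 2 * θ * μ * W := by
    have h1 : 0 ≤ x ^ 2 + y ^ 2 := by positivity
    have h2 : 0 ≤ 2 * θ * μ * W := by positivity
    linarith
  have hcs : (μ * x + θ * W * y) ^ 2 ≤ (W ^ 2 - 1) * (μ ^ 2 + θ ^ 2 * W ^ 2) := by
    rw [← hg]
    nlinarith [sq_nonneg (μ * y - θ * W * x)]
  have h1 : μ * x + θ * W * y ≤ 3 / 8 * (W ^ 2 - 1) + 2 * θ * μ * W :=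
    (le_abs_self _).trans (abs_le_of_sq_le_sq (hcs.trans h) hQ)
  have h2 : μ * (x / W) + θ * y = (μ * x + θ * W * y) / W := by
    field_simp
  have h3 : 3 / 8 * ((x ^ 2 + y ^ 2) / W) + 2 * θ * μ =
      (3 / 8 * (W ^ 2 - 1) + 2 * θ * μ * W) / W := by
    rw [hg]
    field_simp
  rw [h2, h3]
  exact div_le_div_of_nonneg_right h1 hW0.le

theorem pw : S_PW := by
  intro μ hμ hμ'
  have key : ∃ θ : ℝ, 0 ≤ θ ∧ ∀ W : ℝ, 1 ≤ W →
      (W ^ 2 - 1) * (μ ^ 2 + θ ^ 2 * W ^ 2) ≤ (3 / 8 * (W ^ 2 - 1) + 2 * θ * μ * W) ^ 2 := by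
    rcases le_total μ (3 / 8) with h | h
    · refine ⟨μ, hμ, fun W hW => ?_⟩
      -- s = μ²
      obtain ⟨s, hs⟩ : ∃ s, s = μ ^ 2 := ⟨_, rfl⟩
      have hs0 : 0 ≤ s := by rw [hs]; positivity
      have hs1 : s ≤ 9 / 64 := by rw [hs]; nlinarith
      have hg : 0 ≤ W ^ 2 - 1 := by nlinarith
      have hpoly : 0 ≤ 4 * W ^ 2 * s ^ 2 + s * (W ^ 2 - 1) * (3 * W / 2 - (W ^ 2 + 1)) +
          9 / 64 * (W ^ 2 - 1) ^ 2 := by
        rcases le_total (W ^ 2 + 1) (3 * W) with h3 | h3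
        · -- negative discriminant
          have h4 : 0 < W ^ 2 := by positivity
          have h5 : 0 ≤ 16 * W ^ 2 * (4 * W ^ 2 * s ^ 2 + s * (W ^ 2 - 1) * (3 * W / 2 - (W ^ 2 + 1)) +
              9 / 64 * (W ^ 2 - 1) ^ 2) := by
            have h6 : 16 * W ^ 2 * (4 * W ^ 2 * s ^ 2 + s * (W ^ 2 - 1) * (3 * W / 2 - (W ^ 2 + 1)) +
              9 / 64 * (W ^ 2 - 1) ^ 2) =
              (8 * W ^ 2 * s + (W ^ 2 - 1) * (3 * W / 2 - (W ^ 2 + 1))) ^ 2 +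
                (W ^ 2 - 1) ^ 2 * ((3 * W - (W ^ 2 + 1)) * (W ^ 2 + 1)) := by ring
            rw [h6]
            have h7 : 0 ≤ (3 * W - (W ^ 2 + 1)) * (W ^ 2 + 1) :=
              mul_nonneg (by linarith) (by positivity)
            positivity
          by_contra h8
          push Not at h8
          have : 16 * W ^ 2 * (4 * W ^ 2 * s ^ 2 + s * (W ^ 2 - 1) * (3 * W / 2 - (W ^ 2 + 1)) +
              9 / 64 * (W ^ 2 - 1) ^ 2) < 0 := mul_neg_of_pos_of_neg (by positivity) h8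
          linarith
        · have hW2 : 13 / 5 ≤ W := by
            by_contra h4
            push Not at h4
            nlinarith
          have hW3 : 144 / 25 ≤ W ^ 2 - 1 := by nlinarith
          -- difference with the value at 9/64
          have h5 : 4 * W ^ 2 * s ^ 2 + s * (W ^ 2 - 1) * (3 * W / 2 - (W ^ 2 + 1)) +
              9 / 64 * (W ^ 2 - 1) ^ 2 =
              (9 / 64 - s) * ((W ^ 2 - 1) * ((W ^ 2 + 1) - 3 * W / 2) - 4 * W ^ 2 * (9 / 64 + s)) +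
              9 / 64 * (9 / 16 * W ^ 2 + (W ^ 2 - 1) * (3 * W / 2 - 2)) := by ring
          rw [h5]
          have h6 : 0 ≤ (W ^ 2 - 1) * ((W ^ 2 + 1) - 3 * W / 2) - 4 * W ^ 2 * (9 / 64 + s) := by
            have h7 : (W ^ 2) / 2 ≤ (W ^ 2 + 1) - 3 * W / 2 := by linarith
            have h8 : 144 / 25 * (W ^ 2 / 2) ≤ (W ^ 2 - 1) * ((W ^ 2 + 1) - 3 * W / 2) :=
              mul_le_mul hW3 h7 (by positivity) (by linarith)
            have h9 : 4 * W ^ 2 * (9 / 64 + s) ≤ 4 * W ^ 2 * (9 / 64 + 9 / 64) :=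
              mul_le_mul_of_nonneg_left (by linarith) (by positivity)
            have h10 : 0 ≤ W ^ 2 := by positivity
            linarith
          have h7 : 0 ≤ (W ^ 2 - 1) * (3 * W / 2 - 2) := mul_nonneg hg (by linarith)
          have h8 : 0 ≤ (9 / 64 - s) * ((W ^ 2 - 1) * ((W ^ 2 + 1) - 3 * W / 2) - 4 * W ^ 2 * (9 / 64 + s)) :=
            mul_nonneg (by linarith) h6
          positivity
      have h2 : (3 / 8 * (W ^ 2 - 1) + 2 * μ * μ * W) ^ 2 -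
          (W ^ 2 - 1) * (μ ^ 2 + μ ^ 2 * W ^ 2) =
          4 * W ^ 2 * s ^ 2 + s * (W ^ 2 - 1) * (3 * W / 2 - (W ^ 2 + 1)) +
          9 / 64 * (W ^ 2 - 1) ^ 2 := by
        rw [hs]; ring
      linarith
    · refine ⟨3 / 8, by norm_num, fun W hW => ?_⟩
      have hg : 0 ≤ W ^ 2 - 1 := by nlinarith
      -- 64 times the difference
      have hpoly : 0 ≤ μ ^ 2 * (36 - 28 * (W ^ 2 - 1)) + 36 * μ * W * (W ^ 2 - 1) -
          9 * (W ^ 2 - 1) := by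
        have e1 : 0 ≤ (3 / 8) ^ 2 * (36 - 28 * (W ^ 2 - 1)) + 36 * (3 / 8) * W * (W ^ 2 - 1) -
          9 * (W ^ 2 - 1) := by
          have : (3 / 8) ^ 2 * (36 - 28 * (W ^ 2 - 1)) + 36 * (3 / 8) * W * (W ^ 2 - 1) -
            9 * (W ^ 2 - 1) = 81 / 16 + (W ^ 2 - 1) * (27 / 2 * W - 207 / 16) := by ring
          rw [this]
          have := mul_nonneg hg (by linarith : 0 ≤ 27 / 2 * W - 207 / 16)
          linarith
        have e2 : 0 ≤ (27 / 8) ^ 2 * (36 - 28 * (W ^ 2 - 1)) + 36 * (27 / 8) * W * (W ^ 2 - 1) -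
          9 * (W ^ 2 - 1) := by
          nlinarith [mul_nonneg (by linarith : (0 : ℝ) ≤ W) (sq_nonneg (W - 2)), sq_nonneg (W - 2)]
        rcases le_total (28 * (W ^ 2 - 1)) 36 with h1 | h1
        · have h2 : (3 / 8) ^ 2 * (36 - 28 * (W ^ 2 - 1)) ≤ μ ^ 2 * (36 - 28 * (W ^ 2 - 1)) :=
            mul_le_mul_of_nonneg_right (by nlinarith) (by linarith)
          have h3 : 36 * (3 / 8) * W * (W ^ 2 - 1) ≤ 36 * μ * W * (W ^ 2 - 1) := by
            apply mul_le_mul_of_nonneg_right _ hg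
            apply mul_le_mul_of_nonneg_right _ (by linarith)
            linarith
          linarith
        · -- concave in μ
          have h2 : μ ^ 2 * (36 - 28 * (W ^ 2 - 1)) + 36 * μ * W * (W ^ 2 - 1) -
            9 * (W ^ 2 - 1) =
            (1 / 3) * ((27 / 8 - μ) * ((3 / 8) ^ 2 * (36 - 28 * (W ^ 2 - 1)) + 36 * (3 / 8) * W * (W ^ 2 - 1) -
              9 * (W ^ 2 - 1)) + (μ - 3 / 8) * ((27 / 8) ^ 2 * (36 - 28 * (W ^ 2 - 1)) +
              36 * (27 / 8) * W * (W ^ 2 - 1) - 9 * (W ^ 2 - 1))) +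
              (28 * (W ^ 2 - 1) - 36) * ((27 / 8 - μ) * (μ - 3 / 8)) := by ring
          rw [h2]
          have a1 := mul_nonneg (by linarith : 0 ≤ 27 / 8 - μ) e1
          have a2 := mul_nonneg (by linarith : 0 ≤ μ - 3 / 8) e2
          have a3 := mul_nonneg (by linarith : 0 ≤ 28 * (W ^ 2 - 1) - 36)
            (mul_nonneg (by linarith : 0 ≤ 27 / 8 - μ) (by linarith : 0 ≤ μ - 3 / 8))
          linarith
      have h2 : 64 * ((3 / 8 * (W ^ 2 - 1) + 2 * (3 / 8) * μ * W) ^ 2 -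
          (W ^ 2 - 1) * (μ ^ 2 + (3 / 8) ^ 2 * W ^ 2)) =
          μ ^ 2 * (36 - 28 * (W ^ 2 - 1)) + 36 * μ * W * (W ^ 2 - 1) -
          9 * (W ^ 2 - 1) := by ring
      linarith
  obtain ⟨θ, hθ, hk⟩ := key
  refine ⟨θ, hθ, fun x y _ _ => ?_⟩
  have hW2 : √(1 + (x ^ 2 + y ^ 2)) ^ 2 = 1 + (x ^ 2 + y ^ 2) := Real.sq_sqrt (by positivity)
  have hW1 : 1 ≤ √(1 + (x ^ 2 + y ^ 2)) := by
    rw [Real.one_le_sqrt]
    have : 0 ≤ x ^ 2 + y ^ 2 := by positivity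
    linarith
  exact pw_fin hμ hθ hW1 hW2 (hk _ hW1)

end Pool.Agent.W5h42.MG
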