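import Pool.Agent.W5h42.MG.Defs4

/-!
# Minimal graphs: (XY)
-/

set_option autoImplicit false

open MeasureTheory Set Filter Topology
open scoped ENNReal ContDiff

namespace Pool.Agent.W5h42.MG

/-- (XY) -/
theorem xy : S_XY := by
  classical
  intro D v hv
  have hx : Measurable (px v) := measurable_fderiv_apply_const ℝ v 1
  have hy : Measurable (py v) := measurable_fderiv_apply_const ℝ v Complex.I
  have hre : Measurable fun z : ℂ => z.re := Complex.measurable_re
  have him : Measurable fun z : ℂ => z.im := Complex.measurable_im
  refine ⟨fun z hz => ?_, ?_, ?_⟩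
  · unfold G xr yt
    by_cases h : z ∈ D
    · rw [if_pos h, if_pos h, if_pos h, Real.sq_sqrt (by positivity), div_pow, div_pow, sq_abs,
        sq_abs]
      have hn : ‖z‖ ^ 2 = z.re ^ 2 + z.im ^ 2 := by
        rw [← Complex.normSq_eq_norm_sq, Complex.normSq_apply]
        ring
      have h0 : ‖z‖ ^ 2 ≠ 0 := pow_ne_zero 2 (norm_ne_zero_iff.2 hz)
      rw [← add_div, eq_div_iff h0, hn]
      ring
    · rw [if_neg h, if_neg h, if_neg h]
      norm_num
  · have h : Measurable fun z : ℂ => |px v z * z.re + py v z * z.im| / ‖z‖ :=
      (((hx.mul hre).add (hy.mul him)).abs).div measurable_norm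
    have h2 := h.indicator hv.opn.measurableSet
    convert h2 using 1
    funext z
    unfold xr
    by_cases hz : z ∈ D
    · rw [if_pos hz, indicator_of_mem hz]
    · rw [if_neg hz, indicator_of_notMem hz]
  · have h : Measurable fun z : ℂ => |-(px v z * z.im) + py v z * z.re| / ‖z‖ :=
      ((((hx.mul him).neg).add (hy.mul hre)).abs).div measurable_norm
    have h2 := h.indicator hv.opn.measurableSet
    convert h2 using 1
    funext z
    unfold yt
    by_cases hz : z ∈ D
    · rw [if_pos hz, indicator_of_mem hz]
    · rw [if_neg hz, indicator_of_notMem hz]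

end Pool.Agent.W5h42.MG
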