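import Pool.Agent.W5h42.MG.All
import Pool.Agent.W5h42.MG.G3T
import Pool.Agent.W5h42.MG.Pw
import Pool.Agent.W5h42.MG.Xy
import Pool.Agent.W5h42.MG.Enr
import Pool.Agent.W5h42.MG.Cvt
import Pool.Agent.W5h42.MG.Cht
import Pool.Agent.W5h42.MG.Grt

/-!
# Assembly, threshold 4/3
-/

set_option autoImplicit false

open MeasureTheory Set Filter Topology
open scoped ENNReal ContDiff

namespace Pool.Agent.W5h42.MG

theorem sENR : S_ENR := enr cut idd me
theorem sCVT : S_CVT := cvt cut
theorem sCHT : S_CHT := cht pw xy an me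
theorem sGRT : S_GRT := grt sENR sCVT po me xy sCHT co
theorem sG3T : S_G3T := g3t sMP sA1 sVA me sG1 sGRT

theorem none2 {D : Set ℂ} {u : ℂ → ℝ} (hD : UDomain D) (h : Solution D u)
    (ha : asymptoticAngle D < ENNReal.ofReal (4 / 3)) : False := by
  obtain ⟨v, hv, -⟩ := h.ext hD
  have hfin : asymptoticAngle D ≠ ⊤ := (ha.trans ENNReal.ofReal_lt_top).ne
  set a := (asymptoticAngle D).toReal with hadef
  have ha0 : 0 ≤ a := ENNReal.toReal_nonneg
  have hae : asymptoticAngle D = ENNReal.ofReal a := (ENNReal.ofReal_toReal hfin).symm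
  have ha1 : a < 4 / 3 := by
    rw [hae, ENNReal.ofReal_lt_ofReal_iff (by norm_num)] at ha
    exact ha
  have hb : asymptoticAngle D < ENNReal.ofReal ((a + 4 / 3) / 2) := by
    rw [hae, ENNReal.ofReal_lt_ofReal_iff (by linarith)]
    linarith
  obtain ⟨r₀, hr₀, hT⟩ := thin_of_angle hb
  apply hD.unb
  refine (Metric.isBounded_ball (x := (0 : ℂ)) (r := r₀)).subset fun z hz => ?_
  rw [mem_ball_zero_iff]
  by_contra hcon
  push Not at hcon
  have h1 := sG3T D v hv ((a + 4 / 3) / 2) r₀ (by linarith) (by linarith) hr₀ hT z hcon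
  exact (hv.pos z hz).ne' h1

end Pool.Agent.W5h42.MG
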