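import Mathlib

/-!
# Minimal graphs over domains with small asymptotic angle: interface (MP_714120_an)
-/

set_option autoImplicit false

open MeasureTheory Set Filter Topology
open scoped ENNReal ContDiff

namespace Pool.Agent.W5h42.MG

/-- first partial derivative -/
noncomputable def px (v : ℂ → ℝ) (z : ℂ) : ℝ := fderiv ℝ v z 1

/-- second partial derivative -/
noncomputable def py (v : ℂ → ℝ) (z : ℂ) : ℝ := fderiv ℝ v z Complex.I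

/-- `W = √(1 + |∇v|²)` -/
noncomputable def Wd (v : ℂ → ℝ) (z : ℂ) : ℝ := √(1 + (px v z ^ 2 + py v z ^ 2))

/-- a positive solution of the minimal surface equation on the open set `D`, vanishing on the
boundary, extended by zero -/
structure Ext (D : Set ℂ) (v : ℂ → ℝ) : Prop where
  opn : IsOpen D
  cont : Continuous v
  zero : ∀ z ∉ D, v z = 0
  pos : ∀ z ∈ D, 0 < v z
  smooth : ContDiffOn ℝ 2 v D
  mse : ∀ z ∈ D, fderiv ℝ (fun w => px v w / Wd v w) z 1 +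
    fderiv ℝ (fun w => py v w / Wd v w) z Complex.I = 0

open Classical in
/-- `|∇v|` on `D`, zero off `D` -/
noncomputable def G (D : Set ℂ) (v : ℂ → ℝ) (z : ℂ) : ℝ :=
  if z ∈ D then √(px v z ^ 2 + py v z ^ 2) else 0

/-- energy density `|∇v|²/W` (zero off `D`) -/
noncomputable def q (D : Set ℂ) (v : ℂ → ℝ) (z : ℂ) : ℝ := G D v z ^ 2 / √(1 + G D v z ^ 2)

/-- `|∇v|/W` (zero off `D`) -/
noncomputable def tt (D : Set ℂ) (v : ℂ → ℝ) (z : ℂ) : ℝ := G D v z / √(1 + G D v z ^ 2)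

/-- (CUT) truncation: if `g` is smooth and `g = 0` on `(-∞, δ]`, `δ > 0`, then `g ∘ v` is `C¹` on
the plane (near a point with `v < δ` it is zero, the other points are in `D`), its differential is
`g'(v) dv` on `D` and `0` off `D`, and its support is contained in `{v ≥ δ} ⊆ D`. -/
def S_CUT : Prop := ∀ (D : Set ℂ) (v : ℂ → ℝ), Ext D v → ∀ (g : ℝ → ℝ) (δ : ℝ), 0 < δ →
  ContDiff ℝ 2 g → (∀ x ≤ δ, g x = 0) →
  ContDiff ℝ 1 (fun z => g (v z)) ∧ (∀ z ∈ D, fderiv ℝ (fun z => g (v z)) z =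
    deriv g (v z) • fderiv ℝ v z) ∧ (∀ z ∉ D, fderiv ℝ (fun z => g (v z)) z = 0) ∧
  tsupport (fun z => g (v z)) ⊆ {z | δ ≤ v z}

/-- (ID) the weak form of the equation: `∇v/W` is `C¹` on `D`, `φ ∇v/W` is `C¹` with compact
support, its divergence is `⟨∇φ, ∇v⟩/W` and has integral zero
(`integral_mul_fderiv_eq_neg_fderiv_mul_of_integrable` with the factor `1`). -/
def S_ID : Prop := ∀ (D : Set ℂ) (v : ℂ → ℝ), Ext D v → ∀ φ : ℂ → ℝ, ContDiff ℝ 1 φ →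
  HasCompactSupport φ → tsupport φ ⊆ D →
  Integrable (fun z => (px v z * px φ z + py v z * py φ z) / Wd v z) ∧
  ∫ z, (px v z * px φ z + py v z * py φ z) / Wd v z = 0

/-- (EN) energy inequality. Use (ID) with `φ = η(|z|) g_n(v)`, `g_n' = χ_n` smooth, `0 ≤ χ_n ≤ 1`,
`χ_n = 0` off `(1/n, H - 1/n)`, `χ_n = 1` on `[2/n, H - 2/n]`, `g_n(t) = ∫_0^t χ_n`
(so `g_n(t) ≤ min t H`): `∫ η χ_n(v) q = -∫ g_n(v) ⟨∇η, ∇v⟩/W ≤ ∫ (-η') min(v,H) |∇v|/W`, and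
`χ_n(v) → 1` on `{0 < v < H}` (Fatou). -/
def S_EN : Prop := ∀ (D : Set ℂ) (v : ℂ → ℝ), Ext D v → ∀ (η : ℝ → ℝ) (r R : ℝ), 0 < r → r < R →
  ContDiff ℝ 1 η → Antitone η → (∀ x ≤ r, η x = 1) → (∀ x, R ≤ x → η x = 0) →
  ∀ H : ℝ, 0 < H →
  ∫⁻ z, ENNReal.ofReal (η ‖z‖ * {z | v z < H}.indicator (q D v) z) ≤
    ∫⁻ z, ENNReal.ofReal (-(deriv η ‖z‖) * min (v z) H * tt D v z)

/-- (MP) the maximum principle: otherwise let `m < v z₁` be larger than the maximum of `v` on the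
circle `|z| = ρ`; (ID) with `φ = g(v)` in the disc, `0` outside, `g = 0` on `(-∞, m]`, `g` strictly
increasing on `[m, ∞)`, gives `g'(v) |∇v|²/W = 0` in the disc, so `φ` has zero gradient and compact
support and is zero. -/
def S_MP : Prop := ∀ (D : Set ℂ) (v : ℂ → ℝ), Ext D v → ∀ (z₁ : ℂ) (ρ : ℝ), z₁ ≠ 0 → ‖z₁‖ ≤ ρ →
  ∃ z₂ : ℂ, ‖z₂‖ = ρ ∧ v z₁ ≤ v z₂

/-- the circle -/
noncomputable def ci (ρ θ : ℝ) : ℂ := (ρ : ℂ) * Complex.exp ((θ : ℂ) * Complex.I)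

/-- (CV) variation on a circle which contains a point off `D` (where `v = 0`) and a point with
`v ≥ H`: `w = g_n(v)` (`g_n` as in (EN)) is `C¹` on the circle, zero at the point off `D`, and
`≥ g_n(H) → H` at the other point, so `∫ |∂_θ w| ≥ 2 g_n(H)`, `|∂_θ w| ≤ ρ 1_{0 < v < H} |∇v|`. -/
def S_CV : Prop := ∀ (D : Set ℂ) (v : ℂ → ℝ), Ext D v → ∀ ρ : ℝ, 0 < ρ → (∃ z, ‖z‖ = ρ ∧ z ∉ D) →
  ∀ z₀ : ℂ, ‖z₀‖ = ρ → ∀ H : ℝ, 0 < H → H ≤ v z₀ →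
  ENNReal.ofReal (2 * H) ≤ ∫⁻ θ in Ioo (-Real.pi) Real.pi,
    ENNReal.ofReal (ρ * {z | v z < H}.indicator (G D v) (ci ρ θ))

/-- (PO) polar coordinates -/
def S_PO : Prop := ∀ f : ℂ → ℝ≥0∞, Measurable f → ∀ r R : ℝ, 0 ≤ r →
  ∫⁻ z in {z : ℂ | r < ‖z‖ ∧ ‖z‖ < R}, f z =
    ∫⁻ ρ in Ioo r R, ∫⁻ θ in Ioo (-Real.pi) Real.pi, ENNReal.ofReal ρ * f (ci ρ θ)

/-- the angular measure of `D ∩ {|z| = r}` -/
noncomputable def ang (D : Set ℂ) (r : ℝ) : ℝ≥0∞ := volume {θ ∈ Ico 0 (2 * Real.pi) | ci r θ ∈ D}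

/-- (AN) the interval `(-π, π)` gives the same angular measure -/
def S_AN : Prop := ∀ (D : Set ℂ), IsOpen D → ∀ r : ℝ,
  volume {θ ∈ Ioo (-Real.pi) Real.pi | ci r θ ∈ D} = ang D r

/-- (ME) `G D v`, `q D v` and `tt D v` are measurable -/
def S_ME : Prop := ∀ (D : Set ℂ) (v : ℂ → ℝ), Ext D v →
  Measurable (G D v) ∧ Measurable (q D v) ∧ Measurable (tt D v)

/-- thin at infinity: for `ρ ≥ r₀` the circle of radius `ρ` is not contained in `D` and the angular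
measure is at most `b` -/
def Thin (D : Set ℂ) (b r₀ : ℝ) : Prop := ∀ ρ : ℝ, r₀ ≤ ρ →
  (∃ z, ‖z‖ = ρ ∧ z ∉ D) ∧ ang D ρ ≤ ENNReal.ofReal b

/-- (A1) the flux bound: `∫_{|z| < r, v < H} q ≤ H b r`: (EN) with a cutoff from `r` to `R`,
polar coordinates: the right side is at most `H ∫_r^R (-η'(ρ)) b ρ dρ ≤ H b R`, `R → r`. -/
def S_A1 : Prop := ∀ (D : Set ℂ) (v : ℂ → ℝ), Ext D v → ∀ b r₀ : ℝ, 0 ≤ b → 0 < r₀ → Thin D b r₀ →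
  ∀ r H : ℝ, r₀ ≤ r → 0 < H →
  ∫⁻ z in {z : ℂ | ‖z‖ < r}, ENNReal.ofReal ({z | v z < H}.indicator (q D v) z) ≤
    ENNReal.ofReal (H * b * r)

/-- (A2) Caccioppoli type bound, cutoff `s²(3 - 2s)`, `s = (R - ρ)/(R - r)`, `R = 4r/3`,
`∫ η'² ρ dρ = 21/5`; Cauchy-Schwarz and `tt² ≤ q`: if `v ≤ M` for `|z| ≤ 4r/3` then
`E(r)² ≤ (21/5) b M² E(4r/3)`. -/
def S_A2 : Prop := ∀ (D : Set ℂ) (v : ℂ → ℝ), Ext D v → ∀ b r₀ : ℝ, 0 ≤ b → 0 < r₀ → Thin D b r₀ →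
  ∀ r M : ℝ, r₀ ≤ r → 0 < M → (∀ z, ‖z‖ ≤ 4 / 3 * r → v z ≤ M) →
  (∫⁻ z in {z : ℂ | ‖z‖ < r}, ENNReal.ofReal (q D v z)) ^ 2 ≤
    ENNReal.ofReal (21 / 5 * b * M ^ 2) *
      ∫⁻ z in {z : ℂ | ‖z‖ < 4 / 3 * r}, ENNReal.ofReal (q D v z)

/-- (AR) area of an annulus in `D` -/
def S_AR : Prop := ∀ (D : Set ℂ), IsOpen D → ∀ b r₀ : ℝ, 0 ≤ b → 0 < r₀ → Thin D b r₀ →
  ∀ r R : ℝ, r₀ ≤ r → r ≤ R →
  volume {z ∈ D | r < ‖z‖ ∧ ‖z‖ < R} ≤ ENNReal.ofReal (b * (R ^ 2 - r ^ 2) / 2)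

/-- (VA) variation over an annulus: (MP), (CV), (PO) -/
def S_VA : Prop := ∀ (D : Set ℂ) (v : ℂ → ℝ), Ext D v → ∀ b r₀ : ℝ, 0 ≤ b → 0 < r₀ → Thin D b r₀ →
  ∀ (z₁ : ℂ) (R : ℝ), r₀ ≤ ‖z₁‖ → ‖z₁‖ ≤ R → ∀ H : ℝ, 0 < H → H ≤ v z₁ →
  ENNReal.ofReal (2 * H * (R - ‖z₁‖)) ≤
    ∫⁻ z in {z : ℂ | ‖z₁‖ < ‖z‖ ∧ ‖z‖ < R}, ENNReal.ofReal ({z | v z < H}.indicator (G D v) z)

/-- (G1) growth: at most linear if `b < 2` -/
def S_G1 : Prop := ∀ (D : Set ℂ) (v : ℂ → ℝ), Ext D v → ∀ b r₀ : ℝ, 0 < b → b < 2 → 0 < r₀ →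
  Thin D b r₀ → ∀ z : ℂ, r₀ ≤ ‖z‖ → v z ≤ 3 / 2 * b / (2 - b) ^ 2 * ‖z‖

/-- (G2) nonexistence if `b ≤ 1/10` -/
def S_G2 : Prop := ∀ (D : Set ℂ) (v : ℂ → ℝ), Ext D v → ∀ b r₀ : ℝ, 0 < b → b ≤ 1 / 10 → 0 < r₀ →
  Thin D b r₀ → ∀ z : ℂ, r₀ ≤ ‖z‖ → v z = 0

end Pool.Agent.W5h42.MG
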