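import Pool.Agent.W5h42.MG.Defs

/-!
# Minimal graphs: sharper Caccioppoli bound
-/

set_option autoImplicit false

open MeasureTheory Set Filter Topology
open scoped ENNReal ContDiff

namespace Pool.Agent.W5h42.MG

/-- (A2X) as (A2), with an arbitrary outer radius `R` and only the energy of the annulus on the
right: cutoff `s²(3 - 2s)`, `s = (R - ρ)/(R - r)`, `∫ η'² ρ dρ = (3/5)(R + r)/(R - r)`. -/
def S_A2X : Prop := ∀ (D : Set ℂ) (v : ℂ → ℝ), Ext D v → ∀ b r₀ : ℝ, 0 ≤ b → 0 < r₀ →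
  Thin D b r₀ → ∀ r R M : ℝ, r₀ ≤ r → r < R → 0 < M → (∀ z, ‖z‖ ≤ R → v z ≤ M) →
  (∫⁻ z in {z : ℂ | ‖z‖ < r}, ENNReal.ofReal (q D v z)) ^ 2 ≤
    ENNReal.ofReal (3 / 5 * b * M ^ 2 * ((R + r) / (R - r))) *
      ∫⁻ z in {z : ℂ | r ≤ ‖z‖ ∧ ‖z‖ < R}, ENNReal.ofReal (q D v z)

end Pool.Agent.W5h42.MG
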