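import Pool.Agent.W5h42.MG.Defs

/-!
# Minimal graphs: the sharp growth of the energy
-/

set_option autoImplicit false

open MeasureTheory Set Filter Topology
open scoped ENNReal ContDiff

namespace Pool.Agent.W5h42.MG

/-- (CH) Chebyshev's inequality on the circle: `G` and `tt = G/√(1+G²)` are comonotone, so
`G(θ) tt(φ) + G(φ) tt(θ) ≤ q(θ) + q(φ)` if both points are in `D` (`q = G tt`), and all are zero off
`D`; integrate over `{θ | ci ρ θ ∈ D}²` (measure `ang D ρ` by (AN)). -/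
def S_CH : Prop := ∀ (D : Set ℂ) (v : ℂ → ℝ), Ext D v → ∀ ρ : ℝ,
  (∫⁻ θ in Ioo (-Real.pi) Real.pi, ENNReal.ofReal (G D v (ci ρ θ))) *
    (∫⁻ θ in Ioo (-Real.pi) Real.pi, ENNReal.ofReal (tt D v (ci ρ θ))) ≤
  ang D ρ * ∫⁻ θ in Ioo (-Real.pi) Real.pi, ENNReal.ofReal (q D v (ci ρ θ))

/-- (CO) cutoff -/
def S_CO : Prop := ∀ r R c : ℝ, r < R → 1 < c → ∃ η : ℝ → ℝ, ContDiff ℝ 1 η ∧ Antitone η ∧
  (∀ x ≤ r, η x = 1) ∧ (∀ x, R ≤ x → η x = 0) ∧ ∀ x, -(deriv η x) ≤ c / (R - r)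

/-- (GR) growth of the energy: `E(r) ≤ b R/(2(R - r)) (E(R) - E(r))`. (EN) with the cutoff of (CO)
and `H` larger than `v` on `|z| ≤ R`; polar coordinates; on the circle of radius `ρ`
`v ≤ (ρ/2) ∫ G dθ` by (CV), then (CH): the inner integral is at most
`(-η'(ρ)) ρ (ρ/2) ∫G ∫tt ≤ (c/(R-r)) (R/2) b ρ ∫ q dθ`; `c → 1`. -/
def S_GR : Prop := ∀ (D : Set ℂ) (v : ℂ → ℝ), Ext D v → ∀ b r₀ : ℝ, 0 ≤ b → 0 < r₀ → Thin D b r₀ →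
  ∀ r R : ℝ, r₀ ≤ r → r < R →
  ∫⁻ z in {z : ℂ | ‖z‖ < r}, ENNReal.ofReal (q D v z) ≤
    ENNReal.ofReal (b * R / (2 * (R - r))) *
      ∫⁻ z in {z : ℂ | r < ‖z‖ ∧ ‖z‖ < R}, ENNReal.ofReal (q D v z)

end Pool.Agent.W5h42.MG
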