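import Pool.Agent.W5h42.MG.Defs

/-!
# (G1) at most linear growth
-/

set_option autoImplicit false

open MeasureTheory Set Filter Topology
open scoped ENNReal ContDiff

namespace Pool.Agent.W5h42.MG

namespace GG

lemma G_nonneg (D : Set ℂ) (v : ℂ → ℝ) (z : ℂ) : 0 ≤ G D v z := by
  unfold G; split_ifs
  · exact Real.sqrt_nonneg _
  · exact le_rfl

lemma q_nonneg (D : Set ℂ) (v : ℂ → ℝ) (z : ℂ) : 0 ≤ q D v z := by
  unfold q; positivity

lemma el1 {t : ℝ} (ht : 0 ≤ t) : t ≤ t ^ 2 / √(1 + t ^ 2) + 3 / 8 := by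
  have hp : 0 < 1 + t ^ 2 := by positivity
  have hw : 0 < √(1 + t ^ 2) := Real.sqrt_pos.2 hp
  have hs : √(1 + t ^ 2) ^ 2 = 1 + t ^ 2 := Real.sq_sqrt hp.le
  set w := √(1 + t ^ 2) with hwd
  have htw : t ≤ w := by
    rw [hwd]; exact Real.le_sqrt_of_sq_le (by linarith)
  rw [← sub_nonneg]
  have : t ^ 2 / w + 3 / 8 - t = (8 * t ^ 2 + 3 * w - 8 * t * w) / (8 * w) := by
    field_simp
  rw [this]
  apply div_nonneg _ (by positivity)
  -- `8 t (w - t) ≤ 3 w`, `(w - t)(w + t) = 1`, `w + t ≥ 2t`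
  have h1 : (w - t) * (w + t) = 1 := by nlinarith
  by_contra hcon
  push Not at hcon
  -- 3 w < 8 t (w - t)
  have h2 : 3 * w * (w + t) < 8 * t * ((w - t) * (w + t)) := by nlinarith
  rw [h1] at h2
  nlinarith [sq_nonneg (t - w), sq_nonneg (3 * t - 2), mul_nonneg ht (sub_nonneg.2 htw)]

lemma el2 {t l : ℝ} (ht : 0 ≤ t) (hl : 0 < l) :
    t ≤ l + √(1 + l ^ 2) / l * (t ^ 2 / √(1 + t ^ 2)) := by
  have hw : 0 < √(1 + t ^ 2) := Real.sqrt_pos.2 (by positivity)
  have hL : 0 < √(1 + l ^ 2) := Real.sqrt_pos.2 (by positivity)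
  rcases le_total t l with h | h
  · have : 0 ≤ √(1 + l ^ 2) / l * (t ^ 2 / √(1 + t ^ 2)) := by positivity
    linarith
  · have h1 : √(1 + t ^ 2) * l ≤ √(1 + l ^ 2) * t := by
      have e1 : √(1 + t ^ 2) * l = √((1 + t ^ 2) * l ^ 2) := by
        rw [Real.sqrt_mul (by positivity), Real.sqrt_sq hl.le]
      have e2 : √(1 + l ^ 2) * t = √((1 + l ^ 2) * t ^ 2) := by
        rw [Real.sqrt_mul (by positivity), Real.sqrt_sq ht]
      rw [e1, e2]
      apply Real.sqrt_le_sqrt
      nlinarith
    have h2 : t ≤ √(1 + l ^ 2) / l * (t ^ 2 / √(1 + t ^ 2)) := by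
      rw [div_mul_div_comm, le_div_iff₀ (by positivity)]
      nlinarith
    linarith

end GG

open GG in
theorem g1 (hA1 : S_A1) (hAR : S_AR) (hVA : S_VA) (hME : S_ME) : S_G1 := by
  intro D v hE b r₀ hb hb2 hr₀ hT z hz
  have hr : 0 < ‖z‖ := lt_of_lt_of_le hr₀ hz
  by_cases hv : v z ≤ 0
  · refine hv.trans ?_
    have : 0 ≤ (2 - b) ^ 2 := sq_nonneg _
    positivity
  push Not at hv
  set H := v z with hH
  set r := ‖z‖ with hrd
  set K : ℝ := 4 / (2 - b) with hK
  have h2b : 0 < 2 - b := by linarith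
  have hK1 : 2 < K := by
    rw [hK, lt_div_iff₀ h2b]; linarith
  have hKb : (2 - b) * K = 4 := by rw [hK]; field_simp
  have hrR : r ≤ K * r := by nlinarith
  have h1 := hVA D v hE b r₀ hb.le hr₀ hT z (K * r) hz hrR H hv le_rfl
  have hmq := (hME D v hE).2.1
  -- split
  set Ann : Set ℂ := {w : ℂ | r < ‖w‖ ∧ ‖w‖ < K * r} with hAnn
  have hAm : MeasurableSet Ann :=
    (measurableSet_lt measurable_const measurable_norm).inter
      (measurableSet_lt measurable_norm measurable_const)
  have hvm : MeasurableSet {w | v w < H} := measurableSet_lt hE.cont.measurable measurable_const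
  have hf1 : Measurable fun w => ENNReal.ofReal ({w | v w < H}.indicator (q D v) w) :=
    (hmq.indicator hvm).ennreal_ofReal
  have hpt : ∀ w, ENNReal.ofReal ({w | v w < H}.indicator (G D v) w) ≤
      ENNReal.ofReal ({w | v w < H}.indicator (q D v) w) +
        D.indicator (fun _ => ENNReal.ofReal (3 / 8)) w := by
    intro w
    by_cases hw : w ∈ D
    · rw [indicator_of_mem hw, ← ENNReal.ofReal_add (indicator_nonneg (fun _ _ => q_nonneg _ _ _) _)
        (by norm_num)]
      apply ENNReal.ofReal_le_ofReal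
      by_cases hw2 : w ∈ {w | v w < H}
      · rw [indicator_of_mem hw2, indicator_of_mem hw2]
        exact el1 (G_nonneg D v w)
      · rw [indicator_of_notMem hw2, indicator_of_notMem hw2]; norm_num
    · have : G D v w = 0 := by unfold G; rw [if_neg hw]
      have e0 : {w | v w < H}.indicator (G D v) w = 0 := by
        by_cases hw2 : w ∈ {w | v w < H}
        · rw [indicator_of_mem hw2, this]
        · rw [indicator_of_notMem hw2]
      rw [e0]; simp
  have h2 : ∫⁻ w in Ann, ENNReal.ofReal ({w | v w < H}.indicator (G D v) w) ≤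
      ENNReal.ofReal (H * b * (K * r)) +
        ENNReal.ofReal (3 / 8) * ENNReal.ofReal (b * ((K * r) ^ 2 - r ^ 2) / 2) := by
    calc ∫⁻ w in Ann, ENNReal.ofReal ({w | v w < H}.indicator (G D v) w)
        ≤ ∫⁻ w in Ann, (ENNReal.ofReal ({w | v w < H}.indicator (q D v) w) +
            D.indicator (fun _ => ENNReal.ofReal (3 / 8)) w) := lintegral_mono fun w => hpt w
      _ = (∫⁻ w in Ann, ENNReal.ofReal ({w | v w < H}.indicator (q D v) w)) +
            ∫⁻ w in Ann, D.indicator (fun _ => ENNReal.ofReal (3 / 8)) w :=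
          lintegral_add_left hf1 _
      _ ≤ _ := by
          gcongr
          · refine (lintegral_mono_set ?_).trans (hA1 D v hE b r₀ hb.le hr₀ hT (K * r) H
              (hz.trans hrR) hv)
            intro w hw; exact hw.2
          · rw [lintegral_indicator hE.opn.measurableSet, setLIntegral_const]
            gcongr
            rw [Measure.restrict_apply hE.opn.measurableSet]
            refine le_trans (le_of_eq ?_) (hAR D hE.opn b r₀ hb.le hr₀ hT r (K * r) hz hrR)
            rfl
  have h3 := h1.trans h2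
  rw [← ENNReal.ofReal_mul (by norm_num), ← ENNReal.ofReal_add] at h3
  · rw [ENNReal.ofReal_le_ofReal_iff] at h3
    · -- algebra
      have h4 : H * 2 * r ≤ 3 / 16 * b * (K ^ 2 * r ^ 2) := by
        have : 2 * H * (K * r - r) - H * b * (K * r) = H * 2 * r := by
          have : (2 - b) * K * (H * r) = 4 * (H * r) := by rw [hKb]
          linarith [this]
        nlinarith [mul_pos hb (mul_pos hr hr)]
      have h5 : H ≤ 3 / 32 * b * K ^ 2 * r := by
        have : H * r ≤ (3 / 32 * b * K ^ 2 * r) * r := by nlinarith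
        exact le_of_mul_le_mul_right this hr
      refine h5.trans (le_of_eq ?_)
      rw [hK]; field_simp; ring
    · have : 0 ≤ (K * r) ^ 2 - r ^ 2 := by nlinarith
      positivity
  · have : 0 < K := by linarith
    positivity
  · have : 0 ≤ (K * r) ^ 2 - r ^ 2 := by nlinarith
    positivity

end Pool.Agent.W5h42.MG
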