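import Pool.Agent.W5h42.MG.G1

/-!
# (G2) nonexistence for small angle
-/

set_option autoImplicit false

open MeasureTheory Set Filter Topology
open scoped ENNReal ContDiff

namespace Pool.Agent.W5h42.MG

namespace GG

/-- the energy in the disc of radius `r` -/
noncomputable def En (D : Set ℂ) (v : ℂ → ℝ) (r : ℝ) : ℝ≥0∞ :=
  ∫⁻ z in {z : ℂ | ‖z‖ < r}, ENNReal.ofReal (q D v z)

/-- bound in the disc from the bound outside -/
lemma ball_bound (hMP : S_MP) {D : Set ℂ} {v : ℂ → ℝ} (hE : Ext D v) {r₀ S : ℝ} (hr₀ : 0 < r₀)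
    (hS : ∀ z : ℂ, r₀ ≤ ‖z‖ → v z ≤ S * ‖z‖) (hS0 : 0 ≤ S) {r : ℝ} (hr : r₀ ≤ r) :
    ∀ z : ℂ, ‖z‖ ≤ r → v z ≤ S * r := by
  have h1 : ∀ z : ℂ, z ≠ 0 → ‖z‖ ≤ r → v z ≤ S * r := by
    intro z hz0 hz
    obtain ⟨z₂, h2, h3⟩ := hMP D v hE z r hz0 hz
    have := hS z₂ (by rw [h2]; exact hr)
    rw [h2] at this
    exact h3.trans this
  intro z hz
  by_cases hz0 : z = 0
  · subst hz0
    -- continuity
    have hcl : (0 : ℂ) ∈ closure {z : ℂ | z ≠ 0 ∧ ‖z‖ ≤ r} := by
      rw [Metric.mem_closure_iff]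
      intro e he
      have hm : 0 < min (e / 2) r := lt_min (by positivity) (by linarith)
      refine ⟨((min (e / 2) r : ℝ) : ℂ), ⟨by exact_mod_cast hm.ne', ?_⟩, ?_⟩
      · rw [Complex.norm_real, Real.norm_eq_abs, abs_of_pos hm]; exact min_le_right _ _
      · rw [dist_comm, dist_zero_right, Complex.norm_real, Real.norm_eq_abs, abs_of_pos hm]
        exact lt_of_le_of_lt (min_le_left _ _) (by linarith)
    have hcl2 : IsClosed {z : ℂ | v z ≤ S * r} := isClosed_le hE.cont continuous_const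
    have hsub : {z : ℂ | z ≠ 0 ∧ ‖z‖ ≤ r} ⊆ {z : ℂ | v z ≤ S * r} := fun z hz => h1 z hz.1 hz.2
    exact closure_minimal hsub hcl2 hcl
  · exact h1 z hz0 hz

/-- the energy is at most quadratic, with constant `(21/5)(16/9)² S² b` -/
lemma en_bound (hMP : S_MP) (hA1 : S_A1) (hA2 : S_A2) {D : Set ℂ} {v : ℂ → ℝ} (hE : Ext D v)
    {b r₀ S : ℝ} (hb : 0 < b) (hr₀ : 0 < r₀) (hT : Thin D b r₀)
    (hS : ∀ z : ℂ, r₀ ≤ ‖z‖ → v z ≤ S * ‖z‖) (hS0 : 0 < S) {r : ℝ} (hr : r₀ ≤ r) :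
    En D v r ≤ ENNReal.ofReal (14 * S ^ 2 * b * r ^ 2) := by
  -- first bound
  have hball := fun {r : ℝ} (hr : r₀ ≤ r) => ball_bound hMP hE hr₀ hS hS0.le hr
  have h0 : ∀ r, r₀ ≤ r → En D v r ≤ ENNReal.ofReal (2 * S * b * r ^ 2) := by
    intro r hr
    have hrp : 0 < r := lt_of_lt_of_le hr₀ hr
    have h := hA1 D v hE b r₀ hb.le hr₀ hT r (2 * (S * r)) hr (by positivity)
    refine le_trans (le_of_eq ?_) (h.trans (le_of_eq (by congr 1; ring)))
    unfold En
    refine setLIntegral_congr_fun (measurableSet_lt measurable_norm measurable_const) ?_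
    intro z hz
    have : z ∈ {w | v w < 2 * (S * r)} := by
      have h1 := hball hr z (le_of_lt hz)
      have h2 : 0 < S * r := by positivity
      simp only [mem_setOf_eq]; linarith
    simp only
    rw [indicator_of_mem this]
  have hfin : ∀ r, r₀ ≤ r → En D v r ≠ ⊤ := fun r hr =>
    ne_top_of_le_ne_top ENNReal.ofReal_ne_top (h0 r hr)
  set E : ℝ → ℝ := fun r => (En D v r).toReal with hEdef
  have hEn : ∀ r, r₀ ≤ r → En D v r = ENNReal.ofReal (E r) := fun r hr =>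
    (ENNReal.ofReal_toReal (hfin r hr)).symm
  have hE0 : ∀ r, 0 ≤ E r := fun r => ENNReal.toReal_nonneg
  have h0' : ∀ r, r₀ ≤ r → E r ≤ 2 * S * b * r ^ 2 := fun r hr => by
    have := ENNReal.toReal_mono ENNReal.ofReal_ne_top (h0 r hr)
    rwa [ENNReal.toReal_ofReal (by positivity)] at this
  -- the recursion
  have hrec : ∀ r, r₀ ≤ r → E r ^ 2 ≤ 21 / 5 * b * (S * (4 / 3 * r)) ^ 2 * E (4 / 3 * r) := by
    intro r hr
    have hrp : 0 < r := lt_of_lt_of_le hr₀ hr
    have hr2 : r₀ ≤ 4 / 3 * r := by linarith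
    have h := hA2 D v hE b r₀ hb.le hr₀ hT r (S * (4 / 3 * r)) hr (by positivity) (hball hr2)
    have h' : En D v r ^ 2 ≤ ENNReal.ofReal (21 / 5 * b * (S * (4 / 3 * r)) ^ 2) *
      En D v (4 / 3 * r) := h
    rw [hEn r hr, hEn _ hr2, ← ENNReal.ofReal_pow (hE0 r), ← ENNReal.ofReal_mul (by positivity),
      ENNReal.ofReal_le_ofReal_iff (mul_nonneg (by positivity) (hE0 _))] at h'
    exact h'
  -- the best constant
  set X : Set ℝ := (fun r => E r / r ^ 2) '' Ici r₀ with hX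
  have hXne : X.Nonempty := ⟨_, ⟨r₀, mem_Ici.2 le_rfl, rfl⟩⟩
  have hXbd : BddAbove X := by
    refine ⟨2 * S * b, ?_⟩
    rintro _ ⟨r, hr, rfl⟩
    have hrp : 0 < r := lt_of_lt_of_le hr₀ hr
    simp only
    rw [div_le_iff₀ (by positivity)]
    exact h0' r hr
  set e := sSup X with he
  have hle : ∀ r, r₀ ≤ r → E r ≤ e * r ^ 2 := by
    intro r hr
    have hrp : 0 < r := lt_of_lt_of_le hr₀ hr
    have := le_csSup hXbd ⟨r, hr, rfl⟩
    simp only at this
    rwa [div_le_iff₀ (by positivity)] at this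
  have he0 : 0 ≤ e := by
    have h1 := hle r₀ le_rfl
    have h2 := hE0 r₀
    by_contra hcon
    push Not at hcon
    have : e * r₀ ^ 2 < 0 := mul_neg_of_neg_of_pos hcon (by positivity)
    linarith
  have hup : e ≤ √(14 * S ^ 2 * b * e) := by
    refine csSup_le hXne ?_
    rintro _ ⟨r, hr, rfl⟩
    have hr' : r₀ ≤ r := hr
    have hrp : 0 < r := lt_of_lt_of_le hr₀ hr'
    simp only
    apply Real.le_sqrt_of_sq_le
    rw [div_pow, div_le_iff₀ (by positivity)]
    refine (hrec r hr').trans ?_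
    have h1 := hle (4 / 3 * r) (by linarith)
    have h2 : 21 / 5 * b * (S * (4 / 3 * r)) ^ 2 * E (4 / 3 * r) ≤
        21 / 5 * b * (S * (4 / 3 * r)) ^ 2 * (e * (4 / 3 * r) ^ 2) :=
      mul_le_mul_of_nonneg_left h1 (by positivity)
    refine h2.trans ?_
    have : 0 ≤ b * S ^ 2 * e * r ^ 4 := by positivity
    nlinarith
  have hfinal : e ≤ 14 * S ^ 2 * b := by
    by_contra hcon
    push Not at hcon
    have hpos : 0 < e := lt_of_le_of_lt (by positivity) hcon
    have h1 : e ^ 2 ≤ 14 * S ^ 2 * b * e := by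
      have := pow_le_pow_left₀ he0 hup 2
      rwa [Real.sq_sqrt (by positivity)] at this
    nlinarith
  rw [hEn r hr]
  apply ENNReal.ofReal_le_ofReal
  refine (hle r hr).trans ?_
  exact mul_le_mul_of_nonneg_right hfinal (sq_nonneg r)

lemma improve (hMP : S_MP) (hA1 : S_A1) (hA2 : S_A2) (hAR : S_AR) (hVA : S_VA) (hME : S_ME)
    {D : Set ℂ} {v : ℂ → ℝ} (hE : Ext D v)
    {b r₀ S : ℝ} (hb : 0 < b) (hb1 : b ≤ 1 / 10) (hr₀ : 0 < r₀) (hT : Thin D b r₀)
    (hS : ∀ z : ℂ, r₀ ≤ ‖z‖ → v z ≤ S * ‖z‖) (hS0 : 0 < S) (hS1 : S ≤ 1 / 20) :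
    ∀ z : ℂ, r₀ ≤ ‖z‖ → v z ≤ 99 / 100 * S * ‖z‖ := by
  intro z hz
  have hr : 0 < ‖z‖ := lt_of_lt_of_le hr₀ hz
  by_cases hv : v z ≤ 0
  · refine hv.trans (by positivity)
  push Not at hv
  set H := v z with hH
  set r := ‖z‖ with hrd
  have hrR : r ≤ 2 * r := by linarith
  have h1 := hVA D v hE b r₀ hb.le hr₀ hT z (2 * r) hz hrR H hv le_rfl
  have hmq := (hME D v hE).2.1
  set Ann : Set ℂ := {w : ℂ | r < ‖w‖ ∧ ‖w‖ < 2 * r} with hAnn
  have hf1 : Measurable fun w => ENNReal.ofReal (q D v w) := hmq.ennreal_ofReal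
  set l : ℝ := 6 * S with hl
  have hlp : 0 < l := by positivity
  set c : ℝ := √(1 + l ^ 2) / l with hc
  have hcp : 0 < c := by
    have : 0 < √(1 + l ^ 2) := Real.sqrt_pos.2 (by positivity)
    positivity
  have hpt : ∀ w, ENNReal.ofReal ({w | v w < H}.indicator (G D v) w) ≤
      ENNReal.ofReal c * ENNReal.ofReal (q D v w) +
        D.indicator (fun _ => ENNReal.ofReal l) w := by
    intro w
    by_cases hw : w ∈ D
    · rw [indicator_of_mem hw, ← ENNReal.ofReal_mul hcp.le,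
        ← ENNReal.ofReal_add (mul_nonneg hcp.le (q_nonneg _ _ _)) hlp.le]
      apply ENNReal.ofReal_le_ofReal
      have := el2 (G_nonneg D v w) hlp
      refine le_trans (indicator_le_self' (fun _ _ => G_nonneg D v _) w) ?_
      unfold q
      linarith
    · have : G D v w = 0 := by unfold G; rw [if_neg hw]
      have e0 : {w | v w < H}.indicator (G D v) w = 0 := by
        by_cases hw2 : w ∈ {w | v w < H}
        · rw [indicator_of_mem hw2, this]
        · rw [indicator_of_notMem hw2]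
      rw [e0]; simp
  have h2 : ∫⁻ w in Ann, ENNReal.ofReal ({w | v w < H}.indicator (G D v) w) ≤
      ENNReal.ofReal c * ENNReal.ofReal (14 * S ^ 2 * b * (2 * r) ^ 2) +
        ENNReal.ofReal l * ENNReal.ofReal (b * ((2 * r) ^ 2 - r ^ 2) / 2) := by
    calc ∫⁻ w in Ann, ENNReal.ofReal ({w | v w < H}.indicator (G D v) w)
        ≤ ∫⁻ w in Ann, (ENNReal.ofReal c * ENNReal.ofReal (q D v w) +
            D.indicator (fun _ => ENNReal.ofReal l) w) := lintegral_mono fun w => hpt w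
      _ = (∫⁻ w in Ann, ENNReal.ofReal c * ENNReal.ofReal (q D v w)) +
            ∫⁻ w in Ann, D.indicator (fun _ => ENNReal.ofReal l) w :=
          lintegral_add_left (hf1.const_mul _) _
      _ ≤ _ := by
          gcongr
          · rw [lintegral_const_mul _ hf1]
            gcongr
            refine (lintegral_mono_set ?_).trans (en_bound hMP hA1 hA2 hE hb hr₀ hT hS hS0
              (hz.trans hrR))
            intro w hw; exact hw.2
          · rw [lintegral_indicator hE.opn.measurableSet, setLIntegral_const]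
            gcongr
            rw [Measure.restrict_apply hE.opn.measurableSet]
            refine le_trans (le_of_eq ?_) (hAR D hE.opn b r₀ hb.le hr₀ hT r (2 * r) hz hrR)
            rfl
  have h3 := h1.trans h2
  have hnn : 0 ≤ b * ((2 * r) ^ 2 - r ^ 2) / 2 := by
    have : 0 ≤ (2 * r) ^ 2 - r ^ 2 := by nlinarith
    positivity
  rw [← ENNReal.ofReal_mul hcp.le, ← ENNReal.ofReal_mul hlp.le,
    ← ENNReal.ofReal_add (by positivity) (mul_nonneg hlp.le hnn),
    ENNReal.ofReal_le_ofReal_iff (add_nonneg (by positivity) (mul_nonneg hlp.le hnn))] at h3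
  -- `2 H r ≤ c 56 S² b r² + 9 S b r²`
  have hcl : c * S = √(1 + l ^ 2) / 6 := by
    rw [hc, hl]; field_simp
  have hsq : √(1 + l ^ 2) ≤ 105 / 100 := by
    rw [Real.sqrt_le_left (by norm_num)]
    have : l ≤ 3 / 10 := by rw [hl]; linarith
    nlinarith
  have hcS : c * S ≤ 35 / 200 := by rw [hcl]; linarith
  have h4 : 2 * H * r ≤ (56 * (c * S) + 9) * (S * b * r ^ 2) := by
    rw [hl] at h3
    nlinarith
  have h5 : (56 * (c * S) + 9) * (S * b * r ^ 2) ≤ (94 / 5) * (S * b * r ^ 2) := by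
    apply mul_le_mul_of_nonneg_right _ (by positivity)
    linarith
  have h6 : (94 / 5) * (S * b * r ^ 2) ≤ 94 / 50 * (S * r ^ 2) := by
    have : 0 ≤ S * r ^ 2 := by positivity
    nlinarith
  have h7 : H * r ≤ (99 / 100 * S * r) * r := by nlinarith [mul_pos hS0 (mul_pos hr hr)]
  exact le_of_mul_le_mul_right h7 hr

end GG

open GG in
theorem g2 (hMP : S_MP) (hA1 : S_A1) (hA2 : S_A2) (hAR : S_AR) (hVA : S_VA) (hME : S_ME)
    (hG1 : S_G1) : S_G2 := by
  intro D v hE b r₀ hb hb1 hr₀ hT z hz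
  have hv0 : ∀ z, 0 ≤ v z := fun z => by
    by_cases h : z ∈ D
    · exact (hE.pos z h).le
    · rw [hE.zero z h]
  have hstep : ∀ n : ℕ, ∀ z : ℂ, r₀ ≤ ‖z‖ → v z ≤ (99 / 100) ^ n * (1 / 20) * ‖z‖ := by
    intro n
    induction n with
    | zero =>
      intro z hz
      have h := hG1 D v hE b r₀ hb (by linarith) hr₀ hT z hz
      refine h.trans ?_
      apply mul_le_mul_of_nonneg_right _ (norm_nonneg z)
      rw [div_le_iff₀ (by nlinarith)]
      nlinarith
    | succ n ih =>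
      intro z hz
      have hp : (0 : ℝ) < (99 / 100) ^ n * (1 / 20) := by positivity
      have hp1 : ((99 / 100 : ℝ)) ^ n * (1 / 20) ≤ 1 / 20 := by
        have : ((99 / 100 : ℝ)) ^ n ≤ 1 := pow_le_one₀ (by norm_num) (by norm_num)
        linarith
      have h := improve hMP hA1 hA2 hAR hVA hME hE hb hb1 hr₀ hT ih hp hp1 z hz
      refine h.trans (le_of_eq ?_)
      rw [pow_succ]; ring
  apply le_antisymm _ (hv0 z)
  have hlim : Tendsto (fun n : ℕ => ((99 / 100 : ℝ)) ^ n * (1 / 20) * ‖z‖) atTop (𝓝 (0 * (1 / 20) * ‖z‖)) :=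
    ((tendsto_pow_atTop_nhds_zero_of_lt_one (by norm_num) (by norm_num)).mul_const _).mul_const _
  have := ge_of_tendsto' hlim fun n => hstep n z hz
  simpa using this

end Pool.Agent.W5h42.MG
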