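import Pool.Agent.W5h42.MG.G2
import Pool.Agent.W5h42.MG.Defs3

/-!
# (G3) nonexistence for angle less than one
-/

set_option autoImplicit false

open MeasureTheory Set Filter Topology
open scoped ENNReal ContDiff

namespace Pool.Agent.W5h42.MG

/-- (G3) nonexistence if `b < 1` -/
def S_G3 : Prop := ∀ (D : Set ℂ) (v : ℂ → ℝ), Ext D v → ∀ b r₀ : ℝ, 0 < b → b < 1 → 0 < r₀ →
  Thin D b r₀ → ∀ z : ℂ, r₀ ≤ ‖z‖ → v z = 0

open GG in
theorem g3 (hMP : S_MP) (hA1 : S_A1) (hVA : S_VA) (hME : S_ME) (hG1 : S_G1) (hGR : S_GR) :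
    S_G3 := by
  intro D v hE b r₀ hb hb1 hr₀ hT
  have hmq := (hME D v hE).2.1
  have hmG := (hME D v hE).1
  set C₀ : ℝ := 3 / 2 * b / (2 - b) ^ 2 with hC₀
  have h2b : 0 < 2 - b := by linarith
  have hC0 : 0 < C₀ := by positivity
  have hlin : ∀ z : ℂ, r₀ ≤ ‖z‖ → v z ≤ C₀ * ‖z‖ := hG1 D v hE b r₀ hb (by linarith) hr₀ hT
  have hball := fun {r : ℝ} (hr : r₀ ≤ r) => ball_bound hMP hE hr₀ hlin hC0.le hr
  have h0 : ∀ r, r₀ ≤ r → En D v r ≤ ENNReal.ofReal (2 * C₀ * b * r ^ 2) := by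
    intro r hr
    have hrp : 0 < r := lt_of_lt_of_le hr₀ hr
    have h := hA1 D v hE b r₀ hb.le hr₀ hT r (2 * (C₀ * r)) hr (by positivity)
    refine le_trans (le_of_eq ?_) (h.trans (le_of_eq (by congr 1; ring)))
    unfold En
    refine setLIntegral_congr_fun (measurableSet_lt measurable_norm measurable_const) ?_
    intro z hz
    have : z ∈ {w | v w < 2 * (C₀ * r)} := by
      have h1 := hball hr z (le_of_lt hz)
      have h2 : 0 < C₀ * r := by positivity
      show v z < 2 * (C₀ * r)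
      linarith
    simp only
    rw [indicator_of_mem this]
  have hfin : ∀ r, r₀ ≤ r → En D v r ≠ ⊤ := fun r hr =>
    ne_top_of_le_ne_top ENNReal.ofReal_ne_top (h0 r hr)
  set E : ℝ → ℝ := fun r => (En D v r).toReal with hEdef
  have hE0 : ∀ r, 0 ≤ E r := fun r => ENNReal.toReal_nonneg
  have h0' : ∀ r, r₀ ≤ r → E r ≤ 2 * C₀ * b * r ^ 2 := fun r hr => by
    have := ENNReal.toReal_mono ENNReal.ofReal_ne_top (h0 r hr)
    rwa [ENNReal.toReal_ofReal (by positivity)] at this
  -- one step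
  have hstep : ∀ r R, r₀ ≤ r → r < R → E r * (1 + 2 * (R - r) / (b * R)) ≤ E R := by
    intro r R hr hrR
    have hrp : 0 < r := lt_of_lt_of_le hr₀ hr
    have hRp : 0 < R := hrp.trans hrR
    have hd : 0 < R - r := sub_pos.2 hrR
    set A : ℝ≥0∞ := ∫⁻ z in {z : ℂ | r < ‖z‖ ∧ ‖z‖ < R}, ENNReal.ofReal (q D v z) with hA
    have hAm : MeasurableSet {z : ℂ | r < ‖z‖ ∧ ‖z‖ < R} :=
      (measurableSet_lt measurable_const measurable_norm).inter
        (measurableSet_lt measurable_norm measurable_const)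
    have hsum : En D v r + A ≤ En D v R := by
      unfold En
      rw [hA, ← lintegral_union hAm]
      · refine lintegral_mono_set ?_
        rintro z (hz | hz)
        · exact lt_trans hz hrR
        · exact hz.2
      · rw [Set.disjoint_left]
        intro z hz hz2
        exact absurd hz2.1 (not_lt.2 (le_of_lt hz))
    have hAfin : A ≠ ⊤ := ne_top_of_le_ne_top (hfin R (hr.trans hrR.le))
      (le_trans le_add_self hsum)
    have h1 : E r + A.toReal ≤ E R := by
      have := ENNReal.toReal_mono (hfin R (hr.trans hrR.le)) hsum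
      rwa [ENNReal.toReal_add (hfin r hr) hAfin] at this
    have h2 : E r ≤ b * R / (2 * (R - r)) * A.toReal := by
      have := ENNReal.toReal_mono (ENNReal.mul_ne_top ENNReal.ofReal_ne_top hAfin)
        (hGR D v hE b r₀ hb.le hr₀ hT r R hr hrR)
      rwa [ENNReal.toReal_mul, ENNReal.toReal_ofReal (by positivity)] at this
    have h3 : E r * (2 * (R - r) / (b * R)) ≤ A.toReal := by
      calc E r * (2 * (R - r) / (b * R))
          ≤ (b * R / (2 * (R - r)) * A.toReal) * (2 * (R - r) / (b * R)) :=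
            mul_le_mul_of_nonneg_right h2 (by positivity)
        _ = A.toReal := by field_simp
    linarith
  -- the ratio
  obtain ⟨k, hk1, hk2⟩ : ∃ k : ℝ, 1 < k ∧ k * (k + 1) * b < 2 := by
    have hpos : 0 < 2 / b - 2 := by
      have : 2 < 2 / b := by rw [lt_div_iff₀ hb]; linarith
      linarith
    set δ := min 1 ((2 / b - 2) / 5) with hδ
    have hδ0 : 0 < δ := lt_min one_pos (by positivity)
    have hδ1 : δ ≤ 1 := min_le_left _ _
    have hδ2 : δ ≤ (2 / b - 2) / 5 := min_le_right _ _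
    refine ⟨1 + δ, by linarith, ?_⟩
    have h : (1 + δ) * (1 + δ + 1) < 2 / b := by nlinarith
    rwa [lt_div_iff₀ hb] at h
  have hk0 : 0 < k := by linarith
  set θ : ℝ := 1 + 2 * (k - 1) / (b * k) with hθ
  have hθk : k ^ 2 < θ := by
    rw [hθ, ← sub_lt_iff_lt_add', lt_div_iff₀ (by positivity)]
    have : k ^ 2 - 1 = (k - 1) * (k + 1) := by ring
    rw [this]
    nlinarith [mul_lt_mul_of_pos_left hk2 (sub_pos.2 hk1)]
  have hθ0 : 0 < θ := lt_trans (by positivity) hθk
  have hzero : ∀ r, r₀ ≤ r → E r = 0 := by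
    intro r hr
    have hrp : 0 < r := lt_of_lt_of_le hr₀ hr
    have hn : ∀ n : ℕ, r₀ ≤ k ^ n * r ∧ E r * θ ^ n ≤ E (k ^ n * r) := by
      intro n
      induction n with
      | zero => simpa using hr
      | succ n ih =>
        have hkn : 0 < k ^ n * r := by positivity
        have hlt : k ^ n * r < k ^ (n + 1) * r := by
          rw [pow_succ]; nlinarith
        refine ⟨ih.1.trans hlt.le, ?_⟩
        have h := hstep _ _ ih.1 hlt
        have e1 : 1 + 2 * (k ^ (n + 1) * r - k ^ n * r) / (b * (k ^ (n + 1) * r)) = θ := by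
          rw [hθ, pow_succ]; field_simp
        rw [e1] at h
        calc E r * θ ^ (n + 1) = (E r * θ ^ n) * θ := by rw [pow_succ]; ring
          _ ≤ E (k ^ n * r) * θ := mul_le_mul_of_nonneg_right ih.2 hθ0.le
          _ ≤ _ := h
    have hle : ∀ n : ℕ, E r ≤ 2 * C₀ * b * r ^ 2 * (k ^ 2 / θ) ^ n := by
      intro n
      have h1 := (hn n).2.trans (h0' _ (hn n).1)
      rw [div_pow, mul_div_assoc', le_div_iff₀ (by positivity)]
      refine h1.trans (le_of_eq ?_)
      rw [mul_pow, ← pow_mul, ← pow_mul, mul_comm n 2]; ring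
    have hlim : Tendsto (fun n : ℕ => 2 * C₀ * b * r ^ 2 * (k ^ 2 / θ) ^ n) atTop
        (𝓝 (2 * C₀ * b * r ^ 2 * 0)) :=
      (tendsto_pow_atTop_nhds_zero_of_lt_one (by positivity)
        ((div_lt_one hθ0).2 hθk)).const_mul _
    have h2 := ge_of_tendsto' hlim hle
    rw [mul_zero] at h2
    exact le_antisymm h2 (hE0 r)
  intro z hz
  have hr : 0 < ‖z‖ := lt_of_lt_of_le hr₀ hz
  have hv0 : 0 ≤ v z := by
    by_cases h : z ∈ D
    · exact (hE.pos z h).le
    · rw [hE.zero z h]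
  by_contra hne
  have hv : 0 < v z := lt_of_le_of_ne hv0 (Ne.symm hne)
  have hz2 : r₀ ≤ 2 * ‖z‖ := by linarith
  have h1 := hVA D v hE b r₀ hb.le hr₀ hT z (2 * ‖z‖) hz (by linarith) (v z) hv le_rfl
  have h2 : En D v (2 * ‖z‖) = 0 := by
    have := hzero _ hz2
    rw [hEdef] at this
    simp only [ENNReal.toReal_eq_zero_iff] at this
    exact this.resolve_right (hfin _ hz2)
  have h3 : ∫⁻ w in {w : ℂ | ‖z‖ < ‖w‖ ∧ ‖w‖ < 2 * ‖z‖},
      ENNReal.ofReal ({w | v w < v z}.indicator (G D v) w) = 0 := by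
    have h4 : ∫⁻ w in {w : ℂ | ‖w‖ < 2 * ‖z‖}, ENNReal.ofReal (q D v w) = 0 := h2
    rw [lintegral_eq_zero_iff hmq.ennreal_ofReal] at h4
    have h5 : ∀ᵐ w ∂(volume.restrict {w : ℂ | ‖z‖ < ‖w‖ ∧ ‖w‖ < 2 * ‖z‖}), 
        ENNReal.ofReal (q D v w) = 0 := by
      refine ae_restrict_of_ae_restrict_of_subset (fun w hw => ?_) h4
      exact hw.2
    rw [lintegral_eq_zero_iff (by
      exact (hmG.indicator (measurableSet_lt hE.cont.measurable measurable_const)).ennreal_ofReal)]
    filter_upwards [h5] with w hw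
    have hq : q D v w = 0 := le_antisymm (ENNReal.ofReal_eq_zero.1 hw) (q_nonneg D v w)
    have hG : G D v w = 0 := by
      unfold q at hq
      have hs : √(1 + G D v w ^ 2) ≠ 0 := (Real.sqrt_pos.2 (by positivity)).ne'
      rcases div_eq_zero_iff.1 hq with h | h
      · exact pow_eq_zero_iff (by norm_num) |>.1 h
      · exact absurd h hs
    have e0 : {w | v w < v z}.indicator (G D v) w = 0 := by
      by_cases hw2 : w ∈ {w | v w < v z}
      · rw [indicator_of_mem hw2, hG]
      · rw [indicator_of_notMem hw2]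
    rw [e0]; simp
  rw [h3, nonpos_iff_eq_zero, ENNReal.ofReal_eq_zero] at h1
  nlinarith [mul_pos hv hr]

end Pool.Agent.W5h42.MG
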